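import Pool.Agent.V7H64.WX.Cnt2

set_option autoImplicit false

/-! Almost all exponents (helper64). -/

namespace Pool.Agent.V7H64.WX

open Finset MeasureTheory Filter

/-- logarithms are smaller than powers -/
lemma ev_log (A B κ : ℝ) (hκ : 0 < κ) : ∀ᶠ N : ℝ in atTop, A * Real.log N + B ≤ N ^ κ := by
  have h1 : ∀ᶠ N : ℝ in atTop, |A| * (2 / κ) + |B| ≤ N ^ (κ / 2) :=
    (tendsto_rpow_atTop (show 0 < κ / 2 by positivity)).eventually_ge_atTop _
  filter_upwards [h1, eventually_ge_atTop (1 : ℝ)] with N h2 h3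
  have h4 : Real.log N ≤ N ^ (κ / 2) / (κ / 2) := Real.log_le_rpow_div (by linarith) (by positivity)
  have h5 : 0 ≤ Real.log N := Real.log_nonneg h3
  have h6 : 1 ≤ N ^ (κ / 2) := Real.one_le_rpow h3 (by positivity)
  have h7 : N ^ κ = N ^ (κ / 2) * N ^ (κ / 2) := by
    rw [← Real.rpow_add (by linarith)]
    congr 1
    ring
  have h8 : N ^ (κ / 2) / (κ / 2) = (2 / κ) * N ^ (κ / 2) := by field_simp
  rw [h8] at h4
  rw [h7]
  calc A * Real.log N + B ≤ |A| * Real.log N + |B| := by
        gcongr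
        · exact le_abs_self A
        · exact le_abs_self B
    _ ≤ |A| * ((2 / κ) * N ^ (κ / 2)) + |B| * N ^ (κ / 2) := by
        gcongr
        exact le_mul_of_one_le_right (abs_nonneg _) h6
    _ = (|A| * (2 / κ) + |B|) * N ^ (κ / 2) := by ring
    _ ≤ _ := by gcongr

/-- conditions on the parameters -/
structure Cond (a b q : ℝ) (s : ℕ) : Prop where
  ha : 1 < a
  hab : a ≤ b
  hq0 : 0 < q
  hq1 : q < 1
  hk : 0 < a * (1 - q ^ 2) - 1
  hq2 : a * (1 - q) ≤ 1
  hV : a ≤ ∑ i ∈ range s, q ^ i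

lemma ev_large {a b q : ℝ} {s : ℕ} (h : Cond a b q s) : ∀ᶠ N : ℝ in atTop, Large a b q s N := by
  have hq0 := h.hq0
  have hqs : 0 < q ^ s := by positivity
  have h1 := ev_log (4 * s * (2 ^ b * 2)) (4 * s * (2 ^ b * 2)) (q ^ s * (a * (1 - q ^ 2) - 1)) (mul_pos hqs h.hk)
  have h2 := ev_log 1 0 (q ^ s * (a - 1)) (mul_pos hqs (by linarith [h.ha]))
  have h3 : ∀ᶠ N : ℝ in atTop, (3 * (1 + 2 ^ b) + 3) / (q ^ s * (1 - q)) ≤ Real.log N :=
    Real.tendsto_log_atTop.eventually_ge_atTop _
  have h4 : ∀ᶠ N : ℝ in atTop, 2 ≤ N ^ (q ^ s) := (tendsto_rpow_atTop hqs).eventually_ge_atTop _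
  filter_upwards [h1, h2, h3, h4, eventually_ge_atTop (1 : ℝ)] with N h1 h2 h3 h4 h5
  refine ⟨h5, ?_, by linarith, ?_, h4⟩
  · calc 4 * s * (2 ^ b * (2 * Real.log N + 2)) = 4 * s * (2 ^ b * 2) * Real.log N + 4 * s * (2 ^ b * 2) := by ring
      _ ≤ _ := h1
  · have hpos : 0 < q ^ s * (1 - q) := mul_pos hqs (by linarith [h.hq1])
    rw [div_le_iff₀ hpos] at h3
    linarith

/-- the number of the pairs of tuples whose sums of powers are close -/
noncomputable def CN (c N q : ℝ) (s : ℕ) : ℕ :=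
  ((PP N q s).filter (fun x => |∑ i, df (x i) c| < 1)).card

lemma measurable_df (p : ℕ × ℕ) : Measurable (df p) := by
  unfold df
  exact (Measurable.pow measurable_const measurable_id).sub (Measurable.pow measurable_const measurable_id)

lemma measurableSet_Zs (a b : ℝ) {s : ℕ} (x : Fin s → ℕ × ℕ) : MeasurableSet (Zs a b x) := by
  have h1 : Measurable (fun c => |∑ i, df (x i) c|) := by
    have h2 : Measurable (fun c => ∑ i, df (x i) c) := Finset.measurable_sum _ (fun i _ => measurable_df (x i))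
    exact h2.abs
  exact measurableSet_Icc.inter (measurableSet_lt h1 measurable_const)

/-- **The mean value for almost all exponents.** -/
theorem ae_bound {a b q : ℝ} {s : ℕ} (h : Cond a b q s) :
    ∀ᵐ c : ℝ, c ∈ Set.Icc a b → ∀ᶠ k : ℕ in atTop,
      (CN c ((2 : ℝ) ^ k) q s : ℝ) ≤ ((k : ℝ) + 2) ^ 3 * ((VV ((2 : ℝ) ^ k) q s) ^ 2 * ((2 : ℝ) ^ k) ^ (-a)) := by
  classical
  set T : ℕ → ℝ := fun k => ((k : ℝ) + 2) ^ 3 * ((VV ((2 : ℝ) ^ k) q s) ^ 2 * ((2 : ℝ) ^ k) ^ (-a)) with hT
  set A : ℕ → Set ℝ := fun k => {c | Large a b q s ((2 : ℝ) ^ k) ∧ c ∈ Set.Icc a b ∧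
    T k < (CN c ((2 : ℝ) ^ k) q s : ℝ)} with hA
  set K : ℝ := (b - a) * 2 ^ s + s * (2 ^ s * 16) with hK
  have hK0 : 0 ≤ K := by
    rw [hK]
    have : 0 ≤ b - a := by linarith [h.hab]
    positivity
  have hAk : ∀ k, volume (A k) ≤ ENNReal.ofReal (K / ((k : ℝ) + 2) ^ 2) := by
    intro k
    by_cases hL : Large a b q s ((2 : ℝ) ^ k)
    swap
    · have : A k = ∅ := by
        ext c
        simp only [hA, Set.mem_ofPred_eq, Set.mem_empty_iff_false, iff_false]
        exact fun h => hL h.1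
      rw [this, measure_empty]
      exact bot_le
    set N : ℝ := (2 : ℝ) ^ k with hN
    have hN0 : 0 < N := by positivity
    have hVpos : 0 < VV N q s := by
      unfold VV
      apply prod_pos
      intro i _
      have h1 := card_BB_ge (hL.lev h.hq0 h.hq1 i.2.le)
      have h2 := one_le_lev hL.one h.hq0.le i
      linarith
    have hT0 : 0 < T k := by
      simp only [hT]
      have : 0 < N ^ (-a) := Real.rpow_pos_of_pos hN0 _
      positivity
    set f : ℝ → ENNReal := fun c => ∑ x ∈ PP N q s, (Zs a b x).indicator 1 c with hf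
    have hfm : Measurable f := Finset.measurable_sum _ (fun x _ => measurable_one.indicator (measurableSet_Zs a b x))
    have hint : ∫⁻ c, f c = ∑ x ∈ PP N q s, volume (Zs a b x) := by
      rw [hf, lintegral_finsetSum _ (fun x _ => measurable_one.indicator (measurableSet_Zs a b x))]
      refine sum_congr rfl fun x _ => ?_
      rw [lintegral_indicator_one (measurableSet_Zs a b x)]
    have hsub : A k ⊆ {c | ENNReal.ofReal (T k) ≤ f c} := by
      rintro c ⟨_, hc1, hc2⟩
      rw [Set.mem_ofPred_eq]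
      have h1 : f c = (CN c N q s : ENNReal) := by
        simp only [hf]
        unfold CN
        rw [card_filter, Nat.cast_sum]
        refine sum_congr rfl fun x _ => ?_
        rw [Set.indicator_apply]
        by_cases h2 : |∑ i, df (x i) c| < 1
        · rw [if_pos h2, if_pos (show c ∈ Zs a b x from ⟨hc1, h2⟩)]
          simp
        · rw [if_neg h2, if_neg (fun h3 : c ∈ Zs a b x => h2 h3.2)]
          simp
      rw [h1, ← ENNReal.ofReal_natCast]
      exact ENNReal.ofReal_le_ofReal hc2.le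
    have hmark := mul_meas_ge_le_lintegral₀ (μ := volume) hfm.aemeasurable (ENNReal.ofReal (T k))
    rw [hint] at hmark
    have hsv := sum_vol a b q s N h.ha h.hab h.hq0 h.hq1 h.hk h.hq2 h.hV hL
    have h2 : ENNReal.ofReal (T k) * volume (A k) ≤ ENNReal.ofReal (T k) * ENNReal.ofReal (K / ((k : ℝ) + 2) ^ 2) := by
      calc ENNReal.ofReal (T k) * volume (A k) ≤ ENNReal.ofReal (T k) * volume {c | ENNReal.ofReal (T k) ≤ f c} := by
            gcongr
        _ ≤ _ := hmark
        _ ≤ _ := hsv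
        _ ≤ ENNReal.ofReal (T k * (K / ((k : ℝ) + 2) ^ 2)) := by
            apply ENNReal.ofReal_le_ofReal
            have hlog : 1 + Real.log (2 * N) ≤ (k : ℝ) + 2 := by
              have e1 : 2 * N = (2 : ℝ) ^ (k + 1) := by rw [hN, pow_succ]; ring
              rw [e1, Real.log_pow]
              have e2 : Real.log 2 ≤ 1 := by
                have := Real.log_le_sub_one_of_pos (show (0 : ℝ) < 2 by norm_num)
                linarith
              push_cast
              have e3 : ((k : ℝ) + 1) * Real.log 2 ≤ ((k : ℝ) + 1) * 1 := by gcongr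
              linarith
            have hNa : 0 < N ^ (-a) := Real.rpow_pos_of_pos hN0 _
            rw [← hK]
            calc K * (1 + Real.log (2 * N)) * ((VV N q s) ^ 2 * N ^ (-a))
                ≤ K * ((k : ℝ) + 2) * ((VV N q s) ^ 2 * N ^ (-a)) := by gcongr
              _ = T k * (K / ((k : ℝ) + 2) ^ 2) := by
                  simp only [hT, ← hN]
                  field_simp
        _ = _ := ENNReal.ofReal_mul hT0.le
    have h3 : ENNReal.ofReal (T k) ≠ 0 := by
      rw [Ne, ENNReal.ofReal_eq_zero]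
      linarith
    exact (ENNReal.mul_le_mul_iff_right h3 ENNReal.ofReal_ne_top).1 h2
  have hsum : ∑' k, volume (A k) ≠ ⊤ := by
    have hsm : Summable (fun k : ℕ => K / ((k : ℝ) + 2) ^ 2) := by
      have h1 : Summable (fun k : ℕ => 1 / ((k : ℝ)) ^ 2) := Real.summable_one_div_nat_pow.2 (by norm_num)
      have h2 := (summable_nat_add_iff 2).2 h1
      have h3 := h2.mul_left K
      refine h3.congr fun k => ?_
      push_cast
      ring
    have h1 : ∑' k, volume (A k) ≤ ∑' k : ℕ, ENNReal.ofReal (K / ((k : ℝ) + 2) ^ 2) := ENNReal.tsum_le_tsum hAk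
    rw [← ENNReal.ofReal_tsum_of_nonneg (fun k => by positivity) hsm] at h1
    exact ne_top_of_le_ne_top ENNReal.ofReal_ne_top h1
  have hlarge : ∀ᶠ k : ℕ in atTop, Large a b q s ((2 : ℝ) ^ k) :=
    (tendsto_pow_atTop_atTop_of_one_lt (show (1 : ℝ) < 2 by norm_num)).eventually (ev_large h)
  filter_upwards [ae_eventually_notMem hsum] with c hc hcab
  filter_upwards [hc, hlarge] with k hk1 hk2
  by_contra hcon
  exact hk1 ⟨hk2, hcab, not_le.1 hcon⟩

/-- all rational parameters at once, and the exponent is not an integer -/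
theorem ae_all : ∀ᵐ c : ℝ, (∀ m : ℕ, c ≠ m) ∧ ∀ (a b q : ℚ) (s : ℕ), Cond a b q s → c ∈ Set.Icc (a : ℝ) b →
    ∀ᶠ k : ℕ in atTop,
      (CN c ((2 : ℝ) ^ k) q s : ℝ) ≤ ((k : ℝ) + 2) ^ 3 * ((VV ((2 : ℝ) ^ k) q s) ^ 2 * ((2 : ℝ) ^ k) ^ (-(a : ℝ))) := by
  rw [eventually_and]
  constructor
  · rw [ae_all_iff]
    intro m
    exact Measure.ae_ne volume _
  · rw [ae_all_iff]
    intro a
    rw [ae_all_iff]
    intro b
    rw [ae_all_iff]
    intro q
    rw [ae_all_iff]
    intro s
    by_cases h : Cond a b q s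
    · filter_upwards [ae_bound h] with c hc _ hcab
      exact hc hcab
    · exact Eventually.of_forall fun c h' => absurd h' h

end Pool.Agent.V7H64.WX
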