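import Pool.Agent.V7H64.WX.Two

set_option autoImplicit false

/-! The mean value over the exponents (helper64). -/

namespace Pool.Agent.V7H64.WX

open Finset MeasureTheory Filter

/-- the integers `n` with `lev < n ≤ 2 lev` -/
noncomputable def BB (N q : ℝ) (i : ℕ) : Finset ℕ := Ioc ⌊lev N q i⌋₊ ⌊2 * lev N q i⌋₊

lemma mem_BB {N q : ℝ} (hN : 1 ≤ N) (hq : 0 ≤ q) {i n : ℕ} :
    n ∈ BB N q i ↔ lev N q i < n ∧ (n : ℝ) ≤ 2 * lev N q i := by
  have h1 := one_le_lev hN hq i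
  unfold BB
  rw [mem_Ioc, Nat.floor_lt (by linarith), Nat.le_floor_iff (by linarith)]

lemma card_BB_ge {N q : ℝ} {i : ℕ} (h : 2 ≤ lev N q i) : lev N q i / 2 ≤ ((BB N q i).card : ℝ) := by
  unfold BB
  rw [Nat.card_Ioc]
  have h1 := Nat.lt_floor_add_one (2 * lev N q i)
  have h2 := Nat.floor_le (show 0 ≤ lev N q i by linarith)
  have h3 : ((⌊2 * lev N q i⌋₊ : ℝ)) - ⌊lev N q i⌋₊ ≤ ((⌊2 * lev N q i⌋₊ - ⌊lev N q i⌋₊ : ℕ) : ℝ) := by
    have := Nat.le_sub_iff_add_le' (n := ⌊lev N q i⌋₊) (m := ⌊2 * lev N q i⌋₊ - ⌊lev N q i⌋₊) (k := ⌊2 * lev N q i⌋₊)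
    have h4 : ⌊2 * lev N q i⌋₊ ≤ (⌊2 * lev N q i⌋₊ - ⌊lev N q i⌋₊) + ⌊lev N q i⌋₊ := by omega
    have h5 : ((⌊2 * lev N q i⌋₊ : ℝ)) ≤ ((⌊2 * lev N q i⌋₊ - ⌊lev N q i⌋₊ : ℕ) : ℝ) + ⌊lev N q i⌋₊ := by
      exact_mod_cast h4
    linarith
  linarith

lemma inv_half (v n : ℕ) (S : Finset ℕ) (φ : ℕ → ℕ) (hφ : ∀ m ∈ S, φ m < v) (hinj : Set.InjOn φ S)
    (hval : ∀ m ∈ S, |(n : ℝ) - m| = (φ m : ℝ) + 1) :
    ∑ m ∈ S, 1 / |(n : ℝ) - m| ≤ 1 + Real.log v := by
  have h1 : ∑ m ∈ S, 1 / |(n : ℝ) - m| = ∑ h ∈ S.image φ, 1 / ((h : ℝ) + 1) := by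
    rw [sum_image hinj]
    exact sum_congr rfl fun m hm => by rw [hval m hm]
  rw [h1]
  have h2 : ∑ h ∈ S.image φ, 1 / ((h : ℝ) + 1) ≤ ∑ h ∈ range v, 1 / ((h : ℝ) + 1) := by
    apply sum_le_sum_of_subset_of_nonneg
    · intro h hh
      rw [mem_image] at hh
      obtain ⟨m, hm, rfl⟩ := hh
      exact mem_range.2 (hφ m hm)
    · intro i _ _
      positivity
  refine h2.trans ?_
  have h3 := harmonic_le_one_add_log v
  refine le_trans (le_of_eq ?_) h3
  unfold harmonic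
  push_cast
  exact sum_congr rfl fun i _ => by rw [one_div]

lemma inv_sum (u v n : ℕ) : ∑ m ∈ (Ioc u v).erase n, 1 / |(n : ℝ) - m| ≤ 2 * (1 + Real.log v) ∨ ¬ n ∈ Ioc u v := by
  by_cases hn : n ∈ Ioc u v
  · left
    rw [mem_Ioc] at hn
    have h1 : (Ioc u v).erase n = (Ioc u v).filter (fun m => m < n) ∪ (Ioc u v).filter (fun m => n < m) := by
      ext m
      simp only [mem_erase, mem_union, mem_filter, mem_Ioc]
      omega
    have hdis : Disjoint ((Ioc u v).filter (fun m => m < n)) ((Ioc u v).filter (fun m => n < m)) := by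
      rw [disjoint_left]
      intro m h1 h2
      rw [mem_filter] at h1 h2
      omega
    rw [h1, sum_union hdis]
    have h2 := inv_half v n ((Ioc u v).filter (fun m => m < n)) (fun m => n - m - 1)
      (by intro m hm; rw [mem_filter, mem_Ioc] at hm; omega)
      (by
        intro m hm m' hm' he
        rw [mem_coe, mem_filter, mem_Ioc] at hm hm'
        dsimp only at he
        omega)
      (by
        intro m hm
        rw [mem_filter, mem_Ioc] at hm
        have e1 : (m : ℝ) ≤ n := by exact_mod_cast hm.2.le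
        rw [abs_of_nonneg (by linarith)]
        have e2 : n - m - 1 + 1 + m = n := by omega
        have e3 : ((n - m - 1 : ℕ) : ℝ) + 1 + m = n := by exact_mod_cast e2
        linarith)
    have h3 := inv_half v n ((Ioc u v).filter (fun m => n < m)) (fun m => m - n - 1)
      (by intro m hm; rw [mem_filter, mem_Ioc] at hm; omega)
      (by
        intro m hm m' hm' he
        rw [mem_coe, mem_filter, mem_Ioc] at hm hm'
        dsimp only at he
        omega)
      (by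
        intro m hm
        rw [mem_filter, mem_Ioc] at hm
        have e1 : (n : ℝ) ≤ m := by exact_mod_cast hm.2.le
        rw [abs_sub_comm, abs_of_nonneg (by linarith)]
        have e2 : m - n - 1 + 1 + n = m := by omega
        have e3 : ((m - n - 1 : ℕ) : ℝ) + 1 + n = m := by exact_mod_cast e2
        linarith)
    linarith
  · exact Or.inr hn

lemma offDiag_sum (u v : ℕ) : ∑ p ∈ (Ioc u v).offDiag, 1 / |(p.1 : ℝ) - p.2| ≤
    ((Ioc u v).card : ℝ) * (2 * (1 + Real.log v)) := by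
  have h1 : (Ioc u v).offDiag = (Ioc u v ×ˢ Ioc u v).filter (fun p => p.1 ≠ p.2) := by
    ext p
    simp only [mem_offDiag, mem_filter, mem_product]
    tauto
  rw [h1, sum_filter, sum_product]
  have h2 : ∀ n ∈ Ioc u v, ∑ m ∈ Ioc u v, (if n ≠ m then 1 / |(n : ℝ) - m| else 0) ≤ 2 * (1 + Real.log v) := by
    intro n hn
    rw [← sum_filter]
    have h3 : (Ioc u v).filter (fun m => n ≠ m) = (Ioc u v).erase n := by
      ext m
      simp only [mem_filter, mem_erase]
      constructor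
      · rintro ⟨h1, h2⟩
        exact ⟨fun h => h2 h.symm, h1⟩
      · rintro ⟨h1, h2⟩
        exact ⟨h2, fun h => h1 h.symm⟩
    rw [h3]
    rcases inv_sum u v n with h | h
    · exact h
    · exact absurd hn h
  refine (sum_le_sum h2).trans ?_
  rw [sum_const, nsmul_eq_mul]

/-- the pairs of tuples -/
noncomputable def PP (N q : ℝ) (s : ℕ) : Finset (Fin s → ℕ × ℕ) :=
  Fintype.piFinset (fun i : Fin s => BB N q i ×ˢ BB N q i)

/-- the exponents for which the difference of the sums is small -/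
def Zs (a b : ℝ) {s : ℕ} (x : Fin s → ℕ × ℕ) : Set ℝ := {c : ℝ | c ∈ Set.Icc a b ∧ |∑ i, df (x i) c| < 1}

/-- the number of the tuples -/
noncomputable def VV (N q : ℝ) (s : ℕ) : ℝ := ∏ i : Fin s, ((BB N q i).card : ℝ)

/-- `N` is large -/
structure Large (a b q : ℝ) (s : ℕ) (N : ℝ) : Prop where
  one : 1 ≤ N
  E1 : 4 * s * (2 ^ b * (2 * Real.log N + 2)) ≤ N ^ (q ^ s * (a * (1 - q ^ 2) - 1))
  E2 : Real.log N ≤ N ^ (q ^ s * (a - 1))
  E3 : 3 * (1 + 2 ^ b) + 3 ≤ q ^ s * (1 - q) * Real.log N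
  E4 : 2 ≤ N ^ (q ^ s)

lemma Large.lev {a b q : ℝ} {s : ℕ} {N : ℝ} (h : Large a b q s N) (hq0 : 0 < q) (hq1 : q < 1) {i : ℕ} (hi : i ≤ s) :
    2 ≤ lev N q i := by
  refine h.E4.trans ?_
  unfold Pool.Agent.V7H64.WX.lev
  exact Real.rpow_le_rpow_of_exponent_le h.one (pow_le_pow_of_le_one hq0.le hq1.le hi)

/-- the measure for one pair of tuples -/
theorem vol_pair (a b q : ℝ) (s : ℕ) (N : ℝ) (ha : 1 < a) (hq0 : 0 < q) (hq1 : q < 1)
    (hk : 0 < a * (1 - q ^ 2) - 1) (hL : Large a b q s N) (x : Fin s → ℕ × ℕ) (hx : x ∈ PP N q s)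
    (j : Fin s) (hj : ∀ i < j, (x i).1 = (x i).2) (hjj : (x j).1 ≠ (x j).2) :
    volume (Zs a b x) ≤ ENNReal.ofReal (4 / (|((x j).1 : ℝ) - (x j).2| * (lev N q j) ^ (a - 1))) := by
  have hN := hL.one
  unfold PP at hx
  rw [Fintype.mem_piFinset] at hx
  have hx1 : ∀ i : Fin s, lev N q i ≤ (x i).1 ∧ ((x i).1 : ℝ) ≤ 2 * lev N q i := by
    intro i
    have h1 := (mem_product.1 (hx i)).1
    rw [mem_BB hN hq0.le] at h1
    exact ⟨h1.1.le, h1.2⟩
  have hx2 : ∀ i : Fin s, lev N q i ≤ (x i).2 ∧ ((x i).2 : ℝ) ≤ 2 * lev N q i := by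
    intro i
    have h1 := (mem_product.1 (hx i)).2
    rw [mem_BB hN hq0.le] at h1
    exact ⟨h1.1.le, h1.2⟩
  have hpos : ∀ i : Fin s, 0 < ((x i).1 : ℝ) ∧ 0 < ((x i).2 : ℝ) := by
    intro i
    have h1 := one_le_lev hN hq0.le i
    exact ⟨by linarith [(hx1 i).1], by linarith [(hx2 i).1]⟩
  have hder : ∀ c ∈ Set.Icc a b, HasDerivAt (fun c => ∑ i, df (x i) c) (∑ i, dd (x i) c) c := by
    intro c _
    have := HasDerivAt.fun_sum (u := (univ : Finset (Fin s))) (A := fun i => df (x i)) (A' := fun i => dd (x i) c)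
      (x := c) (fun i _ => hasDerivAt_df (x i) (hpos i).1 (hpos i).2 c)
    exact this
  have hl0 : 0 < (lev N q j) ^ (a - 1) := Real.rpow_pos_of_pos (by have := one_le_lev hN hq0.le j; linarith) _
  have habs : 0 < |((x j).1 : ℝ) - (x j).2| := by
    rw [abs_pos, sub_ne_zero]
    exact_mod_cast hjj
  have hl : 0 < |((x j).1 : ℝ) - (x j).2| * (lev N q j) ^ (a - 1) := mul_pos habs hl0
  rcases lt_or_gt_of_ne hjj with hlt | hlt
  · have h1 := vol_small' (g := fun c => ∑ i, df (x i) c) (g' := fun c => ∑ i, dd (x i) c) (a := a) (b := b) hl hder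
      (by
        intro c hc hg
        have h2 := two_level a b q s N ha hq0 hq1 hN hk hL.E1 hL.E2 hL.E3 (fun i => (x i).swap) hx2 hx1 j
          (fun i hi => (hj i hi).symm) hlt c hc (by
            simp only [df_swap, sum_neg_distrib, abs_neg]
            exact hg)
        simp only [dd_swap, sum_neg_distrib, Prod.fst_swap, Prod.snd_swap] at h2
        rw [abs_sub_comm, abs_of_nonneg (by
          have : ((x j).1 : ℝ) ≤ (x j).2 := by exact_mod_cast hlt.le
          linarith)]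
        exact h2)
    exact h1
  · have h1 := vol_small (g := fun c => ∑ i, df (x i) c) (g' := fun c => ∑ i, dd (x i) c) (a := a) (b := b) hl hder
      (by
        intro c hc hg
        have h2 := two_level a b q s N ha hq0 hq1 hN hk hL.E1 hL.E2 hL.E3 x hx1 hx2 j hj hlt c hc hg
        rw [abs_of_nonneg (by
          have : ((x j).2 : ℝ) ≤ (x j).1 := by exact_mod_cast hlt.le
          linarith)]
        exact h2)
    exact h1

end Pool.Agent.V7H64.WX
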