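import Pool.Agent.V7H64.WX.Cnt

set_option autoImplicit false

/-! The mean value over the exponents, II (helper64). -/

namespace Pool.Agent.V7H64.WX

open Finset MeasureTheory Filter

/-- the pairs at the place `i`, if `j` is the first difference -/
def DD (B : ℕ → Finset ℕ) (j i : ℕ) : Finset (ℕ × ℕ) :=
  if i < j then (B i).diag else if i = j then (B i).offDiag else B i ×ˢ B i

/-- the exponents -/
noncomputable def ee (a q : ℝ) (j i : ℕ) : ℝ := if i < j then q ^ i else if i = j then a * q ^ j else 0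

lemma sum_ee (a q : ℝ) (hq0 : 0 < q) (ha : 1 < a) (hq2 : a * (1 - q) ≤ 1) (s j : ℕ) (hj : j < s) :
    a ≤ ∑ i ∈ range s, ee a q j i := by
  have h1 : ∑ i ∈ range (j + 1), ee a q j i ≤ ∑ i ∈ range s, ee a q j i := by
    apply sum_le_sum_of_subset_of_nonneg
    · exact range_subset_range.2 hj
    · intro i _ _
      unfold ee
      split_ifs <;> positivity
  refine le_trans ?_ h1
  rw [sum_range_succ]
  have h2 : ∑ i ∈ range j, ee a q j i = ∑ i ∈ range j, q ^ i := by
    refine sum_congr rfl fun i hi => ?_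
    rw [mem_range] at hi
    unfold ee
    rw [if_pos hi]
  have h3 : ee a q j j = a * q ^ j := by
    unfold ee
    rw [if_neg (lt_irrefl j), if_pos rfl]
  rw [h2, h3]
  clear h1 h2 h3 hj
  induction j with
  | zero => simp
  | succ j ih =>
    rw [sum_range_succ]
    have h4 : 0 ≤ q ^ j * (1 - a * (1 - q)) := mul_nonneg (by positivity) (by linarith)
    rw [pow_succ]
    nlinarith

lemma prod_bound (a q : ℝ) (s : ℕ) (N : ℝ) (ha : 1 < a) (hq0 : 0 < q) (hq1 : q < 1) (hq2 : a * (1 - q) ≤ 1)
    (hN : 1 ≤ N) (hlev : ∀ i < s, 2 ≤ lev N q i) (j : Fin s) :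
    ∏ i : Fin s, ∑ p ∈ DD (BB N q) j i,
      (if i = j then 4 / (|((p.1 : ℕ) : ℝ) - p.2| * (lev N q j) ^ (a - 1)) else 1) ≤
    (VV N q s) ^ 2 * (2 ^ s * (16 * (1 + Real.log (2 * N))) * N ^ (-a)) := by
  have hN0 : 0 < N := by linarith
  have hlog : 0 ≤ Real.log (2 * N) := Real.log_nonneg (by linarith)
  have hY0 : ∀ i : ℕ, 0 < lev N q i := fun i => by have := one_le_lev hN hq0.le i; linarith
  have hcard : ∀ i : Fin s, lev N q i / 2 ≤ ((BB N q i).card : ℝ) := fun i => card_BB_ge (hlev i i.2)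
  have hterm : ∀ i : Fin s, ∑ p ∈ DD (BB N q) j i,
      (if i = j then 4 / (|((p.1 : ℕ) : ℝ) - p.2| * (lev N q j) ^ (a - 1)) else 1) ≤
      ((BB N q i).card : ℝ) ^ 2 * ((2 * (if i = j then 16 * (1 + Real.log (2 * N)) else 1)) * N ^ (-(ee a q j i))) := by
    intro i
    have hi := hcard i
    have hYi := hY0 i
    have hc0 : 0 < ((BB N q i).card : ℝ) := by linarith
    rcases lt_trichotomy (i : ℕ) (j : ℕ) with h | h | h
    · have hne : i ≠ j := fun h' => by rw [h'] at h; exact lt_irrefl _ h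
      simp only [if_neg hne]
      unfold DD ee
      rw [if_pos h, if_pos h, sum_const, diag_card, nsmul_eq_mul, mul_one, mul_one]
      have h1 : N ^ (-(q ^ (i : ℕ))) = (lev N q i)⁻¹ := by
        unfold lev
        rw [Real.rpow_neg hN0.le]
      rw [h1]
      have h2 : 1 ≤ ((BB N q i).card : ℝ) * (2 * (lev N q i)⁻¹) := by
        calc (1 : ℝ) = lev N q i / 2 * (2 * (lev N q i)⁻¹) := by field_simp
          _ ≤ _ := by gcongr
      calc ((BB N q i).card : ℝ) = (BB N q i).card * 1 := by ring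
        _ ≤ (BB N q i).card * (((BB N q i).card : ℝ) * (2 * (lev N q i)⁻¹)) := by gcongr
        _ = _ := by ring
    · have heq : i = j := Fin.ext h
      subst heq
      simp only [if_true]
      have hD : DD (BB N q) i i = (BB N q i).offDiag := by
        unfold DD
        rw [if_neg (lt_irrefl _), if_pos rfl]
      have he : ee a q i i = a * q ^ (i : ℕ) := by
        unfold ee
        rw [if_neg (lt_irrefl _), if_pos rfl]
      rw [hD, he]
      have h1 : ∑ p ∈ (BB N q i).offDiag, 4 / (|((p.1 : ℕ) : ℝ) - p.2| * (lev N q i) ^ (a - 1)) =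
          4 / (lev N q i) ^ (a - 1) * ∑ p ∈ (BB N q i).offDiag, 1 / |((p.1 : ℕ) : ℝ) - p.2| := by
        rw [mul_sum]
        refine sum_congr rfl fun p _ => ?_
        rw [div_mul_div_comm, mul_one, mul_comm (|((p.1 : ℕ) : ℝ) - p.2|)]
      rw [h1]
      have h2 := offDiag_sum ⌊lev N q i⌋₊ ⌊2 * lev N q i⌋₊
      have h3 : Real.log (⌊2 * lev N q i⌋₊ : ℝ) ≤ Real.log (2 * N) := by
        have h4 : (1 : ℝ) ≤ ⌊2 * lev N q i⌋₊ := by
          have : 1 ≤ ⌊2 * lev N q i⌋₊ := Nat.le_floor (by push_cast; have := one_le_lev hN hq0.le i; linarith)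
          exact_mod_cast this
        apply Real.log_le_log (by linarith)
        refine (Nat.floor_le (by linarith)).trans ?_
        have h5 : lev N q i ≤ N := by
          unfold lev
          calc N ^ (q ^ (i : ℕ)) ≤ N ^ (1 : ℝ) := Real.rpow_le_rpow_of_exponent_le hN (pow_le_one₀ hq0.le hq1.le)
            _ = N := Real.rpow_one N
        linarith
      have h4 : ∑ p ∈ (BB N q i).offDiag, 1 / |((p.1 : ℕ) : ℝ) - p.2| ≤
          ((BB N q i).card : ℝ) * (2 * (1 + Real.log (2 * N))) := by
        refine h2.trans ?_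
        unfold BB
        gcongr
      have h5 : 0 < (lev N q i) ^ (a - 1) := Real.rpow_pos_of_pos hYi _
      have h6 : N ^ (-(a * q ^ (i : ℕ))) = ((lev N q i) ^ a)⁻¹ := by
        unfold lev
        rw [← Real.rpow_mul hN0.le, ← Real.rpow_neg hN0.le]
        congr 2
        ring
      have h7 : (lev N q i) ^ a = lev N q i * (lev N q i) ^ (a - 1) := by
        rw [Real.rpow_sub_one hYi.ne']
        field_simp
      rw [h6, h7]
      have hK : 0 ≤ 1 + Real.log (2 * N) := by linarith
      calc 4 / (lev N q i) ^ (a - 1) * ∑ p ∈ (BB N q i).offDiag, 1 / |((p.1 : ℕ) : ℝ) - p.2|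
          ≤ 4 / (lev N q i) ^ (a - 1) * (((BB N q i).card : ℝ) * (2 * (1 + Real.log (2 * N)))) := by gcongr
        _ = (BB N q i).card * ((lev N q i / 2) * (16 * (1 + Real.log (2 * N)) *
              (lev N q i * (lev N q i) ^ (a - 1))⁻¹)) := by
            field_simp
            ring
        _ ≤ (BB N q i).card * (((BB N q i).card : ℝ) * (16 * (1 + Real.log (2 * N)) *
              (lev N q i * (lev N q i) ^ (a - 1))⁻¹)) := by gcongr
        _ ≤ _ := by
            have h8 : 0 ≤ ((BB N q i).card : ℝ) * (((BB N q i).card : ℝ) * (16 * (1 + Real.log (2 * N)) *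
              (lev N q i * (lev N q i) ^ (a - 1))⁻¹)) := by positivity
            nlinarith
    · have hne : i ≠ j := fun h' => by rw [h'] at h; exact lt_irrefl _ h
      simp only [if_neg hne]
      unfold DD ee
      rw [if_neg (by omega), if_neg (by omega), if_neg (by omega), if_neg (by omega), sum_const, card_product,
        nsmul_eq_mul, mul_one, neg_zero, Real.rpow_zero]
      push_cast
      nlinarith
  have hnn : ∀ i ∈ (univ : Finset (Fin s)), 0 ≤ ∑ p ∈ DD (BB N q) j i,
      (if i = j then 4 / (|((p.1 : ℕ) : ℝ) - p.2| * (lev N q j) ^ (a - 1)) else (1 : ℝ)) := by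
    intro i _
    apply sum_nonneg
    intro p _
    split_ifs
    · have := Real.rpow_pos_of_pos (hY0 j) (a - 1)
      positivity
    · norm_num
  refine (Finset.prod_le_prod hnn (fun i _ => hterm i)).trans ?_
  rw [prod_mul_distrib, prod_mul_distrib, prod_mul_distrib, prod_const, card_univ, Fintype.card_fin,
    prod_ite_eq' univ j, if_pos (mem_univ j), prod_pow]
  have h1 : ∏ i : Fin s, N ^ (-(ee a q j i)) ≤ N ^ (-a) := by
    rw [← Real.rpow_sum_of_pos hN0]
    apply Real.rpow_le_rpow_of_exponent_le hN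
    rw [sum_neg_distrib, neg_le_neg_iff]
    have h2 := sum_ee a q hq0 ha hq2 s j j.2
    rw [Fin.sum_univ_eq_sum_range (fun i => ee a q j i) s]
    exact h2
  have hVV : VV N q s = ∏ i : Fin s, ((BB N q i).card : ℝ) := rfl
  rw [← hVV]
  have hK : 0 ≤ 1 + Real.log (2 * N) := by linarith
  gcongr

lemma VV_ge (a q : ℝ) (s : ℕ) (N : ℝ) (hN : 1 ≤ N) (hlev : ∀ i < s, 2 ≤ lev N q i)
    (hV : a ≤ ∑ i ∈ range s, q ^ i) : N ^ a ≤ 2 ^ s * VV N q s := by
  have hN0 : 0 < N := by linarith
  have h1 : ∏ i : Fin s, (lev N q i / 2) ≤ VV N q s := by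
    unfold VV
    apply Finset.prod_le_prod
    · intro i _
      have := hlev i i.2
      linarith
    · intro i _
      exact card_BB_ge (hlev i i.2)
  have h2 : ∏ i : Fin s, (lev N q i / 2) = N ^ (∑ i ∈ range s, q ^ i) / 2 ^ s := by
    rw [prod_div_distrib, prod_const, card_univ, Fintype.card_fin, ← Fin.sum_univ_eq_sum_range (fun i => q ^ i) s,
      Real.rpow_sum_of_pos hN0]
    rfl
  rw [h2, div_le_iff₀ (by positivity)] at h1
  have h3 : N ^ a ≤ N ^ (∑ i ∈ range s, q ^ i) := Real.rpow_le_rpow_of_exponent_le hN hV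
  linarith

/-- **The mean value over the exponents.** -/
theorem sum_vol (a b q : ℝ) (s : ℕ) (N : ℝ) (ha : 1 < a) (hab : a ≤ b) (hq0 : 0 < q) (hq1 : q < 1)
    (hk : 0 < a * (1 - q ^ 2) - 1) (hq2 : a * (1 - q) ≤ 1) (hV : a ≤ ∑ i ∈ range s, q ^ i) (hL : Large a b q s N) :
    ∑ x ∈ PP N q s, volume (Zs a b x) ≤
      ENNReal.ofReal (((b - a) * 2 ^ s + s * (2 ^ s * 16)) * (1 + Real.log (2 * N)) * ((VV N q s) ^ 2 * N ^ (-a))) := by
  classical
  have hN := hL.one
  have hN0 : 0 < N := by linarith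
  have hlev : ∀ i < s, 2 ≤ lev N q i := fun i hi => hL.lev hq0 hq1 hi.le
  have hlog : 0 ≤ Real.log (2 * N) := Real.log_nonneg (by linarith)
  have hY0 : ∀ i : ℕ, 0 < lev N q i := fun i => by have := one_le_lev hN hq0.le i; linarith
  set f : Fin s → ℕ × ℕ → ℝ := fun j p => 4 / (|((p.1 : ℕ) : ℝ) - p.2| * (lev N q j) ^ (a - 1)) with hf
  have hf0 : ∀ j p, 0 ≤ f j p := by
    intro j p
    have := Real.rpow_pos_of_pos (hY0 j) (a - 1)
    simp only [hf]
    positivity
  set w : (Fin s → ℕ × ℕ) → ℝ := fun x => (if ∀ i, (x i).1 = (x i).2 then (b - a) else 0) +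
    ∑ j, (if (∀ i < j, (x i).1 = (x i).2) ∧ (x j).1 ≠ (x j).2 then f j (x j) else 0) with hw
  have hw1 : ∀ x ∈ PP N q s, volume (Zs a b x) ≤ ENNReal.ofReal (w x) := by
    intro x hx
    by_cases hdiag : ∀ i, (x i).1 = (x i).2
    · calc volume (Zs a b x) ≤ volume (Set.Icc a b) := measure_mono (fun c hc => hc.1)
        _ = ENNReal.ofReal (b - a) := Real.volume_Icc
        _ ≤ _ := by
          apply ENNReal.ofReal_le_ofReal
          simp only [hw]
          rw [if_pos hdiag]
          have : 0 ≤ ∑ j, (if (∀ i < j, (x i).1 = (x i).2) ∧ (x j).1 ≠ (x j).2 then f j (x j) else 0) := by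
            apply sum_nonneg
            intro j _
            split_ifs
            · exact hf0 _ _
            · exact le_rfl
          linarith
    · push Not at hdiag
      obtain ⟨j, hj, hmin⟩ : ∃ j : Fin s, (x j).1 ≠ (x j).2 ∧ ∀ i < j, (x i).1 = (x i).2 := by
        have hne : (univ.filter (fun i : Fin s => (x i).1 ≠ (x i).2)).Nonempty := by
          obtain ⟨i, hi⟩ := hdiag
          exact ⟨i, mem_filter.2 ⟨mem_univ _, hi⟩⟩
        refine ⟨(univ.filter (fun i : Fin s => (x i).1 ≠ (x i).2)).min' hne, ?_, ?_⟩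
        · exact (mem_filter.1 (min'_mem _ hne)).2
        · intro i hi
          by_contra hcon
          have := min'_le (univ.filter (fun i : Fin s => (x i).1 ≠ (x i).2)) i (mem_filter.2 ⟨mem_univ i, hcon⟩)
          exact absurd hi (not_lt.2 this)
      refine (vol_pair a b q s N ha hq0 hq1 hk hL x hx j hmin hj).trans ?_
      apply ENNReal.ofReal_le_ofReal
      simp only [hw]
      have h1 : f j (x j) ≤ ∑ j, (if (∀ i < j, (x i).1 = (x i).2) ∧ (x j).1 ≠ (x j).2 then f j (x j) else 0) := by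
        have h0 : ∀ j' ∈ (univ : Finset (Fin s)), 0 ≤ (if (∀ i < j', (x i).1 = (x i).2) ∧ (x j').1 ≠ (x j').2 then
          f j' (x j') else 0) := by
            intro j' _
            split_ifs
            · exact hf0 _ _
            · exact le_rfl
        have h2 := single_le_sum h0 (mem_univ j)
        rw [if_pos ⟨hmin, hj⟩] at h2
        exact h2
      have h2 : 0 ≤ (if ∀ i, (x i).1 = (x i).2 then (b - a) else 0) := by
        split_ifs <;> linarith
      have h3 : f j (x j) = 4 / (|((x j).1 : ℝ) - (x j).2| * (lev N q j) ^ (a - 1)) := rfl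
      linarith
  refine (sum_le_sum hw1).trans ?_
  rw [← ENNReal.ofReal_sum_of_nonneg]
  · apply ENNReal.ofReal_le_ofReal
    have hsplit : ∑ x ∈ PP N q s, w x = ∑ x ∈ PP N q s, (if ∀ i, (x i).1 = (x i).2 then (b - a) else 0) +
        ∑ j, ∑ x ∈ PP N q s, (if (∀ i < j, (x i).1 = (x i).2) ∧ (x j).1 ≠ (x j).2 then f j (x j) else 0) := by
      rw [sum_comm, ← sum_add_distrib]
    rw [hsplit]
    have hVpos : 0 < VV N q s := by
      unfold VV
      apply prod_pos
      intro i _
      have h1 := card_BB_ge (hlev i i.2)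
      have h2 := hY0 i
      linarith
    have hdiag : ∑ x ∈ PP N q s, (if ∀ i, (x i).1 = (x i).2 then (b - a) else 0) ≤
        ((b - a) * 2 ^ s) * (1 + Real.log (2 * N)) * ((VV N q s) ^ 2 * N ^ (-a)) := by
      rw [← sum_filter, sum_const, nsmul_eq_mul]
      have h1 : (((PP N q s).filter (fun x => ∀ i, (x i).1 = (x i).2)).card : ℝ) ≤ VV N q s := by
        have h2 : ((PP N q s).filter (fun x => ∀ i, (x i).1 = (x i).2)) ⊆
            (Fintype.piFinset (fun i : Fin s => (BB N q i).diag)) := by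
          intro x hx
          rw [mem_filter] at hx
          unfold PP at hx
          rw [Fintype.mem_piFinset] at hx ⊢
          intro i
          rw [mem_diag]
          exact ⟨(mem_product.1 (hx.1 i)).1, hx.2 i⟩
        have h3 := card_le_card h2
        rw [Fintype.card_piFinset] at h3
        unfold VV
        simp only [diag_card] at h3
        exact_mod_cast h3
      have h2 := VV_ge a q s N hN hlev hV
      have h3 : VV N q s ≤ 2 ^ s * ((VV N q s) ^ 2 * N ^ (-a)) := by
        have h4 : N ^ a * N ^ (-a) = 1 := by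
          rw [← Real.rpow_add hN0]
          simp
        calc VV N q s = VV N q s * (N ^ a * N ^ (-a)) := by rw [h4, mul_one]
          _ ≤ VV N q s * ((2 ^ s * VV N q s) * N ^ (-a)) := by gcongr
          _ = _ := by ring
      have h5 : 0 ≤ b - a := by linarith
      calc (((PP N q s).filter (fun x => ∀ i, (x i).1 = (x i).2)).card : ℝ) * (b - a)
          ≤ VV N q s * (b - a) := by gcongr
        _ ≤ (2 ^ s * ((VV N q s) ^ 2 * N ^ (-a))) * (b - a) := by gcongr
        _ = ((b - a) * 2 ^ s) * 1 * ((VV N q s) ^ 2 * N ^ (-a)) := by ring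
        _ ≤ _ := by
          gcongr
          linarith
    have hoff : ∀ j : Fin s, ∑ x ∈ PP N q s,
        (if (∀ i < j, (x i).1 = (x i).2) ∧ (x j).1 ≠ (x j).2 then f j (x j) else 0) ≤
        (VV N q s) ^ 2 * (2 ^ s * (16 * (1 + Real.log (2 * N))) * N ^ (-a)) := by
      intro j
      rw [← sum_filter]
      have h1 : (PP N q s).filter (fun x => (∀ i < j, (x i).1 = (x i).2) ∧ (x j).1 ≠ (x j).2) ⊆
          Fintype.piFinset (fun i : Fin s => DD (BB N q) j i) := by
        intro x hx
        rw [mem_filter] at hx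
        obtain ⟨hx0, hx1, hx2⟩ := hx
        unfold PP at hx0
        rw [Fintype.mem_piFinset] at hx0 ⊢
        intro i
        have h3 := mem_product.1 (hx0 i)
        unfold DD
        split_ifs with h4 h5
        · exact mem_diag.2 ⟨h3.1, hx1 i h4⟩
        · have : i = j := Fin.ext h5
          subst this
          exact mem_offDiag.2 ⟨h3.1, h3.2, hx2⟩
        · exact mem_product.2 h3
      have h2 : ∑ x ∈ (PP N q s).filter (fun x => (∀ i < j, (x i).1 = (x i).2) ∧ (x j).1 ≠ (x j).2), f j (x j) ≤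
          ∑ x ∈ Fintype.piFinset (fun i : Fin s => DD (BB N q) j i), f j (x j) :=
        sum_le_sum_of_subset_of_nonneg h1 (fun x _ _ => hf0 _ _)
      refine h2.trans ?_
      have h3 : ∑ x ∈ Fintype.piFinset (fun i : Fin s => DD (BB N q) j i), f j (x j) =
          ∏ i : Fin s, ∑ p ∈ DD (BB N q) j i,
            (if i = j then 4 / (|((p.1 : ℕ) : ℝ) - p.2| * (lev N q j) ^ (a - 1)) else 1) := by
        rw [prod_univ_sum]
        refine sum_congr rfl fun x _ => ?_
        rw [prod_ite_eq' univ j (fun i => 4 / (|(((x i).1 : ℕ) : ℝ) - (x i).2| * (lev N q j) ^ (a - 1))),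
          if_pos (mem_univ j)]
      rw [h3]
      exact prod_bound a q s N ha hq0 hq1 hq2 hN hlev j
    have hoff2 := sum_le_sum (fun j (_ : j ∈ (univ : Finset (Fin s))) => hoff j)
    rw [sum_const, card_univ, Fintype.card_fin, nsmul_eq_mul] at hoff2
    calc _ ≤ ((b - a) * 2 ^ s) * (1 + Real.log (2 * N)) * ((VV N q s) ^ 2 * N ^ (-a)) +
          s * ((VV N q s) ^ 2 * (2 ^ s * (16 * (1 + Real.log (2 * N))) * N ^ (-a))) := add_le_add hdiag hoff2
      _ = _ := by ring
  · intro x _
    simp only [hw]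
    apply add_nonneg
    · split_ifs <;> linarith
    · apply sum_nonneg
      intro j _
      split_ifs
      · exact hf0 _ _
      · exact le_rfl

end Pool.Agent.V7H64.WX
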