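import Pool.Agent.V7H64.WX.Ker
import Pool.Agent.V7H64.WX.AE

set_option autoImplicit false

/-! Lemmas for the last step (helper64). -/

namespace Pool.Agent.V7H64.WX

open Finset MeasureTheory Filter

/-- the factor of the minor arcs -/
lemma minor (c : ℝ) (hc1 : 1 < c) (hcn : ∀ m : ℕ, c ≠ m) :
    ∃ ρ : ℝ, 0 < ρ ∧ ρ ≤ 1 / 4 ∧ ∃ C₁ : ℝ, 1 ≤ C₁ ∧ ∀ X : ℕ, 1 ≤ X → ∀ θ : ℝ, |θ| ≤ X →
      (1 - ga (((X : ℝ) ^ (c - 1 / 2)) ^ 2) θ) * ‖ES c X θ‖ ≤ C₁ * (X : ℝ) ^ (1 - ρ) := by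
  obtain ⟨ρ, hρ, hρδ, _, C, hC, h⟩ := sup_bound c hc1 hcn (1 / 4) (by norm_num) (by norm_num)
  refine ⟨ρ, hρ, hρδ, C + 4, by linarith, fun X hX θ hθ => ?_⟩
  have hX1 : (1 : ℝ) ≤ X := by exact_mod_cast hX
  have hX0 : (0 : ℝ) < X := by linarith
  have hpow : 0 ≤ (X : ℝ) ^ (1 - ρ) := by positivity
  have hg1 : 0 ≤ 1 - ga (((X : ℝ) ^ (c - 1 / 2)) ^ 2) θ := by
    linarith [ga_le_one (show 0 ≤ ((X : ℝ) ^ (c - 1 / 2)) ^ 2 by positivity) θ]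
  have hg2 : 1 - ga (((X : ℝ) ^ (c - 1 / 2)) ^ 2) θ ≤ 1 := by linarith [ga_pos (((X : ℝ) ^ (c - 1 / 2)) ^ 2) θ]
  rcases le_or_gt ((X : ℝ) ^ (-c + 1 / 4)) |θ| with h1 | h1
  · have h2 := h X hX θ h1 hθ
    calc _ ≤ 1 * ‖ES c X θ‖ := by gcongr
      _ ≤ C * (X : ℝ) ^ (1 - ρ) := by rw [one_mul]; exact h2
      _ ≤ _ := by gcongr; linarith
  · have h2 : 1 - ga (((X : ℝ) ^ (c - 1 / 2)) ^ 2) θ ≤ Real.pi * ((X : ℝ) ^ (c - 1 / 2)) ^ 2 * θ ^ 2 := by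
      unfold ga
      have := Real.add_one_le_exp (-(Real.pi * ((X : ℝ) ^ (c - 1 / 2)) ^ 2 * θ ^ 2))
      linarith
    have h3 : θ ^ 2 ≤ ((X : ℝ) ^ (-c + 1 / 4)) ^ 2 := by
      rw [← sq_abs θ]
      exact pow_le_pow_left₀ (abs_nonneg θ) h1.le 2
    have h4 : ((X : ℝ) ^ (c - 1 / 2)) ^ 2 * ((X : ℝ) ^ (-c + 1 / 4)) ^ 2 = (X : ℝ) ^ (-(1 / 2) : ℝ) := by
      rw [← mul_pow, ← Real.rpow_add hX0, ← Real.rpow_natCast, ← Real.rpow_mul hX0.le]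
      congr 1
      push_cast
      ring
    have h5 := ES_norm_le c X θ
    have hpi := Real.pi_pos
    have hpi4 := Real.pi_le_four
    calc (1 - ga (((X : ℝ) ^ (c - 1 / 2)) ^ 2) θ) * ‖ES c X θ‖
        ≤ (Real.pi * ((X : ℝ) ^ (c - 1 / 2)) ^ 2 * ((X : ℝ) ^ (-c + 1 / 4)) ^ 2) * X := by
          refine mul_le_mul (h2.trans ?_) h5 (norm_nonneg _) (by positivity)
          gcongr
      _ = Real.pi * ((X : ℝ) ^ (-(1 / 2) : ℝ) * (X : ℝ) ^ (1 : ℝ)) := by rw [Real.rpow_one, ← h4]; ring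
      _ = Real.pi * (X : ℝ) ^ (1 / 2 : ℝ) := by
          rw [← Real.rpow_add hX0]
          norm_num
      _ ≤ 4 * (X : ℝ) ^ (1 - ρ) := by
          have h6 : (X : ℝ) ^ (1 / 2 : ℝ) ≤ (X : ℝ) ^ (1 - ρ) := Real.rpow_le_rpow_of_exponent_le hX1 (by linarith)
          have h7 : 0 ≤ (X : ℝ) ^ (1 / 2 : ℝ) := by positivity
          exact mul_le_mul hpi4 h6 h7 (by norm_num)
      _ ≤ _ := by gcongr; linarith

/-- pigeonhole for the fractional parts -/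
lemma pigeon (c : ℝ) (s K : ℕ) (hK : 1 ≤ K) (B : Fin s → Finset ℕ) :
    ∃ (t : Fin s → ℕ) (P : Finset (Fin s → ℕ)), P ⊆ Fintype.piFinset B ∧
      ∏ i, ((B i).card : ℝ) ≤ (K : ℝ) ^ s * P.card ∧ (∀ i, t i < K) ∧
      ∀ p ∈ P, ∀ i, ⌊(K : ℝ) * Int.fract ((p i : ℝ) ^ c)⌋₊ = t i := by
  have hK0 : (0 : ℝ) < K := by exact_mod_cast hK
  have h1 : ∀ i, ∃ t < K, ((B i).card : ℝ) / K ≤
      (((B i).filter (fun n : ℕ => ⌊(K : ℝ) * Int.fract ((n : ℝ) ^ c)⌋₊ = t)).card : ℝ) := by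
    intro i
    have h2 := exists_le_card_fiber_of_nsmul_le_card_of_maps_to (s := B i) (t := range K)
      (f := fun n : ℕ => ⌊(K : ℝ) * Int.fract ((n : ℝ) ^ c)⌋₊) (b := ((B i).card : ℝ) / K) (by
        intro n _
        rw [mem_range, Nat.floor_lt (mul_nonneg hK0.le (Int.fract_nonneg _))]
        have := Int.fract_lt_one ((n : ℝ) ^ c)
        nlinarith) ⟨0, mem_range.2 (by omega)⟩ (by
        rw [card_range, nsmul_eq_mul]
        exact le_of_eq (by field_simp))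
    obtain ⟨t, ht, h3⟩ := h2
    exact ⟨t, mem_range.1 ht, h3⟩
  choose t ht h2 using h1
  refine ⟨t, Fintype.piFinset (fun i => (B i).filter (fun n : ℕ => ⌊(K : ℝ) * Int.fract ((n : ℝ) ^ c)⌋₊ = t i)),
    ?_, ?_, ht, ?_⟩
  · intro p hp
    rw [Fintype.mem_piFinset] at hp ⊢
    exact fun i => (mem_filter.1 (hp i)).1
  · rw [Fintype.card_piFinset]
    push_cast
    have h3 : ∏ i, (((B i).card : ℝ) / K) ≤ ∏ i, (((B i).filter
        (fun n : ℕ => ⌊(K : ℝ) * Int.fract ((n : ℝ) ^ c)⌋₊ = t i)).card : ℝ) :=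
      Finset.prod_le_prod (fun i _ => by positivity) (fun i _ => h2 i)
    rw [prod_div_distrib, prod_const, card_univ, Fintype.card_fin, div_le_iff₀ (by positivity)] at h3
    linarith
  · intro p hp i
    rw [Fintype.mem_piFinset] at hp
    exact (mem_filter.1 (hp i)).2

lemma rpow_diff_ge (x y c : ℝ) (hy : 0 < y) (h : y ≤ x) (hc : 1 ≤ c) : (x - y) * y ^ (c - 1) ≤ x ^ c - y ^ c := by
  have hx : 0 < x := by linarith
  have e1 : ∀ t : ℝ, 0 < t → t ^ c = t * t ^ (c - 1) := by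
    intro t ht
    rw [Real.rpow_sub_one ht.ne']
    field_simp
  rw [e1 _ hx, e1 _ hy]
  have h2 : y ^ (c - 1) ≤ x ^ (c - 1) := Real.rpow_le_rpow hy.le h (by linarith)
  calc (x - y) * y ^ (c - 1) = x * y ^ (c - 1) - y * y ^ (c - 1) := by ring
    _ ≤ _ := by gcongr

lemma rpow_diff_le (x y c : ℝ) (hy : 0 < y) (h : y ≤ x) (hc : 1 ≤ c) : x ^ c - y ^ c ≤ c * x ^ (c - 1) * (x - y) := by
  have hx : 0 < x := by linarith
  have h1 := one_add_mul_self_le_rpow_one_add (s := y / x - 1) (by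
    have : 0 < y / x := by positivity
    linarith) hc
  have h2 : 1 + (y / x - 1) = y / x := by ring
  rw [h2, Real.div_rpow hy.le hx.le, le_div_iff₀ (Real.rpow_pos_of_pos hx c)] at h1
  have h3 : (1 + c * (y / x - 1)) * x ^ c = x ^ c - c * x ^ (c - 1) * (x - y) := by
    rw [Real.rpow_sub_one hx.ne']
    field_simp
    ring
  linarith

/-- many `x` with `x ^ c` near `u` -/
lemma count_x (c : ℝ) (hc : 1 ≤ c) (X : ℕ) (hX : 1 ≤ X) (u D : ℝ) (hu1 : (13 / 10 * (X : ℝ)) ^ c ≤ u)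
    (hu2 : u ≤ (17 / 10 * (X : ℝ)) ^ c) (hD : (X : ℝ) ^ (c - 1 / 2) ≤ D)
    (hr1 : 2 ≤ (X : ℝ) ^ (1 / 2 : ℝ) / (c * 2 ^ c)) :
    (X : ℝ) ^ (1 / 2 : ℝ) / (c * 2 ^ c) / 2 ≤
      (((Ioc X (2 * X)).filter (fun x : ℕ => |u - (x : ℝ) ^ c| ≤ D)).card : ℝ) := by
  have hX1 : (1 : ℝ) ≤ X := by exact_mod_cast hX
  have hX0 : (0 : ℝ) < X := by linarith
  have hc0 : 0 < c := by linarith
  set r : ℝ := (X : ℝ) ^ (1 / 2 : ℝ) / (c * 2 ^ c) with hr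
  have hu0 : 0 < u := lt_of_lt_of_le (by positivity) hu1
  set y : ℝ := u ^ (1 / c) with hy
  have hyc : y ^ c = u := by
    rw [hy, ← Real.rpow_mul hu0.le]
    field_simp
    exact Real.rpow_one u
  have hy0 : 0 < y := Real.rpow_pos_of_pos hu0 _
  have hy1 : 13 / 10 * (X : ℝ) ≤ y := by
    rw [← hyc] at hu1
    exact (Real.rpow_le_rpow_iff (by positivity) hy0.le hc0).1 hu1
  have hy2 : y ≤ 17 / 10 * (X : ℝ) := by
    rw [← hyc] at hu2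
    exact (Real.rpow_le_rpow_iff hy0.le (by positivity) hc0).1 hu2
  have h2c : (2 : ℝ) ≤ 2 ^ c := by
    calc (2 : ℝ) = 2 ^ (1 : ℝ) := (Real.rpow_one 2).symm
      _ ≤ _ := Real.rpow_le_rpow_of_exponent_le (by norm_num) hc
  have hr2 : r ≤ 3 / 10 * X := by
    -- from `r ≥ 2` the number `X` is large
    have h1 : (4 : ℝ) ≤ (X : ℝ) ^ (1 / 2 : ℝ) := by
      rw [hr, le_div_iff₀ (by positivity)] at hr1
      nlinarith
    have h2 : (X : ℝ) = (X : ℝ) ^ (1 / 2 : ℝ) * (X : ℝ) ^ (1 / 2 : ℝ) := by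
      rw [← Real.rpow_add hX0]
      norm_num
    have h3 : r ≤ (X : ℝ) ^ (1 / 2 : ℝ) / 2 := by
      rw [hr]
      apply div_le_div_of_nonneg_left (by positivity) (by norm_num)
      nlinarith
    nlinarith
  have hsub : Ioc ⌊y⌋₊ ⌊y + r⌋₊ ⊆ (Ioc X (2 * X)).filter (fun x : ℕ => |u - (x : ℝ) ^ c| ≤ D) := by
    intro x hx
    rw [mem_Ioc, Nat.floor_lt hy0.le, Nat.le_floor_iff (by linarith)] at hx
    rw [mem_filter, mem_Ioc]
    have hxX : (X : ℝ) < x := by linarith [hx.1]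
    have hx2X : (x : ℝ) ≤ 2 * X := by linarith [hx.2]
    refine ⟨⟨by exact_mod_cast hxX, by exact_mod_cast hx2X⟩, ?_⟩
    have h1 := rpow_diff_le x y c hy0 hx.1.le hc
    have h2 : y ^ c ≤ (x : ℝ) ^ c := Real.rpow_le_rpow hy0.le hx.1.le hc0.le
    rw [← hyc, abs_sub_comm, abs_of_nonneg (by linarith)]
    refine h1.trans (le_trans ?_ hD)
    have h3 : (x : ℝ) ^ (c - 1) ≤ (2 * (X : ℝ)) ^ (c - 1) := Real.rpow_le_rpow (by positivity) hx2X (by linarith)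
    have h4 : (x : ℝ) - y ≤ r := by linarith [hx.2]
    have h5 : 0 ≤ (x : ℝ) - y := by linarith [hx.1]
    calc c * (x : ℝ) ^ (c - 1) * (x - y) ≤ c * (2 * (X : ℝ)) ^ (c - 1) * r := by gcongr
      _ = (X : ℝ) ^ (c - 1 / 2) * (2 ^ (c - 1) / 2 ^ c) := by
          rw [hr, Real.mul_rpow (by norm_num) hX0.le, show c - 1 / 2 = (c - 1) + 1 / 2 by ring, Real.rpow_add hX0]
          field_simp
      _ ≤ (X : ℝ) ^ (c - 1 / 2) * 1 := by
          have h6 : (2 : ℝ) ^ (c - 1) / 2 ^ c ≤ 1 := by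
            rw [div_le_one (by positivity)]
            exact Real.rpow_le_rpow_of_exponent_le (by norm_num) (by linarith)
          gcongr
      _ = _ := mul_one _
  have h1 := card_le_card hsub
  rw [Nat.card_Ioc] at h1
  have h2 := Nat.lt_floor_add_one (y + r)
  have h3 := Nat.floor_le hy0.le
  have h4 : ⌊y + r⌋₊ ≤ ((Ioc X (2 * X)).filter (fun x : ℕ => |u - (x : ℝ) ^ c| ≤ D)).card + ⌊y⌋₊ := by omega
  have h5 : ((⌊y + r⌋₊ : ℕ) : ℝ) ≤ (((Ioc X (2 * X)).filter (fun x : ℕ => |u - (x : ℝ) ^ c| ≤ D)).card : ℝ) +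
      ⌊y⌋₊ := by exact_mod_cast h4
  linarith

end Pool.Agent.V7H64.WX
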