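import Pool.Agent.V7H64.WX.FinA

set_option autoImplicit false

/-! The last step for one exponent (helper64). -/

namespace Pool.Agent.V7H64.WX

open Finset MeasureTheory Filter

/-- the width of the kernel -/
noncomputable def wid (c X : ℝ) : ℝ := 1 / (6 * (c + 1) * Real.log X)

lemma ev_ineq (c ρ C₁ K₂ : ℝ) (hc : 1 < c) (hρ : 0 < ρ) (hρ4 : ρ ≤ 1 / 4) (hC₁ : 1 ≤ C₁) (hK₂ : 0 ≤ K₂) :
    ∀ᶠ X : ℝ in atTop, 0 < wid c X ∧
      (X * Real.exp (-(Real.pi * (1 / wid c X) * (1 / 4) ^ 2)) +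
        C₁ * X ^ (1 - ρ) * (K₂ * X ^ (-c + ρ / 2) + Real.exp (-(Real.pi * (1 / wid c X)))) +
        X * (Real.sqrt 2 * Real.exp (-(Real.pi * (wid c X / 2) * X ^ 2)))) / Real.sqrt (wid c X) <
      (X ^ (1 / 2 : ℝ) / (c * 2 ^ c) / 2) * Real.exp (-Real.pi) / Real.sqrt (wid c X + (X ^ (c - 1 / 2)) ^ 2) := by
  set A : ℝ := 6 * (c + 1) with hA
  have hA12 : 12 ≤ A := by rw [hA]; linarith
  set c₁ : ℝ := Real.exp (-Real.pi) / (4 * (c * 2 ^ c)) with hc₁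
  have hc₁0 : 0 < c₁ := by rw [hc₁]; positivity
  set K₅ : ℝ := C₁ * K₂ + C₁ + 3 with hK₅
  have h1 := ev_log (K₅ * A / c₁) 1 (ρ / 2) (by positivity)
  have h2 := ev_log (2 * A * (c + 1)) 0 1 one_pos
  have h3 : ∀ᶠ X : ℝ in atTop, 1 ≤ Real.log X := Real.tendsto_log_atTop.eventually_ge_atTop _
  filter_upwards [h1, h2, h3, eventually_ge_atTop (1 : ℝ)] with X h1 h2 h3 hX
  have hX0 : 0 < X := by linarith
  set l : ℝ := Real.log X with hl
  have hAl : 1 ≤ A * l := by nlinarith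
  have hw : wid c X = 1 / (A * l) := by unfold wid; rw [hA, hl]
  have hw0 : 0 < wid c X := by rw [hw]; positivity
  refine ⟨hw0, ?_⟩
  have hw1 : 1 / wid c X = A * l := by rw [hw, one_div_one_div]
  have hpi3 := Real.pi_gt_three
  have hXc : X ^ (-(c + 1)) = Real.exp (-((c + 1) * l)) := by
    rw [Real.rpow_def_of_pos hX0, hl]
    congr 1
    ring
  have e1 : Real.exp (-(Real.pi * (1 / wid c X) * (1 / 4) ^ 2)) ≤ X ^ (-(c + 1)) := by
    rw [hXc, hw1]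
    apply Real.exp_le_exp.2
    have h4 : (c + 1) * l ≤ 3 * (A * l) * (1 / 4) ^ 2 := by rw [hA]; nlinarith
    have h5 : 3 * (A * l) * (1 / 4) ^ 2 ≤ Real.pi * (A * l) * (1 / 4) ^ 2 := by gcongr
    linarith
  have e2 : Real.exp (-(Real.pi * (1 / wid c X))) ≤ X ^ (-(c + 1)) := by
    rw [hXc, hw1]
    apply Real.exp_le_exp.2
    have h4 : (c + 1) * l ≤ 3 * (A * l) := by rw [hA]; nlinarith
    have h5 : 3 * (A * l) ≤ Real.pi * (A * l) := by gcongr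
    linarith
  have e3 : Real.exp (-(Real.pi * (wid c X / 2) * X ^ 2)) ≤ X ^ (-(c + 1)) := by
    rw [hXc]
    apply Real.exp_le_exp.2
    rw [neg_le_neg_iff, hw]
    rw [Real.rpow_one, add_zero] at h2
    have h4 : (2 * A * (c + 1) * l) * X ≤ X * X := by gcongr
    have h5 : 2 * A * (c + 1) * l * (2 * A * (c + 1) * l) ≤ (2 * A * (c + 1) * l) * X := by gcongr
    have h6 : (c + 1) * l * (2 * (A * l)) ≤ X ^ 2 := by
      have h7 : 1 ≤ 2 * A * (c + 1) := by nlinarith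
      have h8 : 0 ≤ 2 * A * (c + 1) * l * l := by positivity
      nlinarith
    have h7 : Real.pi * (1 / (A * l) / 2) * X ^ 2 = Real.pi * (X ^ 2 / (2 * (A * l))) := by
      field_simp
    rw [h7]
    have h8 : (c + 1) * l ≤ X ^ 2 / (2 * (A * l)) := by
      rw [le_div_iff₀ (by positivity)]
      exact h6
    have h9 : 0 ≤ X ^ 2 / (2 * (A * l)) := by positivity
    nlinarith
  -- powers
  have p1 : X * X ^ (-(c + 1)) = X ^ (-c) := by
    rw [← Real.rpow_one_add' hX0.le (by linarith)]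
    congr 1
    ring
  have p2 : X ^ (-c) ≤ X ^ (1 - c - ρ / 2) := Real.rpow_le_rpow_of_exponent_le hX (by linarith)
  have p3 : X ^ (1 - ρ) * X ^ (-c + ρ / 2) = X ^ (1 - c - ρ / 2) := by
    rw [← Real.rpow_add hX0]
    congr 1
    ring
  have p4 : X ^ (1 - ρ) * X ^ (-(c + 1)) ≤ X ^ (1 - c - ρ / 2) := by
    rw [← Real.rpow_add hX0]
    exact Real.rpow_le_rpow_of_exponent_le hX (by linarith)
  have hs2 : Real.sqrt 2 ≤ 2 := by
    rw [Real.sqrt_le_left (by norm_num)]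
    norm_num
  have hnum : X * Real.exp (-(Real.pi * (1 / wid c X) * (1 / 4) ^ 2)) +
        C₁ * X ^ (1 - ρ) * (K₂ * X ^ (-c + ρ / 2) + Real.exp (-(Real.pi * (1 / wid c X)))) +
        X * (Real.sqrt 2 * Real.exp (-(Real.pi * (wid c X / 2) * X ^ 2))) ≤ K₅ * X ^ (1 - c - ρ / 2) := by
    have t1 : X * Real.exp (-(Real.pi * (1 / wid c X) * (1 / 4) ^ 2)) ≤ X ^ (1 - c - ρ / 2) := by
      calc _ ≤ X * X ^ (-(c + 1)) := by gcongr
        _ = X ^ (-c) := p1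
        _ ≤ _ := p2
    have t2 : C₁ * X ^ (1 - ρ) * (K₂ * X ^ (-c + ρ / 2) + Real.exp (-(Real.pi * (1 / wid c X)))) ≤
        (C₁ * K₂ + C₁) * X ^ (1 - c - ρ / 2) := by
      calc _ ≤ C₁ * X ^ (1 - ρ) * (K₂ * X ^ (-c + ρ / 2) + X ^ (-(c + 1))) := by gcongr
        _ = C₁ * K₂ * (X ^ (1 - ρ) * X ^ (-c + ρ / 2)) + C₁ * (X ^ (1 - ρ) * X ^ (-(c + 1))) := by ring
        _ ≤ C₁ * K₂ * X ^ (1 - c - ρ / 2) + C₁ * X ^ (1 - c - ρ / 2) := by
            rw [p3]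
            gcongr
        _ = _ := by ring
    have t3 : X * (Real.sqrt 2 * Real.exp (-(Real.pi * (wid c X / 2) * X ^ 2))) ≤ 2 * X ^ (1 - c - ρ / 2) := by
      calc _ ≤ X * (2 * X ^ (-(c + 1))) := by gcongr
        _ = 2 * (X * X ^ (-(c + 1))) := by ring
        _ = 2 * X ^ (-c) := by rw [p1]
        _ ≤ _ := by gcongr
    calc _ ≤ X ^ (1 - c - ρ / 2) + (C₁ * K₂ + C₁) * X ^ (1 - c - ρ / 2) + 2 * X ^ (1 - c - ρ / 2) := by linarith
      _ = _ := by rw [hK₅]; ring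
  have hsq : 1 / Real.sqrt (wid c X) ≤ A * l := by
    have h4 : 1 / Real.sqrt (wid c X) = Real.sqrt (A * l) := by
      rw [hw, Real.sqrt_div zero_le_one, Real.sqrt_one, one_div_one_div]
    rw [h4, Real.sqrt_le_left (by linarith)]
    nlinarith
  have hK₅0 : 0 ≤ K₅ := by rw [hK₅]; positivity
  have hlhs : (X * Real.exp (-(Real.pi * (1 / wid c X) * (1 / 4) ^ 2)) +
        C₁ * X ^ (1 - ρ) * (K₂ * X ^ (-c + ρ / 2) + Real.exp (-(Real.pi * (1 / wid c X)))) +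
        X * (Real.sqrt 2 * Real.exp (-(Real.pi * (wid c X / 2) * X ^ 2)))) / Real.sqrt (wid c X) ≤
      K₅ * X ^ (1 - c - ρ / 2) * (A * l) := by
    rw [div_eq_mul_one_div]
    have h0 : 0 ≤ 1 / Real.sqrt (wid c X) := by positivity
    have h00 : 0 ≤ K₅ * X ^ (1 - c - ρ / 2) := by positivity
    exact mul_le_mul hnum hsq h0 h00
  refine lt_of_le_of_lt hlhs ?_
  have hT1 : 1 ≤ X ^ (c - 1 / 2) := Real.one_le_rpow hX (by linarith)
  have hT0 : 0 < X ^ (c - 1 / 2) := by linarith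
  have hwle : wid c X ≤ 1 := by
    rw [hw, div_le_one (by positivity)]
    exact hAl
  have hden : Real.sqrt (wid c X + (X ^ (c - 1 / 2)) ^ 2) ≤ 2 * X ^ (c - 1 / 2) := by
    rw [Real.sqrt_le_left (by positivity)]
    nlinarith
  have hden0 : 0 < Real.sqrt (wid c X + (X ^ (c - 1 / 2)) ^ 2) := Real.sqrt_pos.2 (by positivity)
  have hrhs : c₁ * X ^ (1 - c) ≤
      (X ^ (1 / 2 : ℝ) / (c * 2 ^ c) / 2) * Real.exp (-Real.pi) / Real.sqrt (wid c X + (X ^ (c - 1 / 2)) ^ 2) := by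
    have h4 : X ^ (1 - c) * X ^ (c - 1 / 2) = X ^ (1 / 2 : ℝ) := by
      rw [← Real.rpow_add hX0]
      congr 1
      ring
    rw [le_div_iff₀ hden0]
    calc c₁ * X ^ (1 - c) * Real.sqrt (wid c X + (X ^ (c - 1 / 2)) ^ 2)
        ≤ c₁ * X ^ (1 - c) * (2 * X ^ (c - 1 / 2)) := by gcongr
      _ = 2 * c₁ * (X ^ (1 - c) * X ^ (c - 1 / 2)) := by ring
      _ = _ := by
          rw [h4, hc₁]
          field_simp
          ring
  refine lt_of_lt_of_le ?_ hrhs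
  have h4 : X ^ (1 - c) = X ^ (1 - c - ρ / 2) * X ^ (ρ / 2) := by
    rw [← Real.rpow_add hX0]
    congr 1
    ring
  have h5 : K₅ * A / c₁ * l < X ^ (ρ / 2) := by linarith
  have h6 : 0 < X ^ (1 - c - ρ / 2) := by positivity
  rw [h4]
  have h7 : K₅ * (A * l) < c₁ * X ^ (ρ / 2) := by
    have h8 : K₅ * A / c₁ * l = (K₅ * (A * l)) / c₁ := by ring
    rw [h8, div_lt_iff₀ hc₁0] at h5
    linarith
  calc K₅ * X ^ (1 - c - ρ / 2) * (A * l) = X ^ (1 - c - ρ / 2) * (K₅ * (A * l)) := by ring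
    _ < X ^ (1 - c - ρ / 2) * (c₁ * X ^ (ρ / 2)) := by gcongr
    _ = _ := by ring

/-- the sum of the powers -/
noncomputable def sg (c : ℝ) {s : ℕ} (p : Fin s → ℕ) : ℝ := ∑ i, (p i : ℝ) ^ c

lemma sg_floor (c : ℝ) {s : ℕ} (p : Fin s → ℕ) :
    sg c p = ((∑ i, ⌊(p i : ℝ) ^ c⌋₊ : ℕ) : ℝ) + ∑ i, Int.fract ((p i : ℝ) ^ c) := by
  unfold sg
  push_cast
  rw [← sum_add_distrib]
  refine sum_congr rfl fun i _ => ?_
  have h0 : 0 ≤ (p i : ℝ) ^ c := Real.rpow_nonneg (Nat.cast_nonneg _) _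
  rw [natCast_floor_eq_intCast_floor h0]
  exact (Int.floor_add_fract _).symm

lemma fract_sum (c : ℝ) {s : ℕ} (K : ℕ) (hK : 0 < K) (t : Fin s → ℕ) (p : Fin s → ℕ)
    (hp : ∀ i, ⌊(K : ℝ) * Int.fract ((p i : ℝ) ^ c)⌋₊ = t i) :
    (∑ i, (t i : ℝ)) / K ≤ ∑ i, Int.fract ((p i : ℝ) ^ c) ∧
      ∑ i, Int.fract ((p i : ℝ) ^ c) ≤ (∑ i, (t i : ℝ)) / K + s / K := by
  have hK0 : (0 : ℝ) < K := by exact_mod_cast hK
  have h1 : ∀ i, (t i : ℝ) / K ≤ Int.fract ((p i : ℝ) ^ c) ∧ Int.fract ((p i : ℝ) ^ c) ≤ (t i : ℝ) / K + 1 / K := by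
    intro i
    have h0 : 0 ≤ (K : ℝ) * Int.fract ((p i : ℝ) ^ c) := mul_nonneg hK0.le (Int.fract_nonneg _)
    have h2 := Nat.floor_le h0
    have h3 := Nat.lt_floor_add_one ((K : ℝ) * Int.fract ((p i : ℝ) ^ c))
    rw [hp i] at h2 h3
    constructor
    · rw [div_le_iff₀ hK0]
      linarith
    · rw [← add_div, le_div_iff₀ hK0]
      linarith
  rw [sum_div]
  constructor
  · exact sum_le_sum (fun i _ => (h1 i).1)
  · calc ∑ i, Int.fract ((p i : ℝ) ^ c) ≤ ∑ i : Fin s, ((t i : ℝ) / K + 1 / K) := sum_le_sum (fun i _ => (h1 i).2)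
      _ = _ := by
        rw [sum_add_distrib, sum_const, card_univ, Fintype.card_fin, nsmul_eq_mul]
        ring

/-- the integer parts -/
lemma integral_part (c : ℝ) (s M : ℕ) (hs : 1 ≤ s) (t : Fin s → ℕ) (p p' : Fin s → ℕ) (x : ℕ)
    (hp : ∀ i, ⌊((16 * s : ℕ) : ℝ) * Int.fract ((p i : ℝ) ^ c)⌋₊ = t i)
    (hp' : ∀ i, ⌊((16 * s : ℕ) : ℝ) * Int.fract ((p' i : ℝ) ^ c)⌋₊ = t i)
    (h : |(M + 2 * ((∑ i, (t i : ℝ)) / ((16 * s : ℕ) : ℝ)) + 1 / 2) - sg c p - sg c p' - (x : ℝ) ^ c| < 1 / 4) :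
    ∑ i, ⌊(p i : ℝ) ^ c⌋₊ + ∑ i, ⌊(p' i : ℝ) ^ c⌋₊ + ⌊(x : ℝ) ^ c⌋₊ = M := by
  have h1 := fract_sum c (16 * s) (by omega) t p hp
  have h2 := fract_sum c (16 * s) (by omega) t p' hp'
  have hs0 : (0 : ℝ) < s := by exact_mod_cast hs
  have h3 : (s : ℝ) / ((16 * s : ℕ) : ℝ) = 1 / 16 := by
    push_cast
    field_simp
  rw [h3] at h1 h2
  rw [sg_floor c p, sg_floor c p'] at h
  have h0 : 0 ≤ (x : ℝ) ^ c := Real.rpow_nonneg (Nat.cast_nonneg _) _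
  have h4 : (x : ℝ) ^ c = (⌊(x : ℝ) ^ c⌋₊ : ℝ) + Int.fract ((x : ℝ) ^ c) := by
    rw [natCast_floor_eq_intCast_floor h0]
    exact (Int.floor_add_fract _).symm
  rw [h4] at h
  have h5 := Int.fract_nonneg ((x : ℝ) ^ c)
  have h6 := Int.fract_lt_one ((x : ℝ) ^ c)
  rw [abs_lt] at h
  set F₁ := ∑ i, ⌊(p i : ℝ) ^ c⌋₊ with hF₁
  set F₂ := ∑ i, ⌊(p' i : ℝ) ^ c⌋₊ with hF₂
  set F₃ := ⌊(x : ℝ) ^ c⌋₊ with hF₃
  have h7 : (M : ℝ) < ((F₁ + F₂ + F₃ : ℕ) : ℝ) + 1 := by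
    push_cast
    linarith [h.1, h.2]
  have h8 : ((F₁ + F₂ + F₃ : ℕ) : ℝ) < M + 1 := by
    push_cast
    linarith [h.1, h.2]
  have h9 : M < F₁ + F₂ + F₃ + 1 := by exact_mod_cast h7
  have h10 : F₁ + F₂ + F₃ < M + 1 := by exact_mod_cast h8
  omega

/-- the pairs of tuples in a set `P` with close sums -/
lemma pairs_le (c N q : ℝ) (s : ℕ) (P : Finset (Fin s → ℕ)) (hP : P ⊆ Fintype.piFinset (fun i : Fin s => BB N q i)) :
    ((P ×ˢ P).filter (fun p => |sg c p.1 - sg c p.2| < 1)).card ≤ CN c N q s := by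
  unfold CN
  apply card_le_card_of_injOn (fun (p : (Fin s → ℕ) × (Fin s → ℕ)) => fun i => (p.1 i, p.2 i))
  · intro p hp
    rw [mem_coe, mem_filter, mem_product] at hp
    rw [mem_coe, mem_filter]
    unfold PP
    rw [Fintype.mem_piFinset]
    have h1 := Fintype.mem_piFinset.1 (hP hp.1.1)
    have h2 := Fintype.mem_piFinset.1 (hP hp.1.2)
    refine ⟨fun i => mem_product.2 ⟨h1 i, h2 i⟩, ?_⟩
    have h3 : ∑ i, df ((p.1 i, p.2 i) : ℕ × ℕ) c = sg c p.1 - sg c p.2 := by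
      unfold sg df
      rw [sum_sub_distrib]
    rw [h3]
    exact hp.2
  · intro p _ p' _ he
    have h1 : ∀ i, p.1 i = p'.1 i ∧ p.2 i = p'.2 i := by
      intro i
      have := congrFun he i
      simp only [Prod.mk.injEq] at this
      exact this
    exact Prod.ext (funext fun i => (h1 i).1) (funext fun i => (h1 i).2)

end Pool.Agent.V7H64.WX
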