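import Pool.Agent.V7H64.WX.FinB

set_option autoImplicit false

/-! The last step for one exponent (helper64). -/

namespace Pool.Agent.V7H64.WX

open Finset MeasureTheory Filter

/-- the place of the rest -/
lemma u_range (c : ℝ) (hc : 1 < c) (s M X : ℕ) (hX15 : 15 ≤ X) (hXs : 10 * (2 * s + 1) ≤ X)
    (h1 : (X : ℝ) ≤ 2 / 3 * (M : ℝ) ^ (1 / c)) (h2 : 2 / 3 * (M : ℝ) ^ (1 / c) < X + 1)
    (τ S : ℝ) (hτ0 : 0 ≤ τ) (hτ : τ ≤ 2 * s) (hS0 : 0 ≤ S) (hS : S ≤ (X : ℝ) ^ c / 5) :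
    (13 / 10 * (X : ℝ)) ^ c ≤ M + τ + 1 / 2 - S ∧ M + τ + 1 / 2 - S ≤ (17 / 10 * (X : ℝ)) ^ c := by
  have hX15' : (15 : ℝ) ≤ X := by exact_mod_cast hX15
  have hX0 : (0 : ℝ) < X := by linarith
  have hc0 : 0 < c := by linarith
  have hM : ((M : ℝ) ^ (1 / c)) ^ c = M := by
    rw [← Real.rpow_mul (Nat.cast_nonneg M)]
    rw [one_div_mul_cancel hc0.ne', Real.rpow_one]
  have hM1 : (15 / 10 * (X : ℝ)) ^ c ≤ M := by
    rw [← hM]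
    exact Real.rpow_le_rpow (by positivity) (by linarith) hc0.le
  have hM2 : (M : ℝ) ≤ (16 / 10 * (X : ℝ)) ^ c := by
    calc (M : ℝ) = ((M : ℝ) ^ (1 / c)) ^ c := hM.symm
      _ ≤ _ := Real.rpow_le_rpow (Real.rpow_nonneg (Nat.cast_nonneg M) _) (by linarith) hc0.le
  have e1 := rpow_diff_ge (15 / 10 * (X : ℝ)) (13 / 10 * (X : ℝ)) c (by positivity) (by linarith) hc.le
  have e2 := rpow_diff_ge (17 / 10 * (X : ℝ)) (16 / 10 * (X : ℝ)) c (by positivity) (by linarith) hc.le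
  have e3 : (X : ℝ) ^ (c - 1) ≤ (13 / 10 * (X : ℝ)) ^ (c - 1) :=
    Real.rpow_le_rpow hX0.le (by linarith) (by linarith)
  have e4 : 1 ≤ (16 / 10 * (X : ℝ)) ^ (c - 1) := Real.one_le_rpow (by linarith) (by linarith)
  have e5 : (X : ℝ) ^ c = X * (X : ℝ) ^ (c - 1) := by
    rw [Real.rpow_sub_one hX0.ne']
    field_simp
  have hXs' : (10 : ℝ) * (2 * s + 1) ≤ X := by exact_mod_cast hXs
  constructor
  · have e6 : (X : ℝ) ^ c / 5 ≤ (15 / 10 * (X : ℝ) - 13 / 10 * (X : ℝ)) * (13 / 10 * (X : ℝ)) ^ (c - 1) := by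
      rw [e5]
      calc (X : ℝ) * (X : ℝ) ^ (c - 1) / 5 = (15 / 10 * (X : ℝ) - 13 / 10 * (X : ℝ)) * (X : ℝ) ^ (c - 1) := by ring
        _ ≤ _ := by
          apply mul_le_mul_of_nonneg_left e3
          linarith
    linarith
  · have e6 : (X : ℝ) / 10 ≤ (17 / 10 * (X : ℝ) - 16 / 10 * (X : ℝ)) * (16 / 10 * (X : ℝ)) ^ (c - 1) := by
      calc (X : ℝ) / 10 = (17 / 10 * (X : ℝ) - 16 / 10 * (X : ℝ)) * 1 := by ring
        _ ≤ _ := by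
          apply mul_le_mul_of_nonneg_left e4
          linarith
    linarith

/-- the sum of the powers is small -/
lemma sg_le (c : ℝ) (hc : 1 < c) (s : ℕ) (hs : 1 ≤ s) (X N q : ℝ) (hX : 0 < X) (hN1 : 1 ≤ N)
    (hN : N ≤ 1 / (20 * s) * X) (hq0 : 0 < q) (hq1 : q ≤ 1) (p : Fin s → ℕ) (hp : ∀ i : Fin s, p i ∈ BB N q i) :
    sg c p ≤ X ^ c / 10 := by
  have hs1 : (1 : ℝ) ≤ s := by exact_mod_cast hs
  have hs0 : (0 : ℝ) < s := by linarith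
  have h1 : ∀ i, (p i : ℝ) ^ c ≤ X ^ c / (10 * s) := by
    intro i
    have h2 := (mem_BB hN1 hq0.le).1 (hp i)
    have h3 : lev N q i ≤ N := by
      unfold lev
      calc N ^ (q ^ (i : ℕ)) ≤ N ^ (1 : ℝ) := Real.rpow_le_rpow_of_exponent_le hN1 (pow_le_one₀ hq0.le hq1)
        _ = N := Real.rpow_one N
    have h4 : (p i : ℝ) ≤ (1 / (10 * s)) * X := by
      calc (p i : ℝ) ≤ 2 * lev N q i := h2.2
        _ ≤ 2 * N := by gcongr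
        _ ≤ 2 * (1 / (20 * s) * X) := by gcongr
        _ = _ := by field_simp; ring
    have h5 : (1 / (10 * (s : ℝ))) ^ c ≤ 1 / (10 * s) := by
      calc (1 / (10 * (s : ℝ))) ^ c ≤ (1 / (10 * (s : ℝ))) ^ (1 : ℝ) := by
            apply Real.rpow_le_rpow_of_exponent_ge (by positivity) _ hc.le
            rw [div_le_one (by positivity)]
            linarith
        _ = _ := Real.rpow_one _
    calc (p i : ℝ) ^ c ≤ ((1 / (10 * s)) * X) ^ c := Real.rpow_le_rpow (Nat.cast_nonneg _) h4 (by linarith)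
      _ = (1 / (10 * (s : ℝ))) ^ c * X ^ c := Real.mul_rpow (by positivity) hX.le
      _ ≤ (1 / (10 * s)) * X ^ c := by gcongr
      _ = _ := by ring
  calc sg c p ≤ ∑ _i : Fin s, X ^ c / (10 * s) := sum_le_sum (fun i _ => h1 i)
    _ = _ := by
      rw [sum_const, card_univ, Fintype.card_fin, nsmul_eq_mul]
      field_simp

lemma sg_nonneg (c : ℝ) {s : ℕ} (p : Fin s → ℕ) : 0 ≤ sg c p :=
  sum_nonneg (fun i _ => Real.rpow_nonneg (Nat.cast_nonneg _) _)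

/-- **Representations for one exponent.** -/
theorem fixed (c : ℝ) (hc : 1 < c) (s : ℕ) (hs : 1 ≤ s) (q : ℝ) (hq0 : 0 < q) (hq1 : q ≤ 1) (ρ C₁ : ℝ)
    (hρ : 0 < ρ) (hρ4 : ρ ≤ 1 / 4) (hC₁ : 1 ≤ C₁)
    (hmin : ∀ X : ℕ, 1 ≤ X → ∀ θ : ℝ, |θ| ≤ X →
      (1 - ga (((X : ℝ) ^ (c - 1 / 2)) ^ 2) θ) * ‖ES c X θ‖ ≤ C₁ * (X : ℝ) ^ (1 - ρ))
    (hk : ∀ᶠ k : ℕ in atTop, 0 < VV ((2 : ℝ) ^ k) q s ∧
      (CN c ((2 : ℝ) ^ k) q s : ℝ) ≤ (VV ((2 : ℝ) ^ k) q s) ^ 2 * ((2 : ℝ) ^ k) ^ (-c + ρ / 2)) :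
    ∃ M₀ : ℕ, ∀ M ≥ M₀, ∃ (p p' : Fin s → ℕ) (x : ℕ), (∀ i, 1 ≤ p i) ∧ (∀ i, 1 ≤ p' i) ∧ 1 ≤ x ∧
      ∑ i, ⌊(p i : ℝ) ^ c⌋₊ + ∑ i, ⌊(p' i : ℝ) ^ c⌋₊ + ⌊(x : ℝ) ^ c⌋₊ = M := by
  have hc0 : 0 < c := by linarith
  have hs1 : (1 : ℝ) ≤ s := by exact_mod_cast hs
  have hs0 : (0 : ℝ) < s := by linarith
  obtain ⟨k₀, hk₀⟩ := eventually_atTop.1 hk
  set κ : ℝ := 1 / (20 * s) with hκ
  have hκ0 : 0 < κ := by rw [hκ]; positivity
  set K₂ : ℝ := ((16 * s : ℕ) : ℝ) ^ (2 * s) * (κ / 2) ^ (-c + ρ / 2) with hK₂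
  have hK₂0 : 0 ≤ K₂ := by
    rw [hK₂]
    positivity
  -- the conditions on X
  have hXev : ∀ᶠ X : ℝ in atTop, (0 < wid c X ∧
      (X * Real.exp (-(Real.pi * (1 / wid c X) * (1 / 4) ^ 2)) +
        C₁ * X ^ (1 - ρ) * (K₂ * X ^ (-c + ρ / 2) + Real.exp (-(Real.pi * (1 / wid c X)))) +
        X * (Real.sqrt 2 * Real.exp (-(Real.pi * (wid c X / 2) * X ^ 2)))) / Real.sqrt (wid c X) <
      (X ^ (1 / 2 : ℝ) / (c * 2 ^ c) / 2) * Real.exp (-Real.pi) / Real.sqrt (wid c X + (X ^ (c - 1 / 2)) ^ 2)) ∧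
      2 ≤ X ^ (1 / 2 : ℝ) / (c * 2 ^ c) ∧ 15 ≤ X ∧ 10 * (2 * (s : ℝ) + 1) ≤ X ∧ (2 : ℝ) ^ k₀ ≤ κ * X := by
    have h1 : ∀ᶠ X : ℝ in atTop, 2 * (c * 2 ^ c) ≤ X ^ (1 / 2 : ℝ) :=
      (tendsto_rpow_atTop (by norm_num)).eventually_ge_atTop _
    filter_upwards [ev_ineq c ρ C₁ K₂ hc hρ hρ4 hC₁ hK₂0, h1, eventually_ge_atTop (15 : ℝ),
      eventually_ge_atTop (10 * (2 * (s : ℝ) + 1)), eventually_ge_atTop ((2 : ℝ) ^ k₀ / κ)] with X e1 e2 e3 e4 e5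
    refine ⟨e1, ?_, e3, e4, ?_⟩
    · rw [le_div_iff₀ (by positivity)]
      exact e2
    · rw [div_le_iff₀ hκ0] at e5
      linarith
  have hXt : Tendsto (fun M : ℕ => ((⌊2 / 3 * (M : ℝ) ^ (1 / c)⌋₊ : ℕ) : ℝ)) atTop atTop := by
    have h1 : Tendsto (fun M : ℕ => 2 / 3 * (M : ℝ) ^ (1 / c)) atTop atTop :=
      ((tendsto_rpow_atTop (show 0 < 1 / c by positivity)).comp tendsto_natCast_atTop_atTop).const_mul_atTop (by norm_num)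
    exact tendsto_natCast_atTop_atTop.comp (tendsto_nat_floor_atTop.comp h1)
  obtain ⟨M₀, hM₀⟩ := eventually_atTop.1 (hXt.eventually hXev)
  refine ⟨M₀, fun M hM => ?_⟩
  set X : ℕ := ⌊2 / 3 * (M : ℝ) ^ (1 / c)⌋₊ with hX
  obtain ⟨⟨hw0, hineq⟩, hr, hX15, hXs, hXk⟩ := hM₀ M hM
  rw [← hX] at hw0 hineq hr hX15 hXs hXk
  have hX15' : 15 ≤ X := by exact_mod_cast hX15
  have hXs' : 10 * (2 * s + 1) ≤ X := by exact_mod_cast hXs
  have hX1 : 1 ≤ X := by omega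
  have hX0 : (0 : ℝ) < X := by linarith
  -- the power of two
  set k : ℕ := Nat.log 2 ⌊κ * X⌋₊ with hkdef
  have hκX : (1 : ℝ) ≤ κ * X := le_trans (one_le_pow₀ (by norm_num)) hXk
  have hfl : ⌊κ * (X : ℝ)⌋₊ ≠ 0 := by
    have := (Nat.le_floor_iff (by linarith : (0 : ℝ) ≤ κ * X)).2 (show ((1 : ℕ) : ℝ) ≤ κ * X by exact_mod_cast hκX)
    omega
  have hkk : k₀ ≤ k := by
    rw [hkdef]
    apply Nat.le_log_of_pow_le (by norm_num)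
    rw [Nat.le_floor_iff (by linarith)]
    exact_mod_cast hXk
  set N : ℝ := (2 : ℝ) ^ k with hN
  have hN1 : 1 ≤ N := one_le_pow₀ (by norm_num)
  have hN2 : N ≤ κ * X := by
    have h1 : 2 ^ k ≤ ⌊κ * (X : ℝ)⌋₊ := Nat.pow_log_le_self 2 hfl
    have h2 : ((2 ^ k : ℕ) : ℝ) ≤ ⌊κ * (X : ℝ)⌋₊ := by exact_mod_cast h1
    have h3 := Nat.floor_le (show 0 ≤ κ * (X : ℝ) by linarith)
    push_cast at h2
    rw [hN]
    linarith
  have hN3 : κ * X / 2 ≤ N := by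
    have h1 : ⌊κ * (X : ℝ)⌋₊ < 2 ^ (k + 1) := Nat.lt_pow_succ_log_self (by norm_num) _
    have h2 : ((⌊κ * (X : ℝ)⌋₊ : ℕ) : ℝ) + 1 ≤ ((2 ^ (k + 1) : ℕ) : ℝ) := by exact_mod_cast h1
    have h3 := Nat.lt_floor_add_one (κ * (X : ℝ))
    push_cast at h2
    rw [pow_succ] at h2
    rw [hN]
    linarith
  obtain ⟨hV, hCN⟩ := hk₀ k hkk
  rw [← hN] at hV hCN
  -- the tuples
  obtain ⟨t, P, hPsub, hPcard, ht, hPt⟩ := pigeon c s (16 * s) (by omega) (fun i : Fin s => BB N q i)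
  have hVP : VV N q s ≤ ((16 * s : ℕ) : ℝ) ^ s * P.card := hPcard
  have hP : P.Nonempty := by
    rw [nonempty_iff_ne_empty]
    intro h
    rw [h] at hVP
    simp at hVP
    linarith
  by_contra hcon
  have hmem : ∀ p ∈ P, ∀ i : Fin s, p i ∈ BB N q i := fun p hp => Fintype.mem_piFinset.1 (hPsub hp)
  have hone : ∀ p ∈ P, ∀ i : Fin s, 1 ≤ p i := by
    intro p hp i
    have h1 := ((mem_BB hN1 hq0.le).1 (hmem p hp i)).1
    have h2 := one_le_lev hN1 hq0.le i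
    have h3 : (1 : ℝ) ≤ p i := by linarith
    exact_mod_cast h3
  set τ : ℝ := 2 * ((∑ i, (t i : ℝ)) / ((16 * s : ℕ) : ℝ)) with hτ
  have hτ0 : 0 ≤ τ := by rw [hτ]; positivity
  have hτ1 : τ ≤ 2 * s := by
    rw [hτ]
    have h1 : ∑ i, (t i : ℝ) ≤ ∑ _i : Fin s, ((16 * s : ℕ) : ℝ) := by
      apply sum_le_sum
      intro i _
      exact_mod_cast (ht i).le
    rw [sum_const, card_univ, Fintype.card_fin, nsmul_eq_mul] at h1
    have h2 : (∑ i, (t i : ℝ)) / ((16 * s : ℕ) : ℝ) ≤ s := by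
      rw [div_le_iff₀ (by push_cast; positivity)]
      exact h1
    linarith
  have hrange : ∀ p ∈ P, ∀ p' ∈ P, (13 / 10 * (X : ℝ)) ^ c ≤ (M + τ + 1 / 2) - sg c p - sg c p' ∧
      (M + τ + 1 / 2) - sg c p - sg c p' ≤ (17 / 10 * (X : ℝ)) ^ c := by
    intro p hp p' hp'
    have h1 := sg_le c hc s hs X N q hX0 hN1 (by rw [← hκ]; exact hN2) hq0 hq1 p (hmem p hp)
    have h2 := sg_le c hc s hs X N q hX0 hN1 (by rw [← hκ]; exact hN2) hq0 hq1 p' (hmem p' hp')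
    have h3 := sg_nonneg c p
    have h4 := sg_nonneg c p'
    have h5 := u_range c hc s M X hX15' hXs' (Nat.floor_le (by positivity)) (Nat.lt_floor_add_one _) τ
      (sg c p + sg c p') hτ0 hτ1 (by linarith) (by linarith)
    rw [sub_sub]
    exact h5
  have hker := kernel P hP (sg c) c (M + τ + 1 / 2) X (wid c X) ((X : ℝ) ^ (c - 1 / 2)) (C₁ * (X : ℝ) ^ (1 - ρ))
    (K₂ * (X : ℝ) ^ (-c + ρ / 2)) (1 / 4) ((X : ℝ) ^ (1 / 2 : ℝ) / (c * 2 ^ c) / 2) hw0 (by positivity)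
    (by norm_num) (hmin X hX1) ?_ ?_ ?_
  · linarith
  · -- the pairs
    have h1 := pairs_le c N q s P hPsub
    have h1' : ((((P ×ˢ P).filter (fun p => |sg c p.1 - sg c p.2| < 1)).card : ℕ) : ℝ) ≤ CN c N q s := by
      exact_mod_cast h1
    have h2 : N ^ (-c + ρ / 2) ≤ (κ / 2) ^ (-c + ρ / 2) * (X : ℝ) ^ (-c + ρ / 2) := by
      rw [← Real.mul_rpow (by positivity) hX0.le]
      apply Real.rpow_le_rpow_of_nonpos (by positivity) _ (by linarith)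
      calc κ / 2 * (X : ℝ) = κ * X / 2 := by ring
        _ ≤ N := hN3
    have h3 : (VV N q s) ^ 2 ≤ ((16 * s : ℕ) : ℝ) ^ (2 * s) * (P.card : ℝ) ^ 2 := by
      calc (VV N q s) ^ 2 ≤ (((16 * s : ℕ) : ℝ) ^ s * P.card) ^ 2 := by gcongr
        _ = _ := by rw [mul_pow, ← pow_mul, mul_comm s 2]
    have h4 : 0 < N ^ (-c + ρ / 2) := Real.rpow_pos_of_pos (by linarith) _
    calc ((((P ×ˢ P).filter (fun p => |sg c p.1 - sg c p.2| < 1)).card : ℕ) : ℝ) ≤ CN c N q s := h1'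
      _ ≤ (VV N q s) ^ 2 * N ^ (-c + ρ / 2) := hCN
      _ ≤ (((16 * s : ℕ) : ℝ) ^ (2 * s) * (P.card : ℝ) ^ 2) * ((κ / 2) ^ (-c + ρ / 2) * (X : ℝ) ^ (-c + ρ / 2)) := by
          gcongr
      _ = _ := by rw [hK₂]; ring
  · intro p hp p' hp'
    obtain ⟨h1, h2⟩ := hrange p hp p' hp'
    refine count_x c hc.le X hX1 _ _ h1 h2 ?_ hr
    have hT0 : 0 ≤ (X : ℝ) ^ (c - 1 / 2) := by positivity
    exact Real.le_sqrt_of_sq_le (by linarith)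
  · intro p hp p' hp' x hx
    by_contra hlt
    rw [not_le] at hlt
    apply hcon
    refine ⟨p, p', x, hone p hp, hone p' hp', ?_, ?_⟩
    · rw [mem_Ioc] at hx
      omega
    · exact integral_part c s M hs t p p' x (hPt p hp) (hPt p' hp') hlt

end Pool.Agent.V7H64.WX
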