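import Pool.Agent.V7H64.WX.FinC

set_option autoImplicit false

/-! Choice of the parameters (helper64). -/

namespace Pool.Agent.V7H64.WX

open Finset MeasureTheory Filter

/-- from the bound with `a` to the bound with `c` -/
lemma convert {a b q : ℝ} {s : ℕ} (h : Cond a b q s) (c ρ : ℝ) (hρ : 0 < ρ) (hc : c ∈ Set.Icc a b)
    (hab : b - a ≤ ρ / 4)
    (hev : ∀ᶠ k : ℕ in atTop, (CN c ((2 : ℝ) ^ k) q s : ℝ) ≤
      ((k : ℝ) + 2) ^ 3 * ((VV ((2 : ℝ) ^ k) q s) ^ 2 * ((2 : ℝ) ^ k) ^ (-a))) :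
    ∀ᶠ k : ℕ in atTop, 0 < VV ((2 : ℝ) ^ k) q s ∧
      (CN c ((2 : ℝ) ^ k) q s : ℝ) ≤ (VV ((2 : ℝ) ^ k) q s) ^ 2 * ((2 : ℝ) ^ k) ^ (-c + ρ / 2) := by
  have ht : Tendsto (fun k : ℕ => (2 : ℝ) ^ k) atTop atTop :=
    tendsto_pow_atTop_atTop_of_one_lt (show (1 : ℝ) < 2 by norm_num)
  have hlarge := ht.eventually (ev_large h)
  have hlog := ht.eventually (ev_log 2 2 (ρ / 12) (by positivity))
  filter_upwards [hev, hlarge, hlog] with k h1 hL h2
  set N : ℝ := (2 : ℝ) ^ k with hN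
  have hN1 : 1 ≤ N := hL.one
  have hN0 : 0 < N := by linarith
  have hVpos : 0 < VV N q s := by
    unfold VV
    apply prod_pos
    intro i _
    have h1 := card_BB_ge (hL.lev h.hq0 h.hq1 i.2.le)
    have h2 := one_le_lev hL.one h.hq0.le i
    linarith
  refine ⟨hVpos, h1.trans ?_⟩
  have h3 : (k : ℝ) + 2 ≤ N ^ (ρ / 12) := by
    refine le_trans ?_ h2
    have h4 : Real.log N = k * Real.log 2 := by rw [hN, Real.log_pow]
    have h5 := Real.log_two_gt_d9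
    have h6 : (k : ℝ) * (1 / 2) ≤ k * Real.log 2 := by
      apply mul_le_mul_of_nonneg_left _ (Nat.cast_nonneg k)
      linarith
    rw [h4]
    linarith
  have h4 : ((k : ℝ) + 2) ^ 3 ≤ N ^ (ρ / 4) := by
    calc ((k : ℝ) + 2) ^ 3 ≤ (N ^ (ρ / 12)) ^ 3 := by gcongr
      _ = N ^ (ρ / 4) := by
        rw [← Real.rpow_natCast, ← Real.rpow_mul hN0.le]
        congr 1
        push_cast
        ring
  have hna : 0 < N ^ (-a) := Real.rpow_pos_of_pos hN0 _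
  calc ((k : ℝ) + 2) ^ 3 * ((VV N q s) ^ 2 * N ^ (-a)) ≤ N ^ (ρ / 4) * ((VV N q s) ^ 2 * N ^ (-a)) := by gcongr
    _ = (VV N q s) ^ 2 * (N ^ (ρ / 4) * N ^ (-a)) := by ring
    _ = (VV N q s) ^ 2 * N ^ (ρ / 4 + -a) := by rw [Real.rpow_add hN0]
    _ ≤ _ := by
      apply mul_le_mul_of_nonneg_left _ (by positivity)
      exact Real.rpow_le_rpow_of_exponent_le hN1 (by linarith [hc.2])

/-- the choice of the parameters -/
lemma choice (c : ℝ) (hc : 1 < c) (s : ℕ) (ρ : ℝ) (hρ : 0 < ρ)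
    (hs : c < ∑ i ∈ range s, (Real.sqrt (1 - 1 / c)) ^ i) :
    ∃ a b q : ℚ, Cond a b q s ∧ c ∈ Set.Icc (a : ℝ) b ∧ (b : ℝ) - a ≤ ρ / 4 := by
  have hc0 : 0 < c := by linarith
  have hd0 : 0 < 1 - 1 / c := by
    have : 1 / c < 1 := by rw [div_lt_one hc0]; exact hc
    linarith
  have hd1 : 1 - 1 / c < 1 := by
    have : 0 < 1 / c := by positivity
    linarith
  set Q : ℝ := Real.sqrt (1 - 1 / c) with hQ
  have hQ2 : Q ^ 2 = 1 - 1 / c := Real.sq_sqrt hd0.le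
  have hQ0 : 0 < Q := Real.sqrt_pos.2 hd0
  have hQ1 : Q < 1 := by
    rw [hQ, Real.sqrt_lt' one_pos]
    linarith
  have hQd : 1 - 1 / c < Q := by rw [← hQ2]; nlinarith
  have hcont : Continuous (fun x : ℝ => ∑ i ∈ range s, x ^ i) := by fun_prop
  have hev : ∀ᶠ x in nhds Q, c < ∑ i ∈ range s, x ^ i :=
    hcont.continuousAt.eventually (lt_mem_nhds hs)
  obtain ⟨ε, hε, hball⟩ := Metric.eventually_nhds_iff.1 hev
  obtain ⟨q, hq1, hq2⟩ := exists_rat_btwn (show max (Q - ε) (1 - 1 / c) < Q from max_lt (by linarith) hQd)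
  have hqε : Q - ε < q := lt_of_le_of_lt (le_max_left _ _) hq1
  have hqd : 1 - 1 / c < (q : ℝ) := lt_of_le_of_lt (le_max_right _ _) hq1
  have hq0 : (0 : ℝ) < q := by linarith
  have hqs : c < ∑ i ∈ range s, (q : ℝ) ^ i := by
    apply hball
    rw [Real.dist_eq, abs_lt]
    constructor <;> linarith
  have hq2' : 0 < 1 - (q : ℝ) ^ 2 := by nlinarith
  have hk : 1 / (1 - (q : ℝ) ^ 2) < c := by
    rw [div_lt_iff₀ hq2']
    have h1 : (q : ℝ) ^ 2 < 1 - 1 / c := by rw [← hQ2]; nlinarith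
    have h2 : c * (1 / c) < c * (1 - (q : ℝ) ^ 2) := by
      apply mul_lt_mul_of_pos_left _ hc0
      linarith
    rw [mul_one_div_cancel hc0.ne'] at h2
    exact h2
  obtain ⟨a, ha1, ha2⟩ := exists_rat_btwn (show max (max 1 (1 / (1 - (q : ℝ) ^ 2))) (c - ρ / 8) < c from
    max_lt (max_lt hc hk) (by linarith))
  obtain ⟨b, hb1, hb2⟩ := exists_rat_btwn (show c < c + ρ / 8 by linarith)
  have ha3 : 1 < (a : ℝ) := lt_of_le_of_lt ((le_max_left _ _).trans (le_max_left _ _)) ha1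
  have ha4 : 1 / (1 - (q : ℝ) ^ 2) < (a : ℝ) := lt_of_le_of_lt ((le_max_right _ _).trans (le_max_left _ _)) ha1
  have ha5 : c - ρ / 8 < (a : ℝ) := lt_of_le_of_lt (le_max_right _ _) ha1
  refine ⟨a, b, q, ⟨ha3, by linarith, hq0, by linarith, ?_, ?_, by linarith⟩, ⟨ha2.le, hb1.le⟩, by linarith⟩
  · rw [div_lt_iff₀ hq2'] at ha4
    linarith
  · have h1 : c * (1 - (q : ℝ)) ≤ 1 := by
      have h2 : c * (1 - (q : ℝ)) ≤ c * (1 / c) := by
        apply mul_le_mul_of_nonneg_left _ hc0.le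
        linarith
      rwa [mul_one_div_cancel hc0.ne'] at h2
    have h2 : (a : ℝ) * (1 - q) ≤ c * (1 - q) := by
      apply mul_le_mul_of_nonneg_right ha2.le
      linarith
    linarith

/-- the sum of the levels -/
lemma levels (c : ℝ) (hc : 1 < c) (s : ℕ)
    (h : (Real.sqrt (1 - 1 / c)) ^ s + (Real.sqrt (1 - 1 / c)) ^ (s + 1) < 1) :
    c < ∑ i ∈ range (s + 1), (Real.sqrt (1 - 1 / c)) ^ i := by
  have hc0 : 0 < c := by linarith
  have hd0 : 0 < 1 - 1 / c := by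
    have : 1 / c < 1 := by rw [div_lt_one hc0]; exact hc
    linarith
  set Q : ℝ := Real.sqrt (1 - 1 / c) with hQ
  have hQ2 : Q ^ 2 = 1 - 1 / c := Real.sq_sqrt hd0.le
  have hQ0 : 0 < Q := Real.sqrt_pos.2 hd0
  have hc1 : 0 < 1 / c := by positivity
  have hQ1 : Q < 1 := by
    rw [hQ, Real.sqrt_lt' one_pos]
    linarith
  have h1 : c * ((1 - Q) * (1 + Q)) = 1 := by
    have : (1 - Q) * (1 + Q) = 1 / c := by
      have : (1 - Q) * (1 + Q) = 1 - Q ^ 2 := by ring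
      rw [this, hQ2]
      ring
    rw [this, mul_one_div_cancel hc0.ne']
  have h2 : (∑ i ∈ range (s + 1), Q ^ i) * (1 - Q) = 1 - Q ^ (s + 1) := by
    have := geom_sum_mul_neg Q (s + 1)
    linarith
  have h3 : 1 < (1 - Q ^ (s + 1)) * (1 + Q) := by
    have h4 : (1 - Q ^ (s + 1)) * (1 + Q) = 1 + Q * (1 - (Q ^ s + Q ^ (s + 1))) := by ring
    rw [h4]
    nlinarith
  rw [← h2] at h3
  have h4 : c * ((1 - Q) * (1 + Q)) < (∑ i ∈ range (s + 1), Q ^ i) * ((1 - Q) * (1 + Q)) := by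
    rw [h1]
    linarith
  exact lt_of_mul_lt_mul_right h4 (by nlinarith)

/-- `k` numbers `⌊n ^ c⌋` suffice for all large integers -/
def Suffices (c : ℝ) (k : ℕ) : Prop :=
  ∃ M₀ : ℕ, ∀ M ≥ M₀, ∃ n : Fin k → ℕ, (∀ i, 1 ≤ n i) ∧ ∑ i, ⌊(n i : ℝ) ^ c⌋₊ = M

lemma Suffices.succ {c : ℝ} {k : ℕ} (h : Suffices c k) : Suffices c (k + 1) := by
  obtain ⟨M₀, hM₀⟩ := h
  refine ⟨M₀ + 1, fun M hM => ?_⟩
  obtain ⟨n, hn, hs⟩ := hM₀ (M - 1) (by omega)
  refine ⟨Fin.cons 1 n, ?_, ?_⟩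
  · intro i
    refine Fin.cases ?_ (fun j => ?_) i
    · simp
    · simpa using hn j
  · rw [Fin.sum_univ_succ]
    simp only [Fin.cons_zero, Fin.cons_succ]
    rw [hs]
    simp
    omega

lemma Suffices.mono {c : ℝ} {k l : ℕ} (h : Suffices c k) (hkl : k ≤ l) : Suffices c l := by
  induction l, hkl using Nat.le_induction with
  | base => exact h
  | succ l _ ih => exact ih.succ

/-- **Almost all exponents.** -/
theorem almost_all : ∀ᵐ c : ℝ, 1 < c → ∀ s : ℕ,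
    (Real.sqrt (1 - 1 / c)) ^ s + (Real.sqrt (1 - 1 / c)) ^ (s + 1) < 1 → Suffices c (2 * s + 3) := by
  filter_upwards [ae_all] with c hc hc1 s hs
  obtain ⟨hcn, hall⟩ := hc
  have hlev := levels c hc1 s hs
  obtain ⟨ρ, hρ, hρ4, C₁, hC₁, hmin⟩ := minor c hc1 hcn
  obtain ⟨a, b, q, hcond, hcab, hab⟩ := choice c hc1 (s + 1) ρ hρ hlev
  have h1 := hall a b q (s + 1) hcond hcab
  have h2 := convert hcond c ρ hρ hcab hab h1
  obtain ⟨M₀, hM₀⟩ := fixed c hc1 (s + 1) (by omega) q hcond.hq0 hcond.hq1.le ρ C₁ hρ hρ4 hC₁ hmin h2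
  refine ⟨M₀, fun M hM => ?_⟩
  obtain ⟨p, p', x, hp, hp', hx, hsum⟩ := hM₀ M hM
  refine ⟨fun i => Fin.append (Fin.append p p') (fun _ : Fin 1 => x) (Fin.cast (by ring) i), ?_, ?_⟩
  · intro i
    have h3 : ∀ i : Fin (((s + 1) + (s + 1)) + 1), 1 ≤ Fin.append (Fin.append p p') (fun _ : Fin 1 => x) i := by
      intro i
      refine Fin.addCases (fun j => ?_) (fun j => ?_) i
      · rw [Fin.append_left]
        refine Fin.addCases (fun l => ?_) (fun l => ?_) j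
        · rw [Fin.append_left]
          exact hp l
        · rw [Fin.append_right]
          exact hp' l
      · rw [Fin.append_right]
        exact hx
    exact h3 _
  · have h3 : ∑ i : Fin (2 * s + 3), ⌊((Fin.append (Fin.append p p') (fun _ : Fin 1 => x)
        (Fin.cast (by ring : 2 * s + 3 = ((s + 1) + (s + 1)) + 1) i) : ℕ) : ℝ) ^ c⌋₊ =
        ∑ i : Fin (((s + 1) + (s + 1)) + 1), ⌊((Fin.append (Fin.append p p') (fun _ : Fin 1 => x) i : ℕ) : ℝ) ^ c⌋₊ :=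
      Equiv.sum_comp (finCongr (by ring : 2 * s + 3 = ((s + 1) + (s + 1)) + 1))
        (fun i => ⌊((Fin.append (Fin.append p p') (fun _ : Fin 1 => x) i : ℕ) : ℝ) ^ c⌋₊)
    rw [h3, Fin.sum_univ_add, Fin.sum_univ_add]
    simp only [Fin.append_left, Fin.append_right, Fin.sum_univ_one]
    exact hsum

/-- the lower bound by counting -/
lemma Suffices.lower {c : ℝ} (hc : 0 < c) {k : ℕ} (h : Suffices c k) : c ≤ k := by
  obtain ⟨M₀, hM₀⟩ := h
  by_contra hlt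
  rw [not_le] at hlt
  have hk : (k : ℝ) / c < 1 := by rw [div_lt_one hc]; exact hlt
  -- the number of the sums
  have h1 : ∀ Y : ℕ, M₀ ≤ Y → (Y : ℝ) + 1 - M₀ ≤ ((Y : ℝ) + 1) ^ ((k : ℝ) / c) := by
    intro Y hY
    set L : ℕ := ⌊((Y : ℝ) + 1) ^ (1 / c)⌋₊ with hL
    have h2 : Icc M₀ Y ⊆ (Fintype.piFinset (fun _ : Fin k => Icc 1 L)).image (fun n => ∑ i, ⌊(n i : ℝ) ^ c⌋₊) := by
      intro M hM
      rw [mem_Icc] at hM
      obtain ⟨n, hn, hs⟩ := hM₀ M hM.1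
      rw [mem_image]
      refine ⟨n, ?_, hs⟩
      rw [Fintype.mem_piFinset]
      intro i
      rw [mem_Icc]
      refine ⟨hn i, ?_⟩
      rw [hL, Nat.le_floor_iff (by positivity)]
      have h3 : ⌊(n i : ℝ) ^ c⌋₊ ≤ Y := by
        calc ⌊(n i : ℝ) ^ c⌋₊ ≤ ∑ i, ⌊(n i : ℝ) ^ c⌋₊ :=
              single_le_sum (f := fun i => ⌊(n i : ℝ) ^ c⌋₊) (fun i _ => Nat.zero_le _) (mem_univ i)
          _ ≤ Y := by rw [hs]; exact hM.2
      have h4 := Nat.lt_floor_add_one ((n i : ℝ) ^ c)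
      have h5 : (n i : ℝ) ^ c ≤ (Y : ℝ) + 1 := by
        have : ((⌊(n i : ℝ) ^ c⌋₊ : ℕ) : ℝ) ≤ Y := by exact_mod_cast h3
        linarith
      calc (n i : ℝ) = ((n i : ℝ) ^ c) ^ (1 / c) := by
            rw [← Real.rpow_mul (Nat.cast_nonneg _), mul_one_div_cancel hc.ne', Real.rpow_one]
        _ ≤ _ := Real.rpow_le_rpow (by positivity) h5 (by positivity)
    have h3 := (card_le_card h2).trans card_image_le
    rw [Nat.card_Icc, Fintype.card_piFinset, prod_const, card_univ, Fintype.card_fin, Nat.card_Icc,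
      Nat.add_sub_cancel] at h3
    have h4 : ((Y + 1 - M₀ : ℕ) : ℝ) ≤ ((L ^ k : ℕ) : ℝ) := by exact_mod_cast h3
    rw [Nat.cast_sub (by omega)] at h4
    push_cast at h4
    have h5 : (L : ℝ) ≤ ((Y : ℝ) + 1) ^ (1 / c) := Nat.floor_le (by positivity)
    calc (Y : ℝ) + 1 - M₀ ≤ (L : ℝ) ^ k := h4
      _ ≤ (((Y : ℝ) + 1) ^ (1 / c)) ^ k := by gcongr
      _ = _ := by
        rw [← Real.rpow_natCast, ← Real.rpow_mul (by positivity)]
        congr 1
        ring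
  have h2 : ∀ᶠ y : ℝ in atTop, (2 : ℝ) ≤ y ^ (1 - (k : ℝ) / c) :=
    (tendsto_rpow_atTop (by linarith)).eventually_ge_atTop _
  obtain ⟨y, hy⟩ := eventually_atTop.1 h2
  obtain ⟨Y, hY⟩ := exists_nat_ge (max y (2 * M₀))
  have hY1 : y ≤ Y := (le_max_left _ _).trans hY
  have hY2 : 2 * (M₀ : ℝ) ≤ Y := (le_max_right _ _).trans hY
  have h3 := h1 Y (by
    have : (M₀ : ℝ) ≤ Y := by
      have : (0 : ℝ) ≤ M₀ := Nat.cast_nonneg _
      linarith
    exact_mod_cast this)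
  have h4 := hy ((Y : ℝ) + 1) (by linarith)
  have hYp : (0 : ℝ) < (Y : ℝ) + 1 := by positivity
  have h5 : ((Y : ℝ) + 1) ^ (1 - (k : ℝ) / c) * ((Y : ℝ) + 1) ^ ((k : ℝ) / c) = (Y : ℝ) + 1 := by
    rw [← Real.rpow_add hYp]
    simp
  have h6 : 0 < ((Y : ℝ) + 1) ^ ((k : ℝ) / c) := by positivity
  nlinarith

/-- the number of the levels -/
lemma levels_log (c : ℝ) (hc : 1 < c) (s : ℕ) (hs : 2 * c * Real.log 2 < s) :
    (Real.sqrt (1 - 1 / c)) ^ s + (Real.sqrt (1 - 1 / c)) ^ (s + 1) < 1 := by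
  have hc0 : 0 < c := by linarith
  have hd0 : 0 < 1 - 1 / c := by
    have : 1 / c < 1 := by rw [div_lt_one hc0]; exact hc
    linarith
  set Q : ℝ := Real.sqrt (1 - 1 / c) with hQ
  have hQ0 : 0 < Q := Real.sqrt_pos.2 hd0
  have hc1 : 0 < 1 / c := by positivity
  have hQ1 : Q < 1 := by
    rw [hQ, Real.sqrt_lt' one_pos]
    linarith
  have h1 : Q ≤ Real.exp (-(1 / (2 * c))) := by
    rw [hQ, Real.sqrt_le_left (by positivity), ← Real.exp_nat_mul]
    have h2 := Real.add_one_le_exp (-(1 / c))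
    have h3 : ((2 : ℕ) : ℝ) * -(1 / (2 * c)) = -(1 / c) := by
      push_cast
      field_simp
    rw [h3]
    linarith
  have h2 : Q ^ s < 1 / 2 := by
    calc Q ^ s ≤ (Real.exp (-(1 / (2 * c)))) ^ s := by gcongr
      _ = Real.exp (-(s / (2 * c))) := by
        rw [← Real.exp_nat_mul]
        congr 1
        ring
      _ < Real.exp (-Real.log 2) := by
        apply Real.exp_lt_exp.2
        rw [neg_lt_neg_iff, lt_div_iff₀ (by positivity)]
        linarith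
      _ = 1 / 2 := by
        rw [Real.exp_neg, Real.exp_log (by norm_num)]
        norm_num
  have h3 : Q ^ (s + 1) ≤ Q ^ s := pow_le_pow_of_le_one hQ0.le hQ1.le (by omega)
  linarith

end Pool.Agent.V7H64.WX
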