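import Pool.Agent.V7H64.WX.Sup

set_option autoImplicit false

/-! Gaussian kernels (helper64). -/

namespace Pool.Agent.V7H64.WX

open MeasureTheory
open Pool.Agent.H469R2.NK (e norm_e e_add conj_e)

lemma continuous_e : Continuous e := by
  unfold e
  fun_prop

/-- the Gaussian `exp (- π b θ ^ 2)` -/
noncomputable def ga (b θ : ℝ) : ℝ := Real.exp (-(Real.pi * b * θ ^ 2))

lemma ga_pos (b θ : ℝ) : 0 < ga b θ := Real.exp_pos _

lemma ga_le_one {b : ℝ} (hb : 0 ≤ b) (θ : ℝ) : ga b θ ≤ 1 := by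
  unfold ga
  rw [Real.exp_le_one_iff]
  have := Real.pi_pos
  have : 0 ≤ Real.pi * b * θ ^ 2 := by positivity
  linarith

lemma continuous_ga (b : ℝ) : Continuous (ga b) := by
  unfold ga
  fun_prop

lemma ga_add (b b' θ : ℝ) : ga (b + b') θ = ga b θ * ga b' θ := by
  unfold ga
  rw [← Real.exp_add]
  congr 1
  ring

lemma integrable_ga {b : ℝ} (hb : 0 < b) : Integrable (ga b) := by
  have h1 := integrable_exp_neg_mul_sq (b := Real.pi * b) (by positivity)
  refine h1.congr (Filter.Eventually.of_forall fun θ => ?_)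
  unfold ga
  simp only [neg_mul]

/-- **The Fourier transform of the Gaussian.** -/
theorem ga_fourier {b : ℝ} (hb : 0 < b) (v : ℝ) :
    ∫ θ : ℝ, (ga b θ : ℂ) * e (θ * v) = ((1 / Real.sqrt b * ga (1 / b) v : ℝ) : ℂ) := by
  have hpi := Real.pi_pos
  have h1 := fourierIntegral_gaussian (b := ((Real.pi * b : ℝ) : ℂ)) (by rw [Complex.ofReal_re]; positivity)
    ((2 * Real.pi * v : ℝ) : ℂ)
  have h2 : ∀ θ : ℝ, (ga b θ : ℂ) * e (θ * v) = Complex.exp (Complex.I * ((2 * Real.pi * v : ℝ) : ℂ) * θ) *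
      Complex.exp (-((Real.pi * b : ℝ) : ℂ) * θ ^ 2) := by
    intro θ
    unfold ga e
    rw [Complex.ofReal_exp, mul_comm]
    congr 1
    · congr 1
      push_cast
      ring
    · congr 1
      push_cast
      ring
  simp_rw [h2]
  rw [h1]
  have h3 : (Real.pi / ((Real.pi * b : ℝ) : ℂ) : ℂ) = ((1 / b : ℝ) : ℂ) := by
    push_cast
    have : (Real.pi : ℂ) ≠ 0 := by exact_mod_cast hpi.ne'
    field_simp
  have h4 : (((1 / b : ℝ) : ℂ)) ^ (1 / 2 : ℂ) = ((1 / Real.sqrt b : ℝ) : ℂ) := by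
    rw [show (1 / 2 : ℂ) = ((1 / 2 : ℝ) : ℂ) by push_cast; ring, ← Complex.ofReal_cpow (by positivity),
      ← Real.sqrt_eq_rpow, Real.sqrt_div zero_le_one, Real.sqrt_one]
  rw [h3, h4]
  unfold ga
  push_cast
  congr 2
  have : (Real.pi : ℂ) ≠ 0 := by exact_mod_cast hpi.ne'
  have : (b : ℂ) ≠ 0 := by exact_mod_cast hb.ne'
  field_simp
  ring

end Pool.Agent.V7H64.WX
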