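import Pool.Agent.V7H64.WX.Gau

set_option autoImplicit false

/-! The kernel argument (helper64). -/

namespace Pool.Agent.V7H64.WX

open Finset MeasureTheory
open Pool.Agent.H469R2.NK (e norm_e e_add conj_e)

lemma integrable_ga_mul {b : ℝ} (hb : 0 < b) {f : ℝ → ℂ} (hf : Continuous f) (C : ℝ) (hC : ∀ θ, ‖f θ‖ ≤ C) :
    Integrable (fun θ => (ga b θ : ℂ) * f θ) := by
  refine Integrable.mono' ((integrable_ga hb).const_mul C) ?_ (Filter.Eventually.of_forall fun θ => ?_)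
  · exact ((Complex.continuous_ofReal.comp (continuous_ga b)).mul hf).aestronglyMeasurable
  · rw [norm_mul, Complex.norm_real, Real.norm_of_nonneg (ga_pos b θ).le, mul_comm]
    exact mul_le_mul_of_nonneg_right (hC θ) (ga_pos b θ).le

lemma continuous_sum_e {J : Type*} (S : Finset J) (v : J → ℝ) : Continuous (fun θ : ℝ => ∑ j ∈ S, e (θ * v j)) :=
  continuous_finsetSum _ (fun _ _ => continuous_e.comp (continuous_id.mul continuous_const))

lemma norm_sum_e_le {J : Type*} (S : Finset J) (v : J → ℝ) (θ : ℝ) : ‖∑ j ∈ S, e (θ * v j)‖ ≤ S.card := by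
  refine (norm_sum_le _ _).trans ?_
  simp only [norm_e, sum_const, nsmul_eq_mul, mul_one, le_refl]

lemma ker_sum {J : Type*} (S : Finset J) (v : J → ℝ) {b : ℝ} (hb : 0 < b) :
    ∫ θ : ℝ, (ga b θ : ℂ) * ∑ j ∈ S, e (θ * v j) = ((1 / Real.sqrt b * ∑ j ∈ S, ga (1 / b) (v j) : ℝ) : ℂ) := by
  simp_rw [mul_sum]
  rw [integral_finsetSum]
  · push_cast
    refine sum_congr rfl fun j _ => ?_
    rw [ga_fourier hb]
    push_cast
    ring
  · intro j _
    exact integrable_ga_mul hb (continuous_e.comp (continuous_id.mul continuous_const)) 1 (fun θ => (norm_e _).le)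

lemma integral_ga {b : ℝ} (hb : 0 < b) : ∫ θ : ℝ, ga b θ = 1 / Real.sqrt b := by
  have h1 := ga_fourier hb 0
  have h2 : ∀ θ : ℝ, (ga b θ : ℂ) * e (θ * 0) = (ga b θ : ℂ) := by
    intro θ
    have : e (θ * 0) = 1 := by unfold e; simp
    rw [this, mul_one]
  simp_rw [h2] at h1
  rw [integral_complex_ofReal] at h1
  have h3 : ga (1 / b) 0 = 1 := by unfold ga; simp
  rw [h3, mul_one] at h1
  exact_mod_cast h1

/-- the exponential sum over the tuples -/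
noncomputable def FS {ι : Type*} (P : Finset ι) (σ : ι → ℝ) (θ : ℝ) : ℂ := ∑ p ∈ P, e (θ * σ p)

lemma FS_sq {ι : Type*} (P : Finset ι) (σ : ι → ℝ) (θ : ℝ) :
    ((‖FS P σ θ‖ ^ 2 : ℝ) : ℂ) = ∑ p ∈ P ×ˢ P, e (θ * (σ p.1 - σ p.2)) := by
  have h1 : ((‖FS P σ θ‖ ^ 2 : ℝ) : ℂ) = FS P σ θ * (starRingEnd ℂ) (FS P σ θ) := by
    rw [Complex.mul_conj, Complex.normSq_eq_norm_sq]
  rw [h1]
  unfold FS
  rw [map_sum, sum_mul_sum, ← sum_product']
  refine sum_congr rfl fun p _ => ?_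
  rw [conj_e, ← e_add]
  congr 1
  ring

lemma ker_sq {ι : Type*} (P : Finset ι) (σ : ι → ℝ) {b : ℝ} (hb : 0 < b) :
    ∫ θ : ℝ, ga b θ * ‖FS P σ θ‖ ^ 2 = 1 / Real.sqrt b * ∑ p ∈ P ×ˢ P, ga (1 / b) (σ p.1 - σ p.2) := by
  have h1 := ker_sum (P ×ˢ P) (fun p => σ p.1 - σ p.2) hb
  have h2 : ∀ θ : ℝ, (ga b θ : ℂ) * ∑ p ∈ P ×ˢ P, e (θ * (σ p.1 - σ p.2)) = ((ga b θ * ‖FS P σ θ‖ ^ 2 : ℝ) : ℂ) := by
    intro θ
    rw [← FS_sq]
    push_cast
    ring
  simp_rw [h2] at h1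
  rw [integral_complex_ofReal] at h1
  exact_mod_cast h1

lemma e_neg_sum {ι : Type*} (P : Finset ι) (σ : ι → ℝ) (c M' : ℝ) (X : ℕ) (θ : ℝ) :
    ‖∑ j ∈ (P ×ˢ P) ×ˢ Ioc X (2 * X), e (θ * (M' - σ j.1.1 - σ j.1.2 - (j.2 : ℝ) ^ c))‖ =
      ‖FS P σ θ‖ ^ 2 * ‖ES c X θ‖ := by
  have h1 : ∑ j ∈ (P ×ˢ P) ×ˢ Ioc X (2 * X), e (θ * (M' - σ j.1.1 - σ j.1.2 - (j.2 : ℝ) ^ c)) =
      e (θ * M') * (FS P σ (-θ) * FS P σ (-θ) * ES c X (-θ)) := by
    unfold FS ES
    rw [sum_mul_sum, ← sum_product', sum_mul_sum, ← sum_product', mul_sum]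
    refine sum_congr rfl fun j _ => ?_
    rw [← e_add, ← e_add, ← e_add]
    congr 1
    ring
  have h2 : ‖FS P σ (-θ)‖ = ‖FS P σ θ‖ := by
    have : FS P σ (-θ) = (starRingEnd ℂ) (FS P σ θ) := by
      unfold FS
      rw [map_sum]
      refine sum_congr rfl fun n _ => ?_
      rw [conj_e]
      congr 1
      ring
    rw [this, Complex.norm_conj]
  rw [h1, norm_mul, norm_e, one_mul, norm_mul, norm_mul, h2, ES_neg]
  ring

/-- **The kernel argument.** -/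
theorem kernel {ι : Type*} (P : Finset ι) (hP : P.Nonempty) (σ : ι → ℝ) (c M' : ℝ) (X : ℕ) (b T E₁ κ₁ η m : ℝ)
    (hb : 0 < b) (hE : 0 ≤ E₁) (hη : 0 ≤ η)
    (h1 : ∀ θ : ℝ, |θ| ≤ X → (1 - ga (T ^ 2) θ) * ‖ES c X θ‖ ≤ E₁)
    (h2 : (((P ×ˢ P).filter (fun p => |σ p.1 - σ p.2| < 1)).card : ℝ) ≤ κ₁ * (P.card : ℝ) ^ 2)
    (h3 : ∀ p ∈ P, ∀ p' ∈ P, m ≤
      (((Ioc X (2 * X)).filter (fun x : ℕ => |M' - σ p - σ p' - (x : ℝ) ^ c| ≤ Real.sqrt (b + T ^ 2))).card : ℝ))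
    (h4 : ∀ p ∈ P, ∀ p' ∈ P, ∀ x ∈ Ioc X (2 * X), η ≤ |M' - σ p - σ p' - (x : ℝ) ^ c|) :
    m * Real.exp (-Real.pi) / Real.sqrt (b + T ^ 2) ≤
      (X * Real.exp (-(Real.pi * (1 / b) * η ^ 2)) + E₁ * (κ₁ + Real.exp (-(Real.pi * (1 / b)))) +
        X * (Real.sqrt 2 * Real.exp (-(Real.pi * (b / 2) * (X : ℝ) ^ 2)))) / Real.sqrt b := by
  classical
  have hpi := Real.pi_pos
  have hb2 : 0 < b + T ^ 2 := by positivity
  have hsb : 0 < Real.sqrt b := Real.sqrt_pos.2 hb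
  have hsb2 : 0 < Real.sqrt (b + T ^ 2) := Real.sqrt_pos.2 hb2
  set J := (P ×ˢ P) ×ˢ Ioc X (2 * X) with hJ
  set v : (ι × ι) × ℕ → ℝ := fun j => M' - σ j.1.1 - σ j.1.2 - (j.2 : ℝ) ^ c with hv
  have hPc : (0 : ℝ) < P.card := by exact_mod_cast hP.card_pos
  have hJc : ((J.card : ℕ) : ℝ) = (P.card : ℝ) ^ 2 * X := by
    rw [hJ, card_product, card_product, Nat.card_Ioc, show 2 * X - X = X by omega]
    push_cast
    ring
  -- the two integrals
  have i1 := ker_sum J v hb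
  have i2 := ker_sum J v hb2
  have hcs := continuous_sum_e J v
  have int1 : Integrable (fun θ => (ga b θ : ℂ) * ∑ j ∈ J, e (θ * v j)) :=
    integrable_ga_mul hb hcs J.card (norm_sum_e_le J v)
  have int2 : Integrable (fun θ => (ga (b + T ^ 2) θ : ℂ) * ∑ j ∈ J, e (θ * v j)) :=
    integrable_ga_mul hb2 hcs J.card (norm_sum_e_le J v)
  have hdiff : ((1 / Real.sqrt (b + T ^ 2) * ∑ j ∈ J, ga (1 / (b + T ^ 2)) (v j) : ℝ) : ℂ) =
      ((1 / Real.sqrt b * ∑ j ∈ J, ga (1 / b) (v j) : ℝ) : ℂ) -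
        ∫ θ : ℝ, (ga b θ : ℂ) * ((1 - ga (T ^ 2) θ : ℝ) : ℂ) * ∑ j ∈ J, e (θ * v j) := by
    rw [← i1, ← i2, ← integral_sub int1]
    · congr 1
      ext θ
      rw [ga_add]
      push_cast
      ring
    · refine (int1.sub int2).congr (Filter.Eventually.of_forall fun θ => ?_)
      simp only [Pi.sub_apply]
      rw [ga_add]
      push_cast
      ring
  -- the error term
  set f : ℝ → ℝ := fun θ => E₁ * (ga b θ * ‖FS P σ θ‖ ^ 2) +
    ((P.card : ℝ) ^ 2 * X * Real.exp (-(Real.pi * (b / 2) * (X : ℝ) ^ 2))) * ga (b / 2) θ with hf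
  have hFS : ∀ θ, ‖FS P σ θ‖ ^ 2 ≤ (P.card : ℝ) ^ 2 := by
    intro θ
    have := norm_sum_e_le P σ θ
    have h0 : 0 ≤ ‖FS P σ θ‖ := norm_nonneg _
    exact pow_le_pow_left₀ h0 this 2
  have hintsq : Integrable (fun θ => ga b θ * ‖FS P σ θ‖ ^ 2) := by
    refine Integrable.mono' ((integrable_ga hb).const_mul ((P.card : ℝ) ^ 2)) ?_ (Filter.Eventually.of_forall fun θ => ?_)
    · have h5 : Continuous (FS P σ) := continuous_sum_e P σ
      exact ((continuous_ga b).mul (h5.norm.pow 2)).aestronglyMeasurable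
    · rw [norm_mul, Real.norm_of_nonneg (ga_pos b θ).le, Real.norm_of_nonneg (by positivity), mul_comm]
      exact mul_le_mul_of_nonneg_right (hFS θ) (ga_pos b θ).le
  have hfint : Integrable f := (hintsq.const_mul E₁).add ((integrable_ga (by positivity)).const_mul _)
  have hbound : ∀ θ, ‖(ga b θ : ℂ) * ((1 - ga (T ^ 2) θ : ℝ) : ℂ) * ∑ j ∈ J, e (θ * v j)‖ ≤ f θ := by
    intro θ
    have hg0 := (ga_pos b θ).le
    have hg1 : 0 ≤ 1 - ga (T ^ 2) θ := by linarith [ga_le_one (show 0 ≤ T ^ 2 by positivity) θ]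
    have hg2 : 1 - ga (T ^ 2) θ ≤ 1 := by linarith [ga_pos (T ^ 2) θ]
    rw [norm_mul, norm_mul, Complex.norm_real, Complex.norm_real, Real.norm_of_nonneg hg0, Real.norm_of_nonneg hg1]
    have h5 := e_neg_sum P σ c M' X θ
    rw [← hJ] at h5
    rw [h5]
    have h6 : 0 ≤ ‖FS P σ θ‖ ^ 2 := by positivity
    have h7 : 0 ≤ ‖ES c X θ‖ := norm_nonneg _
    simp only [hf]
    rcases le_or_gt |θ| X with hθ | hθ
    · have h8 := h1 θ hθ
      have h9 : 0 ≤ ((P.card : ℝ) ^ 2 * X * Real.exp (-(Real.pi * (b / 2) * (X : ℝ) ^ 2))) * ga (b / 2) θ := by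
        have := (ga_pos (b / 2) θ).le
        positivity
      calc ga b θ * (1 - ga (T ^ 2) θ) * (‖FS P σ θ‖ ^ 2 * ‖ES c X θ‖)
          = (ga b θ * ‖FS P σ θ‖ ^ 2) * ((1 - ga (T ^ 2) θ) * ‖ES c X θ‖) := by ring
        _ ≤ (ga b θ * ‖FS P σ θ‖ ^ 2) * E₁ := by gcongr
        _ ≤ _ := by linarith
    · have h8 : ga b θ ≤ Real.exp (-(Real.pi * (b / 2) * (X : ℝ) ^ 2)) * ga (b / 2) θ := by
        unfold ga
        rw [← Real.exp_add]
        apply Real.exp_le_exp.2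
        have h9 : (X : ℝ) ^ 2 ≤ θ ^ 2 := by
          rw [← sq_abs θ]
          exact pow_le_pow_left₀ (Nat.cast_nonneg X) hθ.le 2
        have h10 : Real.pi * (b / 2) * (X : ℝ) ^ 2 ≤ Real.pi * (b / 2) * θ ^ 2 := by gcongr
        linarith
      have h9 := hFS θ
      have h10 := ES_norm_le c X θ
      have h11 : 0 ≤ E₁ * (ga b θ * ‖FS P σ θ‖ ^ 2) := by positivity
      have h12 : 0 ≤ Real.exp (-(Real.pi * (b / 2) * (X : ℝ) ^ 2)) * ga (b / 2) θ := hg0.trans h8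
      calc ga b θ * (1 - ga (T ^ 2) θ) * (‖FS P σ θ‖ ^ 2 * ‖ES c X θ‖)
          ≤ (Real.exp (-(Real.pi * (b / 2) * (X : ℝ) ^ 2)) * ga (b / 2) θ) * 1 * ((P.card : ℝ) ^ 2 * X) := by gcongr
        _ = ((P.card : ℝ) ^ 2 * X * Real.exp (-(Real.pi * (b / 2) * (X : ℝ) ^ 2))) * ga (b / 2) θ := by ring
        _ ≤ _ := by linarith
  have herr : ‖∫ θ : ℝ, (ga b θ : ℂ) * ((1 - ga (T ^ 2) θ : ℝ) : ℂ) * ∑ j ∈ J, e (θ * v j)‖ ≤
      E₁ * (1 / Real.sqrt b * ((κ₁ + Real.exp (-(Real.pi * (1 / b)))) * (P.card : ℝ) ^ 2)) +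
      ((P.card : ℝ) ^ 2 * X * Real.exp (-(Real.pi * (b / 2) * (X : ℝ) ^ 2))) * (Real.sqrt 2 / Real.sqrt b) := by
    refine (norm_integral_le_of_norm_le hfint (Filter.Eventually.of_forall hbound)).trans ?_
    simp only [hf]
    rw [integral_add (hintsq.const_mul E₁) ((integrable_ga (by positivity)).const_mul _), integral_const_mul,
      integral_const_mul, ker_sq P σ hb, integral_ga (show 0 < b / 2 by positivity)]
    have h5 : ∑ p ∈ P ×ˢ P, ga (1 / b) (σ p.1 - σ p.2) ≤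
        (κ₁ + Real.exp (-(Real.pi * (1 / b)))) * (P.card : ℝ) ^ 2 := by
      have h6 : ∀ p ∈ P ×ˢ P, ga (1 / b) (σ p.1 - σ p.2) ≤ (if |σ p.1 - σ p.2| < 1 then 1 else 0) +
          Real.exp (-(Real.pi * (1 / b))) := by
        intro p _
        split_ifs with h7
        · have := ga_le_one (show 0 ≤ 1 / b by positivity) (σ p.1 - σ p.2)
          have := Real.exp_pos (-(Real.pi * (1 / b)))
          linarith
        · rw [zero_add]
          unfold ga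
          apply Real.exp_le_exp.2
          have h8 : 1 ≤ (σ p.1 - σ p.2) ^ 2 := by
            rw [← sq_abs]
            have h9 := not_lt.1 h7
            nlinarith
          have h9 : Real.pi * (1 / b) * 1 ≤ Real.pi * (1 / b) * (σ p.1 - σ p.2) ^ 2 := by gcongr
          linarith
      refine (sum_le_sum h6).trans ?_
      rw [sum_add_distrib, sum_const, nsmul_eq_mul, ← sum_filter, sum_const, nsmul_eq_mul, mul_one, card_product]
      push_cast
      nlinarith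
    have h6 : 1 / Real.sqrt (b / 2) = Real.sqrt 2 / Real.sqrt b := by
      rw [Real.sqrt_div hb.le]
      field_simp
    rw [h6]
    gcongr
  -- the main terms
  have hmain : 1 / Real.sqrt (b + T ^ 2) * ((P.card : ℝ) ^ 2 * (m * Real.exp (-Real.pi))) ≤
      1 / Real.sqrt (b + T ^ 2) * ∑ j ∈ J, ga (1 / (b + T ^ 2)) (v j) := by
    have h5 : (P.card : ℝ) ^ 2 * (m * Real.exp (-Real.pi)) ≤ ∑ j ∈ J, ga (1 / (b + T ^ 2)) (v j) := by
      rw [hJ, sum_product]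
      have h6 : ∀ p ∈ P ×ˢ P, m * Real.exp (-Real.pi) ≤ ∑ x ∈ Ioc X (2 * X), ga (1 / (b + T ^ 2)) (v (p, x)) := by
        intro p hp
        rw [mem_product] at hp
        have h7 := h3 p.1 hp.1 p.2 hp.2
        have h8 : ∑ x ∈ (Ioc X (2 * X)).filter (fun x : ℕ => |M' - σ p.1 - σ p.2 - (x : ℝ) ^ c| ≤ Real.sqrt (b + T ^ 2)),
            Real.exp (-Real.pi) ≤ ∑ x ∈ Ioc X (2 * X), ga (1 / (b + T ^ 2)) (v (p, x)) := by
          refine (sum_le_sum (fun x hx => ?_)).trans (sum_le_sum_of_subset_of_nonneg (filter_subset _ _)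
            (fun x _ _ => (ga_pos (1 / (b + T ^ 2)) (v (p, x))).le))
          rw [mem_filter] at hx
          unfold ga
          apply Real.exp_le_exp.2
          have h9 : (v (p, x)) ^ 2 ≤ b + T ^ 2 := by
            rw [← sq_abs, ← Real.sq_sqrt hb2.le]
            exact pow_le_pow_left₀ (abs_nonneg _) hx.2 2
          have h10 : 1 / (b + T ^ 2) * (v (p, x)) ^ 2 ≤ 1 := by
            rw [one_div, inv_mul_le_iff₀ hb2, mul_one]
            exact h9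
          have h11 : Real.pi * (1 / (b + T ^ 2)) * (v (p, x)) ^ 2 = Real.pi * (1 / (b + T ^ 2) * (v (p, x)) ^ 2) := by ring
          rw [h11]
          nlinarith
        rw [sum_const, nsmul_eq_mul] at h8
        refine le_trans ?_ h8
        have := (Real.exp_pos (-Real.pi)).le
        gcongr
      have h7 := sum_le_sum h6
      rw [sum_const, nsmul_eq_mul, card_product] at h7
      push_cast at h7
      nlinarith
    have : 0 ≤ 1 / Real.sqrt (b + T ^ 2) := by positivity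
    gcongr
  have hsmall : 1 / Real.sqrt b * ∑ j ∈ J, ga (1 / b) (v j) ≤
      1 / Real.sqrt b * ((P.card : ℝ) ^ 2 * X * Real.exp (-(Real.pi * (1 / b) * η ^ 2))) := by
    have h5 : ∀ j ∈ J, ga (1 / b) (v j) ≤ Real.exp (-(Real.pi * (1 / b) * η ^ 2)) := by
      intro j hj
      rw [hJ, mem_product, mem_product] at hj
      have h6 := h4 j.1.1 hj.1.1 j.1.2 hj.1.2 j.2 hj.2
      unfold ga
      apply Real.exp_le_exp.2
      have h7 : η ^ 2 ≤ (v j) ^ 2 := by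
        rw [← sq_abs (v j)]
        exact pow_le_pow_left₀ hη h6 2
      have h8 : Real.pi * (1 / b) * η ^ 2 ≤ Real.pi * (1 / b) * (v j) ^ 2 := by gcongr
      linarith
    have h6 := sum_le_sum h5
    rw [sum_const, nsmul_eq_mul, hJc] at h6
    gcongr
  have hkey : 1 / Real.sqrt (b + T ^ 2) * ∑ j ∈ J, ga (1 / (b + T ^ 2)) (v j) ≤
      1 / Real.sqrt b * ∑ j ∈ J, ga (1 / b) (v j) +
        ‖∫ θ : ℝ, (ga b θ : ℂ) * ((1 - ga (T ^ 2) θ : ℝ) : ℂ) * ∑ j ∈ J, e (θ * v j)‖ := by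
    have h5 := congrArg Complex.re hdiff
    rw [Complex.sub_re, Complex.ofReal_re, Complex.ofReal_re] at h5
    have h6 := Complex.abs_re_le_norm
      (∫ θ : ℝ, (ga b θ : ℂ) * ((1 - ga (T ^ 2) θ : ℝ) : ℂ) * ∑ j ∈ J, e (θ * v j))
    have h7 := (abs_le.1 h6).1
    linarith
  have htot := hmain.trans (hkey.trans (add_le_add hsmall herr))
  have hfin : (P.card : ℝ) ^ 2 * (m * Real.exp (-Real.pi) / Real.sqrt (b + T ^ 2)) ≤
      (P.card : ℝ) ^ 2 * ((X * Real.exp (-(Real.pi * (1 / b) * η ^ 2)) + E₁ * (κ₁ + Real.exp (-(Real.pi * (1 / b)))) +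
        X * (Real.sqrt 2 * Real.exp (-(Real.pi * (b / 2) * (X : ℝ) ^ 2)))) / Real.sqrt b) := by
    calc (P.card : ℝ) ^ 2 * (m * Real.exp (-Real.pi) / Real.sqrt (b + T ^ 2))
        = 1 / Real.sqrt (b + T ^ 2) * ((P.card : ℝ) ^ 2 * (m * Real.exp (-Real.pi))) := by ring
      _ ≤ _ := htot
      _ = _ := by ring
  exact le_of_mul_le_mul_left hfin (by positivity)

end Pool.Agent.V7H64.WX
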