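import Mathlib

set_option autoImplicit false

/-! The measure of the set where a function with large derivative is small (helper64). -/

namespace Pool.Agent.V7H64.WX

open MeasureTheory

lemma small_close {g g' : ℝ → ℝ} {a b l : ℝ} (hl : 0 < l)
    (hd : ∀ x ∈ Set.Icc a b, HasDerivAt g (g' x) x) (h : ∀ x ∈ Set.Icc a b, |g x| ≤ 1 → l ≤ g' x)
    {x y : ℝ} (hx : x ∈ Set.Icc a b) (hy : y ∈ Set.Icc a b) (hgx : |g x| < 1) (hgy : |g y| < 1) :
    y - x ≤ 4 / l := by
  by_contra hcon
  push Not at hcon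
  have h4 : 0 < 4 / l := by positivity
  set t₁ : ℝ := x + 4 / l with ht₁
  have ht₁y : t₁ ≤ y := by linarith
  have hab : ∀ t ∈ Set.Icc x y, t ∈ Set.Icc a b := fun t ht => ⟨hx.1.trans ht.1, ht.2.trans hy.2⟩
  have hgx' := abs_lt.1 hgx
  have hgy' := abs_lt.1 hgy
  have h1 : -g t₁ ≤ 1 - l / 2 * (t₁ - x) := by
    have := image_le_of_deriv_right_lt_deriv_boundary (f := fun t => -g t) (f' := fun t => -g' t)
      (a := x) (b := t₁) (B := fun t => 1 - l / 2 * (t - x)) (B' := fun _ => -(l / 2))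
      (fun t ht => ((hd t (hab t ⟨ht.1, ht.2.trans ht₁y⟩)).neg).continuousAt.continuousWithinAt)
      (fun t ht => ((hd t (hab t ⟨ht.1, ht.2.le.trans ht₁y⟩)).neg).hasDerivWithinAt)
      (by simp only [sub_self, mul_zero, sub_zero]; linarith)
      (fun t => by
        have := (((hasDerivAt_id t).sub_const x).const_mul (l / 2)).const_sub 1
        simpa using this)
      (by
        intro t ht hteq
        have hteq' : -g t = 1 - l / 2 * (t - x) := hteq
        show -g' t < -(l / 2)
        have h2 : l / 2 * (t - x) ≤ 2 := by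
          have h3 : t - x ≤ 4 / l := by linarith [ht.2.le]
          calc l / 2 * (t - x) ≤ l / 2 * (4 / l) := by gcongr
            _ = 2 := by field_simp; norm_num
        have h3 : 0 ≤ l / 2 * (t - x) := mul_nonneg (by positivity) (by linarith [ht.1])
        have h5 := h t (hab t ⟨ht.1, ht.2.le.trans ht₁y⟩) (abs_le.2 ⟨by linarith, by linarith⟩)
        linarith)
    exact this ⟨by linarith, le_rfl⟩
  have h2 : 1 ≤ g t₁ := by
    have h3 : l / 2 * (t₁ - x) = 2 := by
      rw [ht₁]
      field_simp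
      ring
    linarith
  have h3 : -g y ≤ -1 := by
    have := image_le_of_deriv_right_lt_deriv_boundary (f := fun t => -g t) (f' := fun t => -g' t)
      (a := t₁) (b := y) (B := fun _ => -1) (B' := fun _ => 0)
      (fun t ht => ((hd t (hab t ⟨by linarith [ht.1], ht.2⟩)).neg).continuousAt.continuousWithinAt)
      (fun t ht => ((hd t (hab t ⟨by linarith [ht.1], ht.2.le⟩)).neg).hasDerivWithinAt)
      (by show -g t₁ ≤ -1; linarith)
      (fun t => hasDerivAt_const t _)
      (by
        intro t ht hteq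
        have hteq' : -g t = -1 := hteq
        show -g' t < 0
        have h5 := h t (hab t ⟨by linarith [ht.1], ht.2.le⟩) (abs_le.2 ⟨by linarith, by linarith⟩)
        linarith)
    exact this ⟨ht₁y, le_rfl⟩
  linarith

theorem vol_small {g g' : ℝ → ℝ} {a b l : ℝ} (hl : 0 < l)
    (hd : ∀ x ∈ Set.Icc a b, HasDerivAt g (g' x) x) (h : ∀ x ∈ Set.Icc a b, |g x| ≤ 1 → l ≤ g' x) :
    volume {x : ℝ | x ∈ Set.Icc a b ∧ |g x| < 1} ≤ ENNReal.ofReal (4 / l) := by
  refine (Real.volume_le_diam _).trans ?_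
  apply Metric.ediam_le
  rintro x ⟨hx, hgx⟩ y ⟨hy, hgy⟩
  rw [edist_dist, Real.dist_eq]
  apply ENNReal.ofReal_le_ofReal
  rw [abs_le]
  have h1 := small_close hl hd h hx hy hgx hgy
  have h2 := small_close hl hd h hy hx hgy hgx
  constructor <;> linarith

/-- the same with the sign reversed -/
theorem vol_small' {g g' : ℝ → ℝ} {a b l : ℝ} (hl : 0 < l)
    (hd : ∀ x ∈ Set.Icc a b, HasDerivAt g (g' x) x) (h : ∀ x ∈ Set.Icc a b, |g x| ≤ 1 → l ≤ -g' x) :
    volume {x : ℝ | x ∈ Set.Icc a b ∧ |g x| < 1} ≤ ENNReal.ofReal (4 / l) := by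
  have h1 := vol_small (g := fun t => -g t) (g' := fun t => -g' t) hl (fun x hx => (hd x hx).neg)
    (fun x hx hg => h x hx (by rwa [abs_neg] at hg))
  simpa only [abs_neg] using h1

end Pool.Agent.V7H64.WX
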