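import Pool.Agent.N542.PP.Van

set_option autoImplicit false

/-! Exponential sums over the powers `x ^ c`, `c > 1` not an integer (helper64). -/

namespace Pool.Agent.V7H64.WX

open Finset
open Pool.Agent.H469R2.NK (e norm_e e_add conj_e)
open Pool.Agent.TH915.PW (Hy)
open Pool.Agent.N542.PP (vdc_high low_mono)

/-- the derivatives of `α t ^ c` -/
noncomputable def pw (α c : ℝ) (m : ℕ) (t : ℝ) : ℝ :=
  α * (∏ j ∈ range m, (c - j)) * t ^ (c - m)

lemma pw_der (α c : ℝ) (m : ℕ) (t : ℝ) (ht : 0 < t) : HasDerivAt (pw α c m) (pw α c (m + 1) t) t := by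
  have h1 : HasDerivAt (fun t : ℝ => t ^ (c - m)) ((c - m) * t ^ (c - m - 1)) t :=
    Real.hasDerivAt_rpow_const (Or.inl ht.ne')
  have h2 := h1.const_mul (α * ∏ j ∈ range m, (c - j))
  have e1 : pw α c (m + 1) t = α * (∏ j ∈ range m, (c - j)) * ((c - m) * t ^ (c - m - 1)) := by
    unfold pw
    rw [prod_range_succ]
    push_cast
    rw [show c - (m + 1 : ℝ) = c - m - 1 by ring]
    ring
  rw [e1]
  exact h2

/-- the exponential sum over `X < x ≤ 2 X` -/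
noncomputable def ES (c : ℝ) (X : ℕ) (θ : ℝ) : ℂ := ∑ x ∈ Ioc X (2 * X), e (θ * (x : ℝ) ^ c)

lemma ES_norm_le (c : ℝ) (X : ℕ) (θ : ℝ) : ‖ES c X θ‖ ≤ X := by
  unfold ES
  refine (norm_sum_le _ _).trans ?_
  simp only [norm_e, sum_const, Nat.card_Ioc, nsmul_eq_mul, mul_one]
  rw [show 2 * X - X = X by omega]

lemma ES_eq (c : ℝ) (X : ℕ) (θ : ℝ) :
    ES c X θ = ∑ n ∈ range X, e (pw θ c 0 (((X : ℝ) + 1) + n)) := by
  unfold ES
  have h1 : Ioc X (2 * X) = Ico (X + 1) (X + 1 + X) := by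
    ext x
    simp only [mem_Ioc, mem_Ico]
    omega
  rw [h1, sum_Ico_eq_sum_range, show X + 1 + X - (X + 1) = X by omega]
  refine sum_congr rfl fun n _ => ?_
  congr 1
  unfold pw
  simp

lemma ES_neg (c : ℝ) (X : ℕ) (θ : ℝ) : ‖ES c X (-θ)‖ = ‖ES c X θ‖ := by
  have h1 : ES c X (-θ) = (starRingEnd ℂ) (ES c X θ) := by
    unfold ES
    rw [map_sum]
    refine sum_congr rfl fun n _ => ?_
    rw [conj_e]
    congr 1
    ring
  rw [h1, Complex.norm_conj]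

/-- positive frequencies -/
lemma sup_pos (c : ℝ) (hc1 : 1 < c) (hcn : ∀ m : ℕ, c ≠ m) (δ : ℝ) (hδ : 0 < δ) (hδ1 : δ ≤ 1) :
    ∃ ρ : ℝ, 0 < ρ ∧ ρ ≤ δ ∧ ρ ≤ 1 ∧ ∃ C : ℝ, 1 ≤ C ∧ ∀ X : ℕ, 1 ≤ X → ∀ θ : ℝ, (X : ℝ) ^ (-c + δ) ≤ θ → θ ≤ X →
      ‖ES c X θ‖ ≤ C * (X : ℝ) ^ (1 - ρ) := by
  set k : ℕ := ⌊c⌋₊ with hk
  have hc0 : 0 < c := by linarith
  have hk1 : (k : ℝ) ≤ c := Nat.floor_le hc0.le
  have hk1' : (k : ℝ) < c := lt_of_le_of_ne hk1 (hcn k).symm
  have hk2 : c < k + 1 := Nat.lt_floor_add_one _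
  set Q : ℕ := k + 4 with hQ
  -- the product
  have hpk : 0 < ∏ j ∈ range (k + 1), (c - (j : ℝ)) := by
    apply prod_pos
    intro j hj
    have h2 : (j : ℝ) ≤ k := by exact_mod_cast Nat.lt_succ_iff.mp (mem_range.mp hj)
    linarith
  have hP : 0 < ∏ j ∈ range (Q + 1), (c - (j : ℝ)) := by
    rw [show Q + 1 = (k + 1) + 4 by omega, prod_range_succ, prod_range_succ, prod_range_succ, prod_range_succ]
    have h1 : 0 < (c - ((k + 1 : ℕ) : ℝ)) * (c - ((k + 1 + 1 : ℕ) : ℝ)) := by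
      push_cast
      nlinarith
    have h2 : 0 < (c - ((k + 1 + 2 : ℕ) : ℝ)) * (c - ((k + 1 + 3 : ℕ) : ℝ)) := by
      push_cast
      nlinarith
    have := mul_pos (mul_pos hpk h1) h2
    calc 0 < _ := this
      _ = _ := by ring
  set P : ℝ := ∏ j ∈ range (Q + 1), (c - (j : ℝ)) with hPdef
  have hQc : c - ((Q : ℝ) + 1) < 0 := by rw [hQ]; push_cast; linarith
  obtain ⟨η, hη, hη1, C, hC, hvdc⟩ := vdc_high Q (by omega) (P * 3 ^ (c - ((Q : ℝ) + 1))) P (by positivity)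
    (by
      have : (3 : ℝ) ^ (c - ((Q : ℝ) + 1)) ≤ 1 := Real.rpow_le_one_of_one_le_of_nonpos (by norm_num) hQc.le
      nlinarith)
  set c2 : ℝ := c * 3 ^ c with hc2
  have h3c : (1 : ℝ) ≤ 3 ^ c := Real.one_le_rpow (by norm_num) hc0.le
  have hc2' : 1 ≤ c2 := by rw [hc2]; nlinarith
  set C' : ℝ := max C (max 3 (2 * c2) ^ 2) with hC'
  refine ⟨min η δ, lt_min hη hδ, min_le_right _ _, (min_le_left _ _).trans hη1, C', hC.trans (le_max_left _ _),
    fun X hX θ hθ1 hθ2 => ?_⟩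
  have hX1 : (1 : ℝ) ≤ X := by exact_mod_cast hX
  have hX0 : (0 : ℝ) < X := by linarith
  have hθ0 : 0 < θ := lt_of_lt_of_le (by positivity) hθ1
  have hmon : ∀ r : ℝ, min η δ ≤ r → (X : ℝ) ^ (1 - r) ≤ (X : ℝ) ^ (1 - min η δ) := fun r hr =>
    Real.rpow_le_rpow_of_exponent_le hX1 (by linarith)
  rcases le_or_gt ((X : ℝ) ^ (1 / 2 : ℝ)) (θ * (X : ℝ) ^ c) with hF | hF
  · -- many differencing steps
    have h1 := hvdc X X ((X : ℝ) + 1) (θ * (X : ℝ) ^ c) (pw θ c) hX le_rfl hF ?_ ?_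
    · rw [ES_eq]
      refine h1.trans ?_
      have hC0 : 0 ≤ C := by linarith
      exact mul_le_mul (le_max_left _ _) (hmon η (min_le_left _ _)) (by positivity)
        (hC0.trans (le_max_left _ _))
    · calc θ * (X : ℝ) ^ c ≤ X * (X : ℝ) ^ c := by gcongr
        _ = (X : ℝ) ^ (1 + c) := by rw [Real.rpow_add hX0, Real.rpow_one]
        _ ≤ (X : ℝ) ^ (Q : ℝ) := Real.rpow_le_rpow_of_exponent_le hX1 (by rw [hQ]; push_cast; linarith)
        _ = _ := Real.rpow_natCast _ _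
    · have hder : ∀ t : ℝ, pw θ c (Q + 1) t = θ * P * t ^ (c - ((Q : ℝ) + 1)) := by
        intro t
        unfold pw
        rw [hPdef]
        push_cast
        ring
      have hFX : θ * (X : ℝ) ^ c / (X : ℝ) ^ (Q + 1) = θ * (X : ℝ) ^ (c - ((Q : ℝ) + 1)) := by
        rw [Real.rpow_sub hX0, mul_div_assoc]
        congr 2
        rw [← Real.rpow_natCast]
        push_cast
        rfl
      constructor
      · intro m _ t ht
        exact pw_der θ c m t (by linarith [ht.1])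
      · intro t ht
        rw [hder]
        have ht0 : 0 < t := by linarith [ht.1]
        have ht3 : t ≤ 3 * X := by linarith [ht.2]
        have h2 : (3 * (X : ℝ)) ^ (c - ((Q : ℝ) + 1)) ≤ t ^ (c - ((Q : ℝ) + 1)) :=
          Real.rpow_le_rpow_of_nonpos ht0 ht3 hQc.le
        rw [Real.mul_rpow (by norm_num) hX0.le] at h2
        calc P * 3 ^ (c - ((Q : ℝ) + 1)) * (θ * (X : ℝ) ^ c) / (X : ℝ) ^ (Q + 1)
            = P * 3 ^ (c - ((Q : ℝ) + 1)) * (θ * (X : ℝ) ^ c / (X : ℝ) ^ (Q + 1)) := by ring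
          _ = θ * P * (3 ^ (c - ((Q : ℝ) + 1)) * (X : ℝ) ^ (c - ((Q : ℝ) + 1))) := by rw [hFX]; ring
          _ ≤ _ := by gcongr
      · intro t ht
        rw [hder]
        have ht0 : 0 < t := by linarith [ht.1]
        have h2 : t ^ (c - ((Q : ℝ) + 1)) ≤ (X : ℝ) ^ (c - ((Q : ℝ) + 1)) :=
          Real.rpow_le_rpow_of_nonpos hX0 (by linarith [ht.1]) hQc.le
        calc θ * P * t ^ (c - ((Q : ℝ) + 1)) ≤ θ * P * (X : ℝ) ^ (c - ((Q : ℝ) + 1)) := by gcongr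
          _ = P * (θ * (X : ℝ) ^ c / (X : ℝ) ^ (Q + 1)) := by rw [hFX]; ring
          _ = _ := by ring
      · intro t ht
        have ht0 : 0 < t := by linarith [ht.1]
        unfold pw
        rw [prod_range_succ, show Q + 1 + 1 = Q + 2 by ring]
        have : θ * ((∏ j ∈ range (Q + 1), (c - (j : ℝ))) * (c - ((Q + 1 : ℕ) : ℝ))) = θ * P * (c - ((Q : ℝ) + 1)) := by
          rw [hPdef]; push_cast; ring
        rw [this]
        apply mul_nonpos_of_nonpos_of_nonneg _ (by positivity)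
        apply mul_nonpos_of_nonneg_of_nonpos (by positivity) hQc.le
  · -- Kusmin-Landau
    rcases lt_or_ge (X : ℝ) ((2 * c2) ^ 2) with hsm | hbig
    · refine (ES_norm_le c X θ).trans ?_
      have h1 : (1 : ℝ) ≤ (X : ℝ) ^ (1 - min η δ) := Real.one_le_rpow hX1 (by
        have := min_le_left η δ
        linarith)
      have h2 : (X : ℝ) ≤ C' := by
        refine hsm.le.trans (le_trans ?_ (le_max_right _ _))
        gcongr
        exact le_max_right _ _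
      calc (X : ℝ) ≤ C' * 1 := by linarith
        _ ≤ _ := by
          have : 0 ≤ C' := by linarith
          gcongr
    · have hsqrt : 2 * c2 ≤ (X : ℝ) ^ (1 / 2 : ℝ) := by
        calc 2 * c2 = ((2 * c2) ^ 2) ^ (1 / 2 : ℝ) := by
              rw [← Real.rpow_natCast, ← Real.rpow_mul (by positivity)]
              norm_num
          _ ≤ _ := Real.rpow_le_rpow (by positivity) hbig (by norm_num)
      have hder1 : ∀ t : ℝ, pw θ c 1 t = θ * c * t ^ (c - 1) := by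
        intro t
        unfold pw
        simp
      have hder2 : ∀ t : ℝ, pw θ c 2 t = θ * (c * (c - 1)) * t ^ (c - 2) := by
        intro t
        unfold pw
        simp [prod_range_succ]
      have h1 := low_mono X ((X : ℝ) + 1) (θ * c * (X : ℝ) ^ (c - 1)) (θ * c * (3 * (X : ℝ)) ^ (c - 1)) (pw θ c)
        (by positivity) ?_ (fun m _ t ht => pw_der θ c m t (by linarith [ht.1])) ?_ ?_ ?_
      · rw [ES_eq]
        refine h1.trans ?_
        have h2 : (X : ℝ) ^ (-1 + δ) ≤ θ * (X : ℝ) ^ (c - 1) := by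
          calc (X : ℝ) ^ (-1 + δ) = (X : ℝ) ^ (-c + δ) * (X : ℝ) ^ (c - 1) := by
                rw [← Real.rpow_add hX0]
                congr 1
                ring
            _ ≤ _ := by gcongr
        have h3 : 2 / (θ * c * (X : ℝ) ^ (c - 1)) ≤ 2 * (X : ℝ) ^ (1 - δ) := by
          rw [div_le_iff₀ (by positivity)]
          have h4 : (X : ℝ) ^ (1 - δ) * (X : ℝ) ^ (-1 + δ) = 1 := by
            rw [← Real.rpow_add hX0]
            simp
          have h5 : (X : ℝ) ^ (1 - δ) * (X : ℝ) ^ (-1 + δ) ≤ (X : ℝ) ^ (1 - δ) * (θ * (X : ℝ) ^ (c - 1)) := by gcongr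
          rw [h4] at h5
          have h6 : 0 ≤ (X : ℝ) ^ (1 - δ) * (θ * (X : ℝ) ^ (c - 1)) := by positivity
          nlinarith
        have h4 : (1 : ℝ) ≤ (X : ℝ) ^ (1 - δ) := Real.one_le_rpow hX1 (by linarith)
        have h5 := hmon δ (min_le_right _ _)
        have h6 : (3 : ℝ) ≤ C' := by
          refine le_trans ?_ (le_max_right _ _)
          have : (3 : ℝ) ≤ max 3 (2 * c2) := le_max_left _ _
          nlinarith
        calc 1 + 2 / (θ * c * (X : ℝ) ^ (c - 1)) ≤ 3 * (X : ℝ) ^ (1 - δ) := by linarith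
          _ ≤ C' * (X : ℝ) ^ (1 - min η δ) := mul_le_mul h6 h5 (by positivity) (by linarith)
      · -- the derivative is small
        have h2 : θ * (X : ℝ) ^ (c - 1) ≤ (X : ℝ) ^ (-(1 / 2) : ℝ) := by
          calc θ * (X : ℝ) ^ (c - 1) = θ * (X : ℝ) ^ c * (X : ℝ) ^ (-1 : ℝ) := by
                rw [mul_assoc, ← Real.rpow_add hX0]
                congr 2
            _ ≤ (X : ℝ) ^ (1 / 2 : ℝ) * (X : ℝ) ^ (-1 : ℝ) := by gcongr
            _ = _ := by
                rw [← Real.rpow_add hX0]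
                norm_num
        have h3 : (3 : ℝ) ^ (c - 1) ≤ 3 ^ c := Real.rpow_le_rpow_of_exponent_le (by norm_num) (by linarith)
        rw [Real.mul_rpow (by norm_num) hX0.le]
        have h4 : 2 * c2 * (X : ℝ) ^ (-(1 / 2) : ℝ) ≤ 1 := by
          have h5 : (X : ℝ) ^ (1 / 2 : ℝ) * (X : ℝ) ^ (-(1 / 2) : ℝ) = 1 := by
            rw [← Real.rpow_add hX0]
            simp
          calc 2 * c2 * (X : ℝ) ^ (-(1 / 2) : ℝ) ≤ (X : ℝ) ^ (1 / 2 : ℝ) * (X : ℝ) ^ (-(1 / 2) : ℝ) := by gcongr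
            _ = 1 := h5
        calc 2 * (θ * c * (3 ^ (c - 1) * (X : ℝ) ^ (c - 1))) = 2 * (c * 3 ^ (c - 1)) * (θ * (X : ℝ) ^ (c - 1)) := by ring
          _ ≤ 2 * (c * 3 ^ c) * (X : ℝ) ^ (-(1 / 2) : ℝ) := by gcongr
          _ ≤ 1 := h4
      · intro t ht
        rw [hder1]
        have : (X : ℝ) ^ (c - 1) ≤ t ^ (c - 1) := Real.rpow_le_rpow hX0.le (by linarith [ht.1]) (by linarith)
        gcongr
      · intro t ht
        rw [hder1]
        have : t ^ (c - 1) ≤ (3 * (X : ℝ)) ^ (c - 1) :=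
          Real.rpow_le_rpow (by linarith [ht.1]) (by linarith [ht.2]) (by linarith)
        gcongr
      · intro t ht
        rw [hder2]
        have : 0 < t := by linarith [ht.1]
        have : 0 ≤ c - 1 := by linarith
        positivity

/-- **The bound for the exponential sums.** -/
theorem sup_bound (c : ℝ) (hc1 : 1 < c) (hcn : ∀ m : ℕ, c ≠ m) (δ : ℝ) (hδ : 0 < δ) (hδ1 : δ ≤ 1) :
    ∃ ρ : ℝ, 0 < ρ ∧ ρ ≤ δ ∧ ρ ≤ 1 ∧ ∃ C : ℝ, 1 ≤ C ∧ ∀ X : ℕ, 1 ≤ X → ∀ θ : ℝ, (X : ℝ) ^ (-c + δ) ≤ |θ| → |θ| ≤ X →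
      ‖ES c X θ‖ ≤ C * (X : ℝ) ^ (1 - ρ) := by
  obtain ⟨ρ, hρ, hρδ, hρ1, C, hC, h⟩ := sup_pos c hc1 hcn δ hδ hδ1
  refine ⟨ρ, hρ, hρδ, hρ1, C, hC, fun X hX θ h1 h2 => ?_⟩
  rcases le_or_gt 0 θ with h0 | h0
  · rw [abs_of_nonneg h0] at h1 h2
    exact h X hX θ h1 h2
  · rw [abs_of_neg h0] at h1 h2
    rw [← ES_neg]
    exact h X hX (-θ) h1 h2

end Pool.Agent.V7H64.WX
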