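import Pool.Agent.V7H64.WX.One

set_option autoImplicit false

/-! The derivative with respect to the exponent (helper64). -/

namespace Pool.Agent.V7H64.WX

open Finset

/-- `x ^ c - y ^ c` -/
noncomputable def df (p : ℕ × ℕ) (c : ℝ) : ℝ := (p.1 : ℝ) ^ c - (p.2 : ℝ) ^ c

/-- its derivative with respect to `c` -/
noncomputable def dd (p : ℕ × ℕ) (c : ℝ) : ℝ :=
  (p.1 : ℝ) ^ c * Real.log p.1 - (p.2 : ℝ) ^ c * Real.log p.2

lemma hasDerivAt_df (p : ℕ × ℕ) (h1 : 0 < (p.1 : ℝ)) (h2 : 0 < (p.2 : ℝ)) (c : ℝ) :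
    HasDerivAt (df p) (dd p c) c := by
  unfold dd
  have e1 := (hasDerivAt_id c).const_rpow h1
  have e2 := (hasDerivAt_id c).const_rpow h2
  have := e1.sub e2
  simp only [id] at this
  refine this.congr_deriv ?_
  ring

lemma df_swap (p : ℕ × ℕ) (c : ℝ) : df p.swap c = -df p c := by
  unfold df; simp

lemma dd_swap (p : ℕ × ℕ) (c : ℝ) : dd p.swap c = -dd p c := by
  unfold dd; simp

lemma df_ge (p : ℕ × ℕ) (Y c : ℝ) (hY : 0 < Y) (hY1 : Y ≤ p.2) (h : p.2 ≤ p.1) (hc : 1 ≤ c) :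
    ((p.1 : ℝ) - p.2) * Y ^ (c - 1) ≤ df p c := by
  have hy : (0 : ℝ) < p.2 := lt_of_lt_of_le hY hY1
  have hxy : (p.2 : ℝ) ≤ p.1 := by exact_mod_cast h
  have hx : (0 : ℝ) < p.1 := lt_of_lt_of_le hy hxy
  have e1 : ∀ t : ℝ, 0 < t → t ^ c = t * t ^ (c - 1) := by
    intro t ht
    rw [Real.rpow_sub_one ht.ne']
    field_simp
  unfold df
  rw [e1 _ hx, e1 _ hy]
  have h1 : Y ^ (c - 1) ≤ (p.2 : ℝ) ^ (c - 1) := Real.rpow_le_rpow hY.le hY1 (by linarith)
  have h2 : (p.2 : ℝ) ^ (c - 1) ≤ (p.1 : ℝ) ^ (c - 1) := Real.rpow_le_rpow hy.le hxy (by linarith)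
  have h3 : 0 ≤ (p.1 : ℝ) - p.2 := by linarith
  calc ((p.1 : ℝ) - p.2) * Y ^ (c - 1) ≤ ((p.1 : ℝ) - p.2) * (p.2 : ℝ) ^ (c - 1) := by gcongr
    _ = p.1 * (p.2 : ℝ) ^ (c - 1) - p.2 * (p.2 : ℝ) ^ (c - 1) := by ring
    _ ≤ _ := by gcongr

lemma dd_ge (p : ℕ × ℕ) (Y c L : ℝ) (hY : 0 < Y) (hY1 : Y ≤ p.2) (h : p.2 ≤ p.1) (hc : 1 ≤ c) :
    (Real.log Y - L) * df p c ≤ dd p c - L * df p c := by
  have hy : (0 : ℝ) < p.2 := lt_of_lt_of_le hY hY1
  have hxy : (p.2 : ℝ) ≤ p.1 := by exact_mod_cast h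
  have hx : (0 : ℝ) < p.1 := lt_of_lt_of_le hy hxy
  have h1 : Real.log Y ≤ Real.log p.2 := Real.log_le_log hY hY1
  have h2 : Real.log p.2 ≤ Real.log p.1 := Real.log_le_log hy hxy
  have h3 : (p.2 : ℝ) ^ c ≤ (p.1 : ℝ) ^ c := Real.rpow_le_rpow hy.le hxy (by linarith)
  have h4 : 0 < (p.1 : ℝ) ^ c := Real.rpow_pos_of_pos hx c
  unfold dd df
  have h5 : 0 ≤ (p.1 : ℝ) ^ c * (Real.log p.1 - Real.log p.2) := mul_nonneg h4.le (by linarith)
  have h6 : 0 ≤ (Real.log p.2 - Real.log Y) * ((p.1 : ℝ) ^ c - (p.2 : ℝ) ^ c) :=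
    mul_nonneg (by linarith) (by linarith)
  nlinarith

lemma dd_near_aux (p : ℕ × ℕ) (Y c b : ℝ) (hY : 0 < Y) (hY1 : Y ≤ p.2) (hY2 : (p.1 : ℝ) ≤ 2 * Y)
    (h : p.2 ≤ p.1) (hc : 1 ≤ c) (hcb : c ≤ b) :
    |dd p c - Real.log Y * df p c| ≤ (1 + 2 ^ b) * |df p c| := by
  have hy : (0 : ℝ) < p.2 := lt_of_lt_of_le hY hY1
  have hxy : (p.2 : ℝ) ≤ p.1 := by exact_mod_cast h
  have hx : (0 : ℝ) < p.1 := lt_of_lt_of_le hy hxy
  have hdf : 0 ≤ df p c := by
    unfold df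
    linarith [Real.rpow_le_rpow hy.le hxy (by linarith : 0 ≤ c)]
  have h0 := dd_ge p Y c (Real.log Y) hY hY1 h hc
  rw [sub_self, zero_mul] at h0
  rw [abs_of_nonneg h0, abs_of_nonneg hdf]
  have h1 : Real.log p.2 - Real.log Y ≤ 1 := by
    rw [← Real.log_div hy.ne' hY.ne']
    have h2 : (p.2 : ℝ) / Y ≤ 2 := by
      rw [div_le_iff₀ hY]
      linarith
    have h3 := Real.log_le_sub_one_of_pos (div_pos hy hY)
    linarith
  have h2 : Real.log p.1 - Real.log p.2 ≤ ((p.1 : ℝ) - p.2) / p.2 := by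
    rw [← Real.log_div hx.ne' hy.ne']
    have h3 := Real.log_le_sub_one_of_pos (div_pos hx hy)
    have h4 : (p.1 : ℝ) / p.2 - 1 = ((p.1 : ℝ) - p.2) / p.2 := by field_simp
    linarith
  have h3 : (p.1 : ℝ) ^ c ≤ 2 ^ b * (p.2 : ℝ) ^ c := by
    calc (p.1 : ℝ) ^ c ≤ (2 * (p.2 : ℝ)) ^ c := Real.rpow_le_rpow hx.le (by linarith) (by linarith)
      _ = 2 ^ c * (p.2 : ℝ) ^ c := Real.mul_rpow (by norm_num) hy.le
      _ ≤ _ := by
        have : (2 : ℝ) ^ c ≤ 2 ^ b := Real.rpow_le_rpow_of_exponent_le (by norm_num) hcb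
        gcongr
  have h4 : (p.1 : ℝ) ^ c * (Real.log p.1 - Real.log p.2) ≤ 2 ^ b * df p c := by
    have h5 := df_ge p p.2 c hy le_rfl h hc
    have h6 : (p.2 : ℝ) ^ c * (((p.1 : ℝ) - p.2) / p.2) = ((p.1 : ℝ) - p.2) * (p.2 : ℝ) ^ (c - 1) := by
      rw [Real.rpow_sub_one hy.ne']
      ring
    have h7 : 0 ≤ ((p.1 : ℝ) - p.2) / p.2 := div_nonneg (by linarith) hy.le
    calc (p.1 : ℝ) ^ c * (Real.log p.1 - Real.log p.2) ≤ (p.1 : ℝ) ^ c * (((p.1 : ℝ) - p.2) / p.2) := by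
          have := (Real.rpow_pos_of_pos hx c).le
          gcongr
      _ ≤ 2 ^ b * (p.2 : ℝ) ^ c * (((p.1 : ℝ) - p.2) / p.2) := by gcongr
      _ = 2 ^ b * ((p.2 : ℝ) ^ c * (((p.1 : ℝ) - p.2) / p.2)) := by ring
      _ ≤ 2 ^ b * df p c := by rw [h6]; gcongr
  have h5 : dd p c - Real.log Y * df p c = (Real.log p.2 - Real.log Y) * df p c +
      (p.1 : ℝ) ^ c * (Real.log p.1 - Real.log p.2) := by
    unfold dd df
    ring
  rw [h5]
  nlinarith

lemma dd_near (p : ℕ × ℕ) (Y c b : ℝ) (hY : 0 < Y) (h1 : Y ≤ p.1 ∧ (p.1 : ℝ) ≤ 2 * Y)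
    (h2 : Y ≤ p.2 ∧ (p.2 : ℝ) ≤ 2 * Y) (hc : 1 ≤ c) (hcb : c ≤ b) :
    |dd p c - Real.log Y * df p c| ≤ (1 + 2 ^ b) * |df p c| := by
  rcases le_total p.2 p.1 with h | h
  · exact dd_near_aux p Y c b hY h2.1 h1.2 h hc hcb
  · have := dd_near_aux p.swap Y c b hY h1.1 h2.2 h hc hcb
    rw [df_swap, dd_swap, abs_neg] at this
    rw [← abs_neg]
    convert this using 2
    ring

lemma df_small (p : ℕ × ℕ) (Z c : ℝ) (h1 : (p.1 : ℝ) ≤ Z) (h2 : (p.2 : ℝ) ≤ Z) (hc : 0 ≤ c) :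
    |df p c| ≤ Z ^ c := by
  unfold df
  have e1 : (p.1 : ℝ) ^ c ≤ Z ^ c := Real.rpow_le_rpow (Nat.cast_nonneg _) h1 hc
  have e2 : (p.2 : ℝ) ^ c ≤ Z ^ c := Real.rpow_le_rpow (Nat.cast_nonneg _) h2 hc
  have e3 : 0 ≤ (p.1 : ℝ) ^ c := by positivity
  have e4 : 0 ≤ (p.2 : ℝ) ^ c := by positivity
  rw [abs_le]
  constructor <;> linarith

lemma dd_small (p : ℕ × ℕ) (Z c L : ℝ) (h1 : (p.1 : ℝ) ≤ Z) (h2 : (p.2 : ℝ) ≤ Z) (h1' : 1 ≤ (p.1 : ℝ))
    (h2' : 1 ≤ (p.2 : ℝ)) (hc : 0 ≤ c) (hL : 0 ≤ L) : |dd p c - L * df p c| ≤ Z ^ c * (Real.log Z + L) := by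
  have hZ : 1 ≤ Z := h1'.trans h1
  have e1 : (p.1 : ℝ) ^ c ≤ Z ^ c := Real.rpow_le_rpow (Nat.cast_nonneg _) h1 hc
  have e2 : (p.2 : ℝ) ^ c ≤ Z ^ c := Real.rpow_le_rpow (Nat.cast_nonneg _) h2 hc
  have e3 : 0 ≤ (p.1 : ℝ) ^ c := by positivity
  have e4 : 0 ≤ (p.2 : ℝ) ^ c := by positivity
  have l1 : Real.log p.1 ≤ Real.log Z := Real.log_le_log (by linarith) h1
  have l2 : Real.log p.2 ≤ Real.log Z := Real.log_le_log (by linarith) h2
  have l3 : 0 ≤ Real.log p.1 := Real.log_nonneg h1'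
  have l4 : 0 ≤ Real.log p.2 := Real.log_nonneg h2'
  have hdd : |dd p c| ≤ Z ^ c * Real.log Z := by
    unfold dd
    have m1 : (p.1 : ℝ) ^ c * Real.log p.1 ≤ Z ^ c * Real.log Z := mul_le_mul e1 l1 l3 (e3.trans e1)
    have m2 : (p.2 : ℝ) ^ c * Real.log p.2 ≤ Z ^ c * Real.log Z := mul_le_mul e2 l2 l4 (e4.trans e2)
    have m3 : 0 ≤ (p.1 : ℝ) ^ c * Real.log p.1 := mul_nonneg e3 l3
    have m4 : 0 ≤ (p.2 : ℝ) ^ c * Real.log p.2 := mul_nonneg e4 l4
    rw [abs_le]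
    constructor <;> linarith
  have hdf := df_small p Z c h1 h2 hc
  calc |dd p c - L * df p c| ≤ |dd p c| + |L * df p c| := abs_sub _ _
    _ = |dd p c| + L * |df p c| := by rw [abs_mul, abs_of_nonneg hL]
    _ ≤ Z ^ c * Real.log Z + L * Z ^ c := by gcongr
    _ = _ := by ring

/-- the levels `N ^ (q ^ i)` -/
noncomputable def lev (N q : ℝ) (i : ℕ) : ℝ := N ^ (q ^ i)

lemma one_le_lev {N q : ℝ} (hN : 1 ≤ N) (hq : 0 ≤ q) (i : ℕ) : 1 ≤ lev N q i :=
  Real.one_le_rpow hN (by positivity)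

/-- **Two overlapping levels.** -/
theorem two_level (a b q : ℝ) (s : ℕ) (N : ℝ) (ha : 1 < a) (hq0 : 0 < q) (hq1 : q < 1) (hN : 1 ≤ N)
    (hk : 0 < a * (1 - q ^ 2) - 1)
    (E1 : 4 * s * (2 ^ b * (2 * Real.log N + 2)) ≤ N ^ (q ^ s * (a * (1 - q ^ 2) - 1)))
    (E2 : Real.log N ≤ N ^ (q ^ s * (a - 1)))
    (E3 : 3 * (1 + 2 ^ b) + 3 ≤ q ^ s * (1 - q) * Real.log N)
    (x : Fin s → ℕ × ℕ)
    (hx1 : ∀ i : Fin s, lev N q i ≤ (x i).1 ∧ ((x i).1 : ℝ) ≤ 2 * lev N q i)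
    (hx2 : ∀ i : Fin s, lev N q i ≤ (x i).2 ∧ ((x i).2 : ℝ) ≤ 2 * lev N q i)
    (j : Fin s) (hj : ∀ i < j, (x i).1 = (x i).2) (hjj : (x j).2 < (x j).1)
    (c : ℝ) (hc : c ∈ Set.Icc a b) (hg : |∑ i, df (x i) c| ≤ 1) :
    (((x j).1 : ℝ) - (x j).2) * (lev N q j) ^ (a - 1) ≤ ∑ i, dd (x i) c := by
  have hN0 : 0 < N := by linarith
  have hc1 : 1 < c := lt_of_lt_of_le ha hc.1
  have hlogN : 0 ≤ Real.log N := Real.log_nonneg hN
  have hs : (1 : ℝ) ≤ s := by
    have := j.2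
    exact_mod_cast (by omega : 1 ≤ s)
  have hqs : ∀ i : ℕ, i ≤ s → q ^ s ≤ q ^ i := fun i hi => pow_le_pow_of_le_one hq0.le hq1.le hi
  have hqi1 : ∀ i : ℕ, q ^ i ≤ 1 := fun i => pow_le_one₀ hq0.le hq1.le
  have hY0 : ∀ i : ℕ, 0 < lev N q i := fun i => by have := one_le_lev hN hq0.le i; linarith
  set d : ℝ := df (x j) c with hd
  set L : ℝ := q ^ ((j : ℕ) + 1) * Real.log N with hL
  have hL0 : 0 ≤ L := by positivity
  have hLN : L ≤ Real.log N := by
    rw [hL]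
    have := hqi1 ((j : ℕ) + 1)
    nlinarith
  have hLeq : Real.log (lev N q ((j : ℕ) + 1)) = L := by
    unfold lev
    rw [Real.log_rpow hN0]
  -- the size of `d`
  have hh : (1 : ℝ) ≤ ((x j).1 : ℝ) - (x j).2 := by
    have : ((x j).2 : ℝ) + 1 ≤ (x j).1 := by exact_mod_cast hjj
    linarith
  have hd1 : (((x j).1 : ℝ) - (x j).2) * (lev N q j) ^ (c - 1) ≤ d :=
    df_ge (x j) _ c (hY0 j) (hx2 j).1 hjj.le hc1.le
  have hpw : ∀ t : ℝ, (lev N q j) ^ t = N ^ (q ^ (j : ℕ) * t) := by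
    intro t
    unfold lev
    rw [← Real.rpow_mul hN0.le]
  have hd2 : (lev N q j) ^ (c - 1) ≤ d := by
    have h0 : 0 ≤ (lev N q j) ^ (c - 1) := Real.rpow_nonneg (hY0 j).le _
    nlinarith
  have hd3 : Real.log N ≤ d := by
    refine E2.trans (le_trans ?_ hd2)
    rw [hpw]
    apply Real.rpow_le_rpow_of_exponent_le hN
    have h1 := hqs j j.2.le
    have h2 : 0 ≤ q ^ s := by positivity
    have h3 : a - 1 ≤ c - 1 := by linarith [hc.1]
    have h4 : 0 ≤ a - 1 := by linarith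
    exact mul_le_mul h1 h3 h4 (by positivity)
  have hd4 : 1 ≤ d := by
    refine le_trans ?_ hd2
    exact Real.one_le_rpow (one_le_lev hN hq0.le _) (by linarith)
  -- the low levels
  have hlow : ∀ i : Fin s, i ≠ j → (i : ℕ) ≠ (j : ℕ) + 1 →
      |df (x i) c| ≤ d / (4 * s) ∧ |dd (x i) c - L * df (x i) c| ≤ d / (4 * s) := by
    intro i hij hij1
    rcases lt_or_ge i j with hlt | hge
    · have h1 := hj i hlt
      have e1 : df (x i) c = 0 := by unfold df; rw [h1]; ring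
      have e2 : dd (x i) c = 0 := by unfold dd; rw [h1]; ring
      rw [e1, e2]
      simp only [abs_zero, mul_zero, sub_zero]
      constructor <;> positivity
    · have hge2 : (j : ℕ) + 2 ≤ (i : ℕ) := by
        have h1 : (j : ℕ) ≤ (i : ℕ) := hge
        have h2 : (i : ℕ) ≠ (j : ℕ) := fun h => hij (Fin.ext h)
        omega
      set Z : ℝ := 2 * lev N q ((j : ℕ) + 2) with hZ
      have hZ1 : 1 ≤ Z := by have := one_le_lev hN hq0.le ((j : ℕ) + 2); linarith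
      have hle : lev N q i ≤ lev N q ((j : ℕ) + 2) := by
        unfold lev
        exact Real.rpow_le_rpow_of_exponent_le hN (pow_le_pow_of_le_one hq0.le hq1.le hge2)
      have hi1 : ((x i).1 : ℝ) ≤ Z := by linarith [(hx1 i).2]
      have hi2 : ((x i).2 : ℝ) ≤ Z := by linarith [(hx2 i).2]
      have hi1' : 1 ≤ ((x i).1 : ℝ) := (one_le_lev hN hq0.le _).trans (hx1 i).1
      have hi2' : 1 ≤ ((x i).2 : ℝ) := (one_le_lev hN hq0.le _).trans (hx2 i).1
      have hlogZ : Real.log Z ≤ 1 + Real.log N := by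
        rw [hZ, Real.log_mul (by norm_num) (hY0 _).ne']
        have h1 : Real.log (lev N q ((j : ℕ) + 2)) ≤ Real.log N := by
          unfold lev
          rw [Real.log_rpow hN0]
          have := hqi1 ((j : ℕ) + 2)
          nlinarith
        have h2 : Real.log 2 ≤ 1 := by
          have := Real.log_le_sub_one_of_pos (show (0 : ℝ) < 2 by norm_num)
          linarith
        linarith
      have hlogZ0 : 0 ≤ Real.log Z := Real.log_nonneg hZ1
      have hZc : Z ^ c ≤ 2 ^ b * ((lev N q j) ^ (c - 1) * N ^ (-(q ^ s * (a * (1 - q ^ 2) - 1)))) := by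
        rw [hZ, Real.mul_rpow (by norm_num) (hY0 _).le]
        have h1 : (2 : ℝ) ^ c ≤ 2 ^ b := Real.rpow_le_rpow_of_exponent_le (by norm_num) hc.2
        have h2 : (lev N q ((j : ℕ) + 2)) ^ c ≤ (lev N q j) ^ (c - 1) * N ^ (-(q ^ s * (a * (1 - q ^ 2) - 1))) := by
          rw [hpw, ← Real.rpow_add hN0]
          unfold lev
          rw [← Real.rpow_mul hN0.le]
          apply Real.rpow_le_rpow_of_exponent_le hN
          have h3 := hqs j j.2.le
          have h4 : a * (1 - q ^ 2) - 1 ≤ c * (1 - q ^ 2) - 1 := by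
            have : 0 ≤ 1 - q ^ 2 := by nlinarith
            nlinarith [hc.1]
          have h5 : q ^ s * (a * (1 - q ^ 2) - 1) ≤ q ^ (j : ℕ) * (c * (1 - q ^ 2) - 1) :=
            mul_le_mul h3 h4 hk.le (by positivity)
          rw [pow_add]
          nlinarith
        have h3 : 0 ≤ (lev N q ((j : ℕ) + 2)) ^ c := Real.rpow_nonneg (hY0 _).le _
        gcongr
      have hfin : Z ^ c * (Real.log Z + L + 1) ≤ d / (4 * s) := by
        rw [le_div_iff₀ (by positivity)]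
        have h1 : Real.log Z + L + 1 ≤ 2 * Real.log N + 2 := by linarith
        have h2 : 0 ≤ Z ^ c := by positivity
        have hneg : N ^ (-(q ^ s * (a * (1 - q ^ 2) - 1))) * N ^ (q ^ s * (a * (1 - q ^ 2) - 1)) = 1 := by
          rw [← Real.rpow_add hN0]
          simp
        have h0 : 0 ≤ (lev N q j) ^ (c - 1) := Real.rpow_nonneg (hY0 j).le _
        have h00 : 0 ≤ N ^ (-(q ^ s * (a * (1 - q ^ 2) - 1))) := Real.rpow_nonneg hN0.le _
        calc Z ^ c * (Real.log Z + L + 1) * (4 * s) ≤ Z ^ c * (2 * Real.log N + 2) * (4 * s) := by gcongr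
          _ ≤ (2 ^ b * ((lev N q j) ^ (c - 1) * N ^ (-(q ^ s * (a * (1 - q ^ 2) - 1))))) * (2 * Real.log N + 2) *
                (4 * s) := by gcongr
          _ = ((lev N q j) ^ (c - 1) * N ^ (-(q ^ s * (a * (1 - q ^ 2) - 1)))) *
                (4 * s * (2 ^ b * (2 * Real.log N + 2))) := by ring
          _ ≤ ((lev N q j) ^ (c - 1) * N ^ (-(q ^ s * (a * (1 - q ^ 2) - 1)))) *
                N ^ (q ^ s * (a * (1 - q ^ 2) - 1)) := by gcongr
          _ = (lev N q j) ^ (c - 1) := by rw [mul_assoc, hneg, mul_one]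
          _ ≤ d := hd2
      have h2 : 0 ≤ Z ^ c := by positivity
      constructor
      · refine (df_small (x i) Z c hi1 hi2 (by linarith)).trans (le_trans ?_ hfin)
        have : 1 ≤ Real.log Z + L + 1 := by linarith
        nlinarith
      · refine (dd_small (x i) Z c L hi1 hi2 hi1' hi2' (by linarith) hL0).trans (le_trans ?_ hfin)
        have : Real.log Z + L ≤ Real.log Z + L + 1 := by linarith
        gcongr
  -- the sum over the other indices
  have hsum : ∑ i ∈ univ.erase j, |dd (x i) c - L * df (x i) c| ≤ (3 * (1 + 2 ^ b) + 1) * d := by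
    have h2b : (0 : ℝ) < 2 ^ b := by positivity
    have hd0 : 0 ≤ d := by linarith
    by_cases hex : ∃ i : Fin s, (i : ℕ) = (j : ℕ) + 1
    · obtain ⟨i₀, hi₀⟩ := hex
      have hi₀j : i₀ ≠ j := by
        intro h
        rw [h] at hi₀
        omega
      have hmem : i₀ ∈ univ.erase j := mem_erase.2 ⟨hi₀j, mem_univ _⟩
      have hrest : ∀ f : Fin s → ℝ, (∀ i : Fin s, i ≠ j → (i : ℕ) ≠ (j : ℕ) + 1 → |f i| ≤ d / (4 * s)) →
          ∑ i ∈ (univ.erase j).erase i₀, |f i| ≤ d / 4 := by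
        intro f hf
        have h1 : ∀ i ∈ (univ.erase j).erase i₀, |f i| ≤ d / (4 * s) := by
          intro i hi
          rw [mem_erase, mem_erase] at hi
          exact hf i hi.2.1 (fun h => hi.1 (Fin.ext (h.trans hi₀.symm)))
        have h2 := sum_le_sum h1
        rw [sum_const, nsmul_eq_mul] at h2
        refine h2.trans ?_
        have h3 : (((univ.erase j).erase i₀).card : ℝ) ≤ s := by
          have h4 : ((univ.erase j).erase i₀).card ≤ (univ : Finset (Fin s)).card :=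
            card_le_card ((erase_subset _ _).trans (erase_subset _ _))
          rw [card_univ, Fintype.card_fin] at h4
          exact_mod_cast h4
        calc (((univ.erase j).erase i₀).card : ℝ) * (d / (4 * s)) ≤ s * (d / (4 * s)) := by gcongr
          _ = d / 4 := by field_simp
      have hS : ∑ i, df (x i) c = d + (df (x i₀) c + ∑ i ∈ (univ.erase j).erase i₀, df (x i) c) := by
        have e1 := add_sum_erase (univ.erase j) (fun i => df (x i) c) hmem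
        have e2 := add_sum_erase univ (fun i => df (x i) c) (mem_univ j)
        rw [e1, hd, e2]
      have h1 : |∑ i ∈ (univ.erase j).erase i₀, df (x i) c| ≤ d / 4 :=
        (abs_sum_le_sum_abs _ _).trans (hrest _ (fun i h1 h2 => (hlow i h1 h2).1))
      have h2 : |df (x i₀) c| ≤ 3 * d := by
        have e1 : df (x i₀) c = (∑ i, df (x i) c) - d - ∑ i ∈ (univ.erase j).erase i₀, df (x i) c := by
          rw [hS]; ring
        rw [abs_le] at hg h1 ⊢
        rw [e1]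
        constructor <;> linarith [hg.1, hg.2, h1.1, h1.2]
      have h3 := dd_near (x i₀) (lev N q ((j : ℕ) + 1)) c b (hY0 _) (by rw [← hi₀]; exact hx1 i₀)
        (by rw [← hi₀]; exact hx2 i₀) hc1.le hc.2
      rw [hLeq] at h3
      rw [← add_sum_erase (univ.erase j) (fun i => |dd (x i) c - L * df (x i) c|) hmem]
      have h4 := hrest _ (fun i h1 h2 => (hlow i h1 h2).2)
      have h5 : (1 + 2 ^ b) * |df (x i₀) c| ≤ (1 + 2 ^ b) * (3 * d) := by gcongr
      linarith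
    · push Not at hex
      have h1 : ∀ i ∈ univ.erase j, |dd (x i) c - L * df (x i) c| ≤ d / (4 * s) := by
        intro i hi
        rw [mem_erase] at hi
        exact (hlow i hi.1 (hex i)).2
      have h2 := sum_le_sum h1
      rw [sum_const, nsmul_eq_mul] at h2
      refine h2.trans ?_
      have h3 : ((univ.erase j).card : ℝ) ≤ s := by
        have h4 : (univ.erase j).card ≤ (univ : Finset (Fin s)).card := card_le_card (erase_subset _ _)
        rw [card_univ, Fintype.card_fin] at h4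
        exact_mod_cast h4
      calc ((univ.erase j).card : ℝ) * (d / (4 * s)) ≤ s * (d / (4 * s)) := by gcongr
        _ = d / 4 := by field_simp
        _ ≤ _ := by nlinarith
  -- conclusion
  have hmain := dd_ge (x j) (lev N q j) c L (hY0 j) (hx2 j).1 hjj.le hc1.le
  rw [← hd] at hmain
  have hlogj : Real.log (lev N q j) = q ^ (j : ℕ) * Real.log N := by
    unfold lev
    rw [Real.log_rpow hN0]
  have hgap : 3 * (1 + 2 ^ b) + 3 ≤ Real.log (lev N q j) - L := by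
    rw [hlogj, hL, pow_succ]
    refine E3.trans ?_
    have h1 := hqs j j.2.le
    have h2 : 0 ≤ (1 - q) * Real.log N := mul_nonneg (by linarith) hlogN
    nlinarith
  have hG : ∑ i, dd (x i) c = L * (∑ i, df (x i) c) + ((dd (x j) c - L * d) +
      ∑ i ∈ univ.erase j, (dd (x i) c - L * df (x i) c)) := by
    rw [hd, add_sum_erase _ (fun i => dd (x i) c - L * df (x i) c) (mem_univ j), sum_sub_distrib, mul_sum]
    ring
  have h1 : -((3 * (1 + 2 ^ b) + 1) * d) ≤ ∑ i ∈ univ.erase j, (dd (x i) c - L * df (x i) c) := by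
    have := (abs_le.1 ((abs_sum_le_sum_abs (fun i => dd (x i) c - L * df (x i) c) (univ.erase j)).trans hsum)).1
    exact this
  have h2 : -d ≤ L * (∑ i, df (x i) c) := by
    have h3 := (abs_le.1 hg).1
    have h4 : L * (-1) ≤ L * (∑ i, df (x i) c) := mul_le_mul_of_nonneg_left h3 hL0
    linarith
  have h3 : (3 * (1 + 2 ^ b) + 3) * d ≤ (Real.log (lev N q j) - L) * d := by
    have : 0 ≤ d := by linarith
    gcongr
  have h4 : (((x j).1 : ℝ) - (x j).2) * (lev N q j) ^ (a - 1) ≤ d := by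
    refine le_trans ?_ hd1
    have h5 : (lev N q j) ^ (a - 1) ≤ (lev N q j) ^ (c - 1) :=
      Real.rpow_le_rpow_of_exponent_le (one_le_lev hN hq0.le _) (by linarith [hc.1])
    have h6 : 0 ≤ ((x j).1 : ℝ) - (x j).2 := by linarith
    gcongr
  rw [hG]
  nlinarith

end Pool.Agent.V7H64.WX
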